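import Pool.Agent.H9x.BF.Stm2

set_option autoImplicit false

namespace Pool.Agent.H9x.BF

open Finset H568R2 Pool.Agent.H676 Pool.Agent.NPC Pool.Agent.H620R2.Gauge
  Pool.Agent.H9x.Q Pool.Agent.H622R2 Pool.Agent.TH678.SETH Pool.Agent.TH678.RS

open Pool.Agent.H9x.RT (ml lv HZ lev UU hs Adm isP_of_isPH)

open Pool.Agent.H9x.BE (th Dat ind Sy Ev Fd Av ow Kx Tv Jn cN contN Kh S_AVL S_AVI S_KX S_KHN
  S_CARDU S_RUNDT S_CONJ)

open Pool.Agent.K7x.EQ (Iu m2e va Ig KK mkv IsEQP)

namespace Bse

/-- a string which is not of the form `false :: true :: v` is not in a block -/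
theorem not_adr (S : ℕ → Polynomial ℕ) (q : List Bool) (hq : ∀ v, q ≠ false :: true :: v) :
    ¬ ∃ (c : ℕ × List Bool) (w : List Bool), w.length = La (lev S c) ∧ q = adr S c w := by
  rintro ⟨c, w, -, h⟩
  exact hq _ h

theorem len_adr (S : ℕ → Polynomial ℕ) (c : ℕ × List Bool) (w w' : List Bool)
    (h : w.length = w'.length) : (adr S c w).length = (adr S c w').length := by
  unfold adr
  simp only [List.length_cons, length_cS, List.length_append, h]

end Bse

/-- the base oracle -/
theorem t_BSE (hPL : S_PL) : S_BSE where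
  blk := by
    intro S D c w hw
    have h : ∃ (c' : ℕ × List Bool) (w' : List Bool), w'.length = La (lev S c') ∧
        adr S c w = adr S c' w' := ⟨c, w, hw, rfl⟩
    have hs := h.choose_spec.choose_spec
    have h1 := hPL.adr_inj S c h.choose w h.choose_spec.choose hw hs.1 hs.2
    unfold baseE
    rw [dif_pos h]
    have key : ∀ (c' : ℕ × List Bool) (w' : List Bool), c = c' → w = w' →
        Pool.Agent.K7x.EQ.enc (uu (lev S c')) (fun i => D (pos S c' i)) w' =
        Pool.Agent.K7x.EQ.enc (uu (lev S c)) (fun i => D (pos S c i)) w := by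
      rintro c' w' rfl rfl
      rfl
    exact key _ _ h1.1 h1.2
  zer := by
    intro S D v
    have h := Bse.not_adr S (false :: false :: true :: v) (by simp)
    unfold baseE
    rw [dif_neg h]
    simp
  tt := by
    intro S D v
    have h := Bse.not_adr S (true :: v) (by simp)
    unfold baseE
    rw [dif_neg h]
  cls := by
    intro S q
    by_cases h : ∃ (c : ℕ × List Bool) (w : List Bool), w.length = La (lev S c) ∧ q = adr S c w
    · have hs := h.choose_spec.choose_spec
      rcases Pool.Agent.K7x.EQ.enc_cls (uu (lev S h.choose)) h.choose_spec.choose with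
        ⟨i, hi⟩ | ⟨v, hv⟩
      · refine Or.inl ⟨pos S h.choose i, ?_, fun D => ?_⟩
        · have h1 := hPL.wd_len S h.choose i
          have h2 : (pos S h.choose i).length = (adr S h.choose h.choose_spec.choose).length := by
            exact Bse.len_adr S h.choose _ _ (h1.trans hs.1.symm)
          rw [h2, ← hs.2]
        · unfold baseE
          rw [dif_pos h, hi]
      · refine Or.inr ⟨v, fun D => ?_⟩
        unfold baseE
        rw [dif_pos h, hv]
    · by_cases h2 : ∃ v, q = false :: false :: true :: v
      · obtain ⟨v, rfl⟩ := h2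
        classical
        refine Or.inr ⟨decide (∀ b ∈ v, b = false), fun D => ?_⟩
        unfold baseE
        rw [dif_neg h]
      · refine Or.inl ⟨q, le_rfl, fun D => ?_⟩
        unfold baseE
        rw [dif_neg h]
        split
        · rename_i v
          exact absurd ⟨_, rfl⟩ h2
        · rfl

end Pool.Agent.H9x.BF
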