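import Pool.Agent.H9x.BF.Stm1
import Pool.Agent.H9x.BE.CORE
import Pool.Agent.H9x.BE.PROD

/-!
# Project BF, piece CORE2: concentrated forrelation hits
-/

set_option autoImplicit false
set_option linter.unusedSectionVars false
set_option linter.unusedVariables false

namespace Pool.Agent.H9x.BF

open Finset H568R2 Pool.Agent.H676 Pool.Agent.H9x.RT Pool.Agent.H9x.BE

open Pool.Agent.H9x.BE.CORE

theorem t_CORE2 (hTAILV : S_TAILV) (hMOM2 : S_MOM2) : S_CORE2 := by
  classical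
  intro X _ _ _ H γ Λ ε η hH hγ hΛ hε hε1 hη hη1 hbig hΛη hex G hG hq
  by_contra hcon
  push Not at hcon
  have hN1' : 1 ≤ Fintype.card X := Fintype.card_pos
  have hN1 : (1 : ℝ) ≤ Fintype.card X := by exact_mod_cast hN1'
  have hγ0 := hH.nonneg
  have hΛ0 : (0 : ℝ) ≤ Λ := by linarith
  obtain ⟨K₃, hK₃, hP⟩ := (t_POT t_BOX t_EXPN t_PROD) X H γ (1 / (2 * ε)) Λ hH (by positivity) hΛ0
  obtain ⟨K₄, hK₄, hF⟩ := hMOM2 X H γ Λ hH hΛ0
  have hTl := hTAILV X H γ η hH hη
  have hBx := t_BOX (X ⊕ X) Λ G hG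
  set N : ℝ := (Fintype.card X : ℝ) with hNdef
  set q : ℝ := ml G 0 with hqdef
  set K₅ : ℝ := 2 ^ Fintype.card (X ⊕ X) * N ^ Fintype.card (X ⊕ X) with hK₅def
  have hK₅ : 0 < K₅ := by positivity
  set s : ℝ := Real.sqrt N with hsdef
  have hs1 : 1 ≤ s := Real.one_le_sqrt.2 hN1
  set e₀ : ℝ := Real.exp (-(η ^ 2 * N / 256)) with he₀
  have he₀0 : 0 < e₀ := Real.exp_pos _
  have hq0 : 0 < q := by linarith
  have hη2 : 0 < η ^ 2 := by positivity
  have hη21 : η ^ 2 ≤ 1 := pow_le_one₀ hη.le hη1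
  -- the numbers
  have hγΛ : γ * Λ ≤ 1 / 128 := by
    have h1 := mul_le_mul_of_nonneg_left hbig hγ0
    linarith
  have hγΛ0 : 0 ≤ γ * Λ := by positivity
  set c₂ : ℝ := (1 / (2 * ε)) ^ 2 / 2 + 2 * (1 / (2 * ε)) + γ * Λ * (4 + 2 * (1 / (2 * ε))) with hc₂def
  have hc₂0 : 0 ≤ c₂ := by positivity
  have hεc₂ : ε * c₂ ≤ 1 / (8 * ε) + 2 := by
    have h1 : ε * c₂ = 1 / (8 * ε) + 1 + γ * Λ * (4 * ε + 1) := by
      rw [hc₂def]
      field_simp
      ring
    have h2 : γ * Λ * (4 * ε + 1) ≤ 1 := by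
      have h3 : γ * Λ * (4 * ε + 1) ≤ 1 / 128 * (4 * ε + 1) :=
        mul_le_mul_of_nonneg_right hγΛ (by positivity)
      linarith
    rw [h1]
    linarith
  have hexp2 : Real.exp 2 ≤ 15 / 2 := by
    have h9 : Real.exp 2 = Real.exp 1 * Real.exp 1 := by rw [← Real.exp_add]; norm_num
    have h10 := Real.exp_one_lt_d9
    have h11 := Real.exp_pos 1
    rw [h9]
    nlinarith
  set Ex : ℝ := Real.exp (ε * c₂) with hExdef
  have hEx0 : 0 < Ex := Real.exp_pos _
  -- the walk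
  obtain ⟨T, δ, h0, h1, hs, hT, hτ⟩ := walk_ex hH (ε := ε) (τ := q * η ^ 2 / 1000)
    (K := K₅ + K₄ + Ex * K₃) hε (by positivity) (by positivity)
  have hqη : q * η ^ 2 / 1000 ≤ q / 1000 := by
    have := mul_le_mul_of_nonneg_left hη21 hq0.le
    linarith
  have hτ5 : δ * K₅ ≤ q / 1000 := by
    have : 0 ≤ δ * (K₄ + Ex * K₃) := by positivity
    linarith
  have hτ4 : δ * K₄ ≤ q * η ^ 2 / 1000 := by
    have : 0 ≤ δ * (K₅ + Ex * K₃) := by positivity
    linarith
  have hτ3 : δ * (Ex * K₃) ≤ q / 1000 := by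
    have : 0 ≤ δ * (K₅ + K₄) := by positivity
    linarith
  -- nonnegativity of the extension
  have hf0 : ∀ v : X ⊕ X → ℝ, Cube v → 0 ≤ ml G v := by
    intro v hv
    have := ml_mono (F := fun _ => 0) (G := G) hG.nn hv
    rwa [ml_const] at this
  have hboxcube : ∀ v : X ⊕ X → ℝ, (∀ i, |v i| ≤ 1 / 2) → Cube v :=
    fun v hv i => (hv i).trans (by norm_num)
  -- one step
  have stA : ∀ v : X ⊕ X → ℝ, Cube v →
      |St (Wf H) δ (ml G) v - ml G v| ≤ δ ^ 2 * (4 * (γ * Λ)) * ml G v + δ ^ 3 * K₅ := by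
    intro v hv
    by_cases hb : ∀ i, |v i| ≤ 1 / 2
    · have hF1 : ∀ a, |G a| ≤ 1 := fun a => by
        rw [abs_of_nonneg (hG.nn a)]
        exact hG.le a
      refine (St_ml (W := Wf H) h0 h1 hN1 (fun u i => inc_le hH u i) (gram_ne hH) hF1 hb).trans ?_
      have h2 := (hBx v hb).2.2.2.1
      have h3 := mul_le_mul_of_nonneg_left h2 (by positivity : (0 : ℝ) ≤ δ ^ 2 * γ)
      have h4 : δ ^ 2 * γ * (4 * Λ * ml G v) = δ ^ 2 * (4 * (γ * Λ)) * ml G v := by ring
      rw [h4] at h3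
      linarith
    · rw [St_out hb, sub_self, abs_zero]
      have := hf0 v hv
      positivity
  have stP : ∀ v : X ⊕ X → ℝ, Cube v →
      St (Wf H) δ (fun v => ml G v * pot (1 / (2 * ε)) v) v ≤
        (1 + δ ^ 2 * c₂) * (ml G v * pot (1 / (2 * ε)) v) + δ ^ 3 * K₃ := by
    intro v hv
    by_cases hb : ∀ i, |v i| ≤ 1 / 2
    · exact hP δ h0 h1 hs G hG v hb
    · rw [St_out hb]
      have h2 := mul_nonneg (hf0 v hv) (pot_nonneg (1 / (2 * ε)) v)
      have h3 : 0 ≤ δ ^ 2 * c₂ * (ml G v * pot (1 / (2 * ε)) v) := by positivity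
      have h4 : 0 ≤ δ ^ 3 * K₃ := by positivity
      linarith
  have hTr : ∀ t : ℕ, t ≤ T → (t : ℝ) * δ ^ 2 ≤ ε := by
    intro t ht
    rw [← hT]
    exact mul_le_mul_of_nonneg_right (by exact_mod_cast ht) (by positivity)
  -- the second moment
  let Ψ : ℕ → (X ⊕ X → ℝ) → ℝ := fun t v =>
    if ∀ i, |v i| ≤ 1 / 2 then ml G v * (ml (Fo H) v - t * δ ^ 2) ^ 2 else 0
  have hΨin : ∀ (t : ℕ) (v : X ⊕ X → ℝ), (∀ i, |v i| ≤ 1 / 2) →
      Ψ t v = ml G v * (ml (Fo H) v - t * δ ^ 2) ^ 2 := fun t v hb => if_pos hb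
  have hΨout : ∀ (t : ℕ) (v : X ⊕ X → ℝ), ¬ (∀ i, |v i| ≤ 1 / 2) → Ψ t v = 0 :=
    fun t v hb => if_neg hb
  set x : ℝ := 1 + δ ^ 2 * (1 + 4 * γ * Λ) with hxdef
  set κ : ℝ := δ ^ 2 * ((4 * Λ ^ 2 + 1) / N) with hκdef
  have hκ0 : 0 ≤ κ := by positivity
  have hx1 : 1 ≤ x := by
    have : 0 ≤ δ ^ 2 * (1 + 4 * γ * Λ) := by positivity
    linarith
  have stM : ∀ t : ℕ, t ≤ T → ∀ v : X ⊕ X → ℝ, Cube v →
      St (Wf H) δ (Ψ (t + 1)) v ≤ x * Ψ t v + (κ * ml G v + (0 * ml G v + δ ^ 3 * K₄)) := by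
    intro t ht v hv
    by_cases hb : ∀ i, |v i| ≤ 1 / 2
    · rw [St_in hb, hΨin t v hb]
      have hr : |(-(t * δ ^ 2) : ℝ)| ≤ 1 := by
        rw [abs_neg, abs_of_nonneg (by positivity)]
        exact (hTr t ht).trans hε1
      have h2 := hF δ h0 h1 hs G hG v hb (-(t * δ ^ 2)) hr
      have h3 : Eu (fun u => Ψ (t + 1) (fun i => v i + δ * inc (Wf H) u i)) ≤
          Eu (fun u => ml G (fun i => v i + δ * inc (Wf H) u i) *
            (ml (Fo H) (fun i => v i + δ * inc (Wf H) u i) - δ ^ 2 + -(t * δ ^ 2)) ^ 2) := by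
        refine Eu_mono fun u => ?_
        by_cases hb' : ∀ i, |v i + δ * inc (Wf H) u i| ≤ 1 / 2
        · rw [hΨin (t + 1) _ hb']
          push_cast
          refine le_of_eq ?_
          ring
        · rw [hΨout (t + 1) _ hb']
          exact mul_nonneg (hf0 _ (hs.cube hb u)) (sq_nonneg _)
      refine (h3.trans h2).trans (le_of_eq ?_)
      rw [hxdef, hκdef]
      ring
    · rw [St_out hb, hΨout _ _ hb, hΨout _ _ hb]
      have h2 := mul_nonneg hκ0 (hf0 v hv)
      have h3 : 0 ≤ δ ^ 3 * K₄ := by positivity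
      linarith
  -- concentrated points
  set G' : (X ⊕ X → Bool) → ℝ := fun a => if |Fo H a - ε| ≤ η then G a else 0 with hG'def
  have hG'0 : ∀ a, 0 ≤ G' a := by
    intro a
    show 0 ≤ if |Fo H a - ε| ≤ η then G a else 0
    split_ifs
    · exact hG.nn a
    · exact le_rfl
  have hG'q : ∀ a, G' a ≤ q / 2 := by
    intro a
    show (if |Fo H a - ε| ≤ η then G a else 0) ≤ q / 2
    split_ifs with h
    · exact (hcon a h).le
    · positivity
  have hG'm : ∀ v : X ⊕ X → ℝ, Cube v → 0 ≤ ml G' v := by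
    intro v hv
    have := ml_mono (F := fun _ => 0) (G := G') hG'0 hv
    rwa [ml_const] at this
  have stG : ∀ v : X ⊕ X → ℝ, Cube v → ml G v ≤ 1 * ml G' v +
      ((4 / η ^ 2) * Ψ T v + (1 * (ml G v * pot (1 / (2 * ε)) v) + 4 * e₀)) := by
    intro v hv
    have h2 := mul_nonneg (hf0 v hv) (pot_nonneg (1 / (2 * ε)) v)
    have h3 := hG'm v hv
    by_cases hb : ∀ i, |v i| ≤ 1 / 2
    · rw [hΨin T v hb, hT]
      by_cases hφ : |ml (Fo H) v - ε| ≤ η / 2
      · have h4 : ml G v ≤ ml (fun a => G' a +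
            (if |Fo H a - ml (Fo H) v| ≤ η / 2 then (0 : ℝ) else 1)) v := by
          refine ml_mono (fun a => ?_) hv
          show G a ≤ (if |Fo H a - ε| ≤ η then G a else 0) +
            (if |Fo H a - ml (Fo H) v| ≤ η / 2 then (0 : ℝ) else 1)
          by_cases h5 : |Fo H a - ml (Fo H) v| ≤ η / 2
          · have h6 : |Fo H a - ε| ≤ η := by
              have h7 : Fo H a - ε = (Fo H a - ml (Fo H) v) + (ml (Fo H) v - ε) := by ring
              rw [h7]
              refine (abs_add_le _ _).trans ?_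
              linarith
            rw [if_pos h5, if_pos h6, add_zero]
          · rw [if_neg h5]
            have h6 := hG.le a
            have h7 := hG'0 a
            have h8 : 0 ≤ (if |Fo H a - ε| ≤ η then G a else 0) := h7
            linarith
        rw [ml_add'] at h4
        have h5 := hTl v hv
        have h6 : 0 ≤ (4 / η ^ 2) * (ml G v * (ml (Fo H) v - ε) ^ 2) :=
          mul_nonneg (by positivity) (mul_nonneg (hf0 v hv) (sq_nonneg _))
        linarith
      · have h4 : η ^ 2 / 4 ≤ (ml (Fo H) v - ε) ^ 2 := by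
          rw [not_le] at hφ
          rw [← sq_abs (ml (Fo H) v - ε)]
          have h5 : (η / 2) ^ 2 ≤ |ml (Fo H) v - ε| ^ 2 :=
            pow_le_pow_left₀ (by positivity) hφ.le 2
          linarith
        have h5 : 1 ≤ (4 / η ^ 2) * (ml (Fo H) v - ε) ^ 2 := by
          have h6 := mul_le_mul_of_nonneg_left h4 (by positivity : 0 ≤ 4 / η ^ 2)
          have h7 : 4 / η ^ 2 * (η ^ 2 / 4) = 1 := by field_simp
          rwa [h7] at h6
        have h6 : ml G v ≤ (4 / η ^ 2) * (ml G v * (ml (Fo H) v - ε) ^ 2) := by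
          have h7 := mul_le_mul_of_nonneg_left h5 (hf0 v hv)
          linarith
        linarith
    · rw [hΨout T v hb]
      have h4 := pot_out (lam := 1 / (2 * ε)) (by positivity) hb
      have h5 : ml G v ≤ ml G v * pot (1 / (2 * ε)) v := le_mul_of_one_le_right (hf0 v hv) h4
      linarith
  have stG' : ∀ v : X ⊕ X → ℝ, Cube v →
      ml G' v ≤ 0 * ml G v + (0 * ml G v + (0 * ml G v + q / 2)) := by
    intro v hv
    have h2 := ml_mono (F := G') (G := fun _ => q / 2) hG'q hv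
    rw [ml_const] at h2
    linarith
  -- abbreviations
  set A : ℕ → ℝ := fun t => Sn (Wf H) δ t (ml G) 0 with hAdef
  set P : ℕ → ℝ := fun t => Sn (Wf H) δ t (fun v => ml G v * pot (1 / (2 * ε)) v) 0 with hPdef
  set M : ℕ → ℝ := fun t => Sn (Wf H) δ t (Ψ t) 0 with hMdef
  -- (a)
  set D : ℝ := 2 * q * (δ ^ 2 * (4 * (γ * Λ))) + δ ^ 3 * K₅ with hDdef
  have hD0 : 0 ≤ D := by positivity
  have hDT : ∀ t : ℕ, t ≤ T → (t : ℝ) * D ≤ 64 / 1000 * q := by
    intro t ht
    have h2 : (t : ℝ) * D = (t * δ ^ 2) * (8 * q * (γ * Λ) + δ * K₅) := by rw [hDdef]; ring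
    rw [h2]
    have h3 : 8 * q * (γ * Λ) + δ * K₅ ≤ 64 / 1000 * q := by
      have h4 : q * (γ * Λ) ≤ q * (1 / 128) :=
        mul_le_mul_of_nonneg_left hγΛ hq0.le
      linarith
    have h4 : (t : ℝ) * δ ^ 2 ≤ 1 := (hTr t ht).trans hε1
    have h5 : (t * δ ^ 2) * (8 * q * (γ * Λ) + δ * K₅) ≤ 1 * (8 * q * (γ * Λ) + δ * K₅) :=
      mul_le_mul_of_nonneg_right h4 (by positivity)
    linarith
  have hA : ∀ t : ℕ, t ≤ T → |A t - q| ≤ t * D := by
    intro t
    induction t with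
    | zero => intro _; simp [hAdef, Sn, hqdef]
    | succ t ih =>
      intro ht
      have h2 := ih (by omega)
      have h3 := hDT t (by omega)
      have h4 : A (t + 1) ≤ (1 + δ ^ 2 * (4 * (γ * Λ))) * A t + (0 * A t + (0 * A t + δ ^ 3 * K₅)) := by
        refine Sn_le hs t (g := St (Wf H) δ (ml G)) (f1 := ml G) (f2 := ml G) (f3 := ml G)
          fun v hv => ?_
        have := (abs_le.1 (stA v hv)).2
        linarith
      have h5 : (1 - δ ^ 2 * (4 * (γ * Λ))) * A t + (0 * A t + (0 * A t + (-(δ ^ 3 * K₅)))) ≤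
          A (t + 1) := by
        refine Sn_ge hs t (g := St (Wf H) δ (ml G)) (f1 := ml G) (f2 := ml G) (f3 := ml G)
          fun v hv => ?_
        have := (abs_le.1 (stA v hv)).1
        linarith
      have h6 := abs_le.1 h2
      have h7 : δ ^ 2 * (4 * (γ * Λ)) * A t ≤ 2 * q * (δ ^ 2 * (4 * (γ * Λ))) := by
        have h8 : A t ≤ 2 * q := by linarith [h6.2]
        have := mul_le_mul_of_nonneg_left h8 (by positivity : 0 ≤ δ ^ 2 * (4 * (γ * Λ)))
        linarith
      rw [abs_le]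
      push_cast
      constructor
      · linarith [h6.1]
      · linarith [h6.2]
  -- (b)
  have hPpow : ∀ t : ℕ, P t ≤ (1 + δ ^ 2 * c₂) ^ t * (P 0 + t * (δ ^ 3 * K₃)) := by
    intro t
    induction t with
    | zero => simp
    | succ t ih =>
      have h4 : P (t + 1) ≤ (1 + δ ^ 2 * c₂) * P t + (0 * P t + (0 * P t + δ ^ 3 * K₃)) := by
        refine Sn_le hs t (g := St (Wf H) δ (fun v => ml G v * pot (1 / (2 * ε)) v))
          (f1 := fun v => ml G v * pot (1 / (2 * ε)) v)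
          (f2 := fun v => ml G v * pot (1 / (2 * ε)) v)
          (f3 := fun v => ml G v * pot (1 / (2 * ε)) v) fun v hv => ?_
        have := stP v hv
        linarith
      have h5 : (1 : ℝ) ≤ 1 + δ ^ 2 * c₂ := by
        have : 0 ≤ δ ^ 2 * c₂ := by positivity
        linarith
      rw [pow_succ']
      push_cast
      exact geo_step h5 (one_le_pow₀ h5) (by positivity) ih (by linarith)
  have hP0 : P 0 = q * (4 * N * Real.exp (-(1 / (2 * ε)) / 2)) := by
    show ml G 0 * pot (1 / (2 * ε)) 0 = _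
    rw [← hqdef]
    congr 1
    unfold pot
    simp only [Pi.zero_apply, mul_zero, Real.cosh_zero, mul_one, sum_const, card_univ,
      nsmul_eq_mul, Fintype.card_sum]
    rw [hNdef]
    push_cast
    ring
  have hPT : P T ≤ q / 100 := by
    refine (hPpow T).trans ?_
    have h2 : (1 + δ ^ 2 * c₂) ^ T ≤ Ex := by
      have h3 : 1 + δ ^ 2 * c₂ ≤ Real.exp (δ ^ 2 * c₂) := by
        have := Real.add_one_le_exp (δ ^ 2 * c₂)
        linarith
      refine (pow_le_pow_left₀ (by positivity) h3 T).trans ?_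
      rw [← Real.exp_nat_mul]
      refine Real.exp_le_exp.2 ?_
      have h4 := mul_le_mul_of_nonneg_right (hTr T le_rfl) hc₂0
      linarith
    have hP00 : 0 ≤ P 0 := by rw [hP0]; positivity
    have h3 : (1 + δ ^ 2 * c₂) ^ T * (P 0 + T * (δ ^ 3 * K₃)) ≤ Ex * (P 0 + T * (δ ^ 3 * K₃)) :=
      mul_le_mul_of_nonneg_right h2 (by positivity)
    refine h3.trans ?_
    have h4 : Ex * (T * (δ ^ 3 * K₃)) ≤ 1 * (q / 1000) := by
      have h5 : Ex * (T * (δ ^ 3 * K₃)) = (T * δ ^ 2) * (δ * (Ex * K₃)) := by ring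
      rw [h5]
      exact mul_le_mul ((hTr T le_rfl).trans hε1) hτ3 (by positivity) zero_le_one
    have h5 : Ex * P 0 ≤ 3 / 400 * q := by
      have h6 : Ex ≤ Real.exp (1 / (8 * ε)) * (15 / 2) := by
        have h7 : Ex ≤ Real.exp (1 / (8 * ε) + 2) := Real.exp_le_exp.2 hεc₂
        rw [Real.exp_add] at h7
        exact h7.trans (mul_le_mul_of_nonneg_left hexp2 (Real.exp_pos _).le)
      have h7 : Real.exp (1 / (8 * ε)) * Real.exp (-(1 / (2 * ε)) / 2) =
          Real.exp (-(1 / (8 * ε))) := by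
        rw [← Real.exp_add]
        congr 1
        field_simp
        ring
      have h8 : Ex * P 0 ≤ Real.exp (1 / (8 * ε)) * (15 / 2) * P 0 :=
        mul_le_mul_of_nonneg_right h6 hP00
      refine h8.trans ?_
      have h9 : Real.exp (1 / (8 * ε)) * (15 / 2) * P 0 =
          3 / 400 * q * (4000 * N * (Real.exp (1 / (8 * ε)) * Real.exp (-(1 / (2 * ε)) / 2))) := by
        rw [hP0]; ring
      rw [h9, h7]
      have h10 := mul_le_mul_of_nonneg_left (hex.trans hη21) (by positivity : 0 ≤ 3 / 400 * q)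
      linarith
    linarith
  -- (c)
  set d : ℝ := κ * (107 / 100 * q) + δ ^ 3 * K₄ with hddef
  have hd0 : 0 ≤ d := by positivity
  have hM0 : M 0 = 0 := by
    show Ψ 0 0 = 0
    rw [hΨin 0 0 (fun i => by simp), ml_Fo]
    simp
  have hM : ∀ t : ℕ, t ≤ T → M t ≤ x ^ t * (0 + t * d) := by
    intro t
    induction t with
    | zero => intro _; rw [hM0]; simp
    | succ t ih =>
      intro ht
      have h2 := ih (by omega)
      have h3 : M (t + 1) ≤ x * M t + (κ * A t + (0 * A t + δ ^ 3 * K₄)) := by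
        refine Sn_le hs t (g := St (Wf H) δ (Ψ (t + 1))) (f1 := Ψ t) (f2 := ml G) (f3 := ml G)
          fun v hv => ?_
        exact stM t (by omega) v hv
      have h4 := (abs_le.1 (hA t (by omega))).2
      have h5 := hDT t (by omega)
      have h6 : A t ≤ 107 / 100 * q := by linarith
      have h7 := mul_le_mul_of_nonneg_left h6 hκ0
      rw [pow_succ']
      push_cast
      exact geo_step hx1 (one_le_pow₀ hx1) hd0 h2 (by linarith)
  have hMT : M T ≤ 176 / 10000 * (q * η ^ 2) := by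
    refine (hM T le_rfl).trans ?_
    have h2 : x ^ T ≤ 15 / 2 := by
      have h3 : x ≤ Real.exp (δ ^ 2 * (1 + 4 * γ * Λ)) := by
        have := Real.add_one_le_exp (δ ^ 2 * (1 + 4 * γ * Λ))
        linarith
      refine (pow_le_pow_left₀ (by linarith) h3 T).trans ?_
      rw [← Real.exp_nat_mul]
      refine (Real.exp_le_exp.2 ?_).trans hexp2
      have h4 : (T : ℝ) * (δ ^ 2 * (1 + 4 * γ * Λ)) = (T * δ ^ 2) * (1 + 4 * (γ * Λ)) := by ring
      rw [h4, hT]
      have h5 : ε * (1 + 4 * (γ * Λ)) ≤ 1 * (1 + 4 * (γ * Λ)) :=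
        mul_le_mul_of_nonneg_right hε1 (by positivity)
      linarith
    have h3 : (T : ℝ) * d ≤ 234 / 100000 * (q * η ^ 2) := by
      have h4 : (T : ℝ) * d = (T * δ ^ 2) * ((4 * Λ ^ 2 + 1) / N * (107 / 100 * q) + δ * K₄) := by
        rw [hddef, hκdef]; ring
      have h5 : (4 * Λ ^ 2 + 1) / N ≤ η ^ 2 / 800 := by
        rw [div_le_iff₀ (by linarith)]
        have h6 : 1 ≤ Λ ^ 2 := one_le_pow₀ hΛ
        linarith
      have h6 : (4 * Λ ^ 2 + 1) / N * (107 / 100 * q) ≤ η ^ 2 / 800 * (107 / 100 * q) :=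
        mul_le_mul_of_nonneg_right h5 (by positivity)
      rw [h4, hT]
      have h7 : ε * ((4 * Λ ^ 2 + 1) / N * (107 / 100 * q) + δ * K₄) ≤
          1 * ((4 * Λ ^ 2 + 1) / N * (107 / 100 * q) + δ * K₄) :=
        mul_le_mul_of_nonneg_right hε1 (by positivity)
      have h8 : 0 < q * η ^ 2 := by positivity
      linarith
    have h4 : x ^ T * (0 + T * d) ≤ 15 / 2 * (0 + T * d) :=
      mul_le_mul_of_nonneg_right h2 (by positivity)
    have h8 : 0 < q * η ^ 2 := by positivity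
    linarith
  -- (d)
  have hU := Sn_le hs T stG
  have hU' := Sn_le hs T stG'
  have hAT := abs_le.1 (hA T le_rfl)
  have hDT' := hDT T le_rfl
  have hU2 : A T ≤ 1 * Sn (Wf H) δ T (ml G') 0 + ((4 / η ^ 2) * M T + (1 * P T + 4 * e₀)) := hU
  have hU3 : Sn (Wf H) δ T (ml G') 0 ≤ 0 * A T + (0 * A T + (0 * A T + q / 2)) := hU'
  have h2 : (4 / η ^ 2) * M T ≤ 704 / 10000 * q := by
    have h3 := mul_le_mul_of_nonneg_left hMT (by positivity : 0 ≤ 4 / η ^ 2)
    have h4 : 4 / η ^ 2 * (176 / 10000 * (q * η ^ 2)) = 704 / 10000 * q := by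
      field_simp
      ring
    rwa [h4] at h3
  linarith [hAT.1]

end Pool.Agent.H9x.BF
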