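import Pool.Agent.H9x.BF.Stm3

/-!
# Piece DEPC of project BF (port of BE/DEPC.lean; helper70)
-/

set_option autoImplicit false
set_option linter.unusedVariables false

namespace Pool.Agent.H9x.BF

open Finset Filter H568R2 Pool.Agent.H676 Pool.Agent.NPC Pool.Agent.H620R2.Gauge
  Pool.Agent.H9x.Q Pool.Agent.H622R2 Pool.Agent.TH678.SETH Pool.Agent.TH678.RS
  Pool.Agent.H591R3.PHG

open Pool.Agent.H622R2.Exp hiding Dat

open Pool.Agent.TH678.ETH hiding th

open Pool.Agent.H9x.RT (ml lv lev UU mem_UU)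

open Pool.Agent.H9x.BE (th Dat ind Sy Ev Fd Av ow Kx Tv S_AVL S_AVI S_KX S_CARDU S_RUNDT S_CONJ
  xsN pla Nm fr Szs S_ALT2 S_SZ2)

open Classical in
theorem t_DEPC (hSMP : S_SMP) (hCARDU : S_CARDU) (hCONJ : S_CONJ) : S_DEPC := by
  intro I _ _ g S hK s pl D b hpl
  have hdt : ∀ c ∈ UU S 0 s, DTr (2 ^ s)
      (fun a : I → Bool => decide (Tv g (baseE S (Function.extend pl a D)) c)) := by
    intro c hc
    have hl : lev S c ≤ s := ((mem_UU hK.big).1 hc).2
    have h1 := RU.dtr_run (hSMP I (2 ^ lev S c) S pl D hpl) (g c.1) c.2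
      (2 ^ (g c.1).p.eval c.2.length) []
    have h2 : 2 ^ (g c.1).p.eval c.2.length ≤ 2 ^ s :=
      Nat.pow_le_pow_right (by norm_num) ((hK.rd c.1 c.2.length).trans hl)
    have h3 := h1.mono h2
    refine (congrArg (DTr (2 ^ s)) ?_).mp h3
    funext a
    have h4 := hK.cut c.1 c.2 (baseE S (Function.extend pl a D))
    have h5 : (g c.1).run (CC.cut (2 ^ lev S c) (baseE S (Function.extend pl a D))) c.2
        (2 ^ (g c.1).p.eval c.2.length) [] =
        (g c.1).run (baseE S (Function.extend pl a D)) c.2 (2 ^ (g c.1).p.eval c.2.length) [] := h4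
    refine decide_eq_decide.2 ?_
    rw [h5]
    exact Iff.rfl
  obtain ⟨F, hF, hFa⟩ := hCONJ I (ℕ × List Bool) (UU S 0 s) (2 ^ s)
    (fun c a => decide (Tv g (baseE S (Function.extend pl a D)) c)) b hdt
  refine ⟨F, hF.mono ?_, fun a => ?_⟩
  · calc (UU S 0 s).card * 2 ^ s ≤ 2 ^ (2 * s + 2) * 2 ^ s :=
          Nat.mul_le_mul_right _ (hCARDU S hK.big s)
      _ = 2 ^ (3 * s + 2) := by rw [← pow_add]; congr 1; ring
  · rw [hFa]
    constructor
    · intro h c hc
      have h1 := h c ((mem_UU hK.big).2 ⟨Nat.zero_le _, by omega⟩)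
      rw [Bool.eq_iff_iff, decide_eq_true_iff] at h1
      exact h1
    · intro h c hc
      have h1 := h c (by have := ((mem_UU hK.big).1 hc).2; omega)
      rw [Bool.eq_iff_iff, decide_eq_true_iff]
      exact h1

end Pool.Agent.H9x.BF
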