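import Pool.Agent.H9x.BF.Stm2
import Pool.Agent.H9x.V1.Low

/-!
# Project BF, piece EQX: exponential time in exact quantum polynomial time
-/

set_option autoImplicit false

namespace Pool.Agent.H9x.BF

open Finset H568R2 Pool.Agent.H676 Pool.Agent.NPC Pool.Agent.H620R2.Gauge
  Pool.Agent.H9x.Q Pool.Agent.H622R2 Pool.Agent.TH678.SETH Pool.Agent.TH678.RS

open Pool.Agent.H622R2.Exp hiding Dat

open Pool.Agent.TH678.ETH hiding th

open Pool.Agent.H9x.RT (lev)

open Pool.Agent.H9x.BE (Dat Kx Tv)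

open Pool.Agent.H9x.V1 (poly_rep poly_cS)

open Pool.Agent.K7x.EQ (Iu m2e va Ig KK mkv IsEQP isEQP_of Cn Am fo m1 m2 enc_rp)

theorem uu_eq (s : ℕ) : uu s = 8 * (s + 8) ^ 2 := rfl

attribute [local irreducible] uu

theorem len2 (a b : Bool) (n : ℕ) (l : List Bool) (h : l.length = n) :
    (a :: b :: l).length = 2 + n := by
  rw [List.length_cons, List.length_cons, h]
  omega

theorem adr_eq (S : ℕ → Polynomial ℕ) (e : ℕ) (x w : List Bool) :
    (false :: true :: cS e ((S e).eval x.length) []) ++ (x ++ w) = adr S (e, x) w := by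
  simp [adr, cS, pr, lev]

theorem t_EQX : S_EQX := by
  intro g S A D b hg hK hblk hzer htr hbl L hL
  obtain ⟨M, hM⟩ := hL
  obtain ⟨e, he⟩ := hg M
  have hTv : ∀ x : List Bool, x ∈ L ↔ b (e, x) = true := by
    intro x
    obtain ⟨z, hz, hLz⟩ := hM x
    rw [← htr (e, x)]
    unfold Tv
    simp only
    rw [he, hz, hLz]
    simp
  have hlen : UPoly (fun u : List Bool => u.length) := UPoly.length Poly.id
  have hSe : UPoly (fun u : List Bool => (S e).eval u.length) := hlen.eval (S e)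
  obtain ⟨U, hU⟩ : ∃ U : Polynomial ℕ, ∀ n, U.eval n = uu ((S e).eval n) :=
    ⟨Polynomial.C 8 * (S e + Polynomial.C 8) ^ 2, fun n => by
      rw [uu_eq]
      simp only [Polynomial.eval_mul, Polynomial.eval_C, Polynomial.eval_pow, Polynomial.eval_add]⟩
  obtain ⟨Pj, hPj⟩ : ∃ P : Polynomial ℕ, ∀ n, P.eval n = 8 * uu ((S e).eval n) :=
    ⟨Polynomial.C 8 * U, fun n => by rw [Polynomial.eval_mul, Polynomial.eval_C, hU]⟩
  obtain ⟨Pm, hPm⟩ : ∃ P : Polynomial ℕ, ∀ n, P.eval n = m2e (uu ((S e).eval n)) :=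
    ⟨Polynomial.C 24 * U * (Polynomial.C 1024 * U + Polynomial.C 1) + Polynomial.C 4, fun n => by
      unfold m2e
      simp only [Polynomial.eval_mul, Polynomial.eval_C, Polynomial.eval_add, hU]⟩
  obtain ⟨Pk, hPk⟩ : ∃ P : Polynomial ℕ, ∀ n, P.eval n = 512 * uu ((S e).eval n) :=
    ⟨Polynomial.C 512 * U, fun n => by rw [Polynomial.eval_mul, Polynomial.eval_C, hU]⟩
  refine isEQP_of (fun u => false :: true :: cS e ((S e).eval u.length) [])
    (fun _ => [false, false, true]) Pj Pj Pm Pk ?_ (NPC.Poly.const _)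
    (fun u v huv => by simp only [huv]) (fun _ _ _ => rfl) (fun x u => ?_) fun x => ?_
  · exact Poly.cons (NPC.Poly.const _) (Poly.cons (NPC.Poly.const _)
      (poly_cS e hSe (NPC.Poly.const [])))
  · have h1 : [false, false, true] ++ List.ofFn u = false :: false :: true :: List.ofFn u := rfl
    rw [h1, hzer]
    constructor
    · intro h2
      funext t
      exact h2 _ (List.mem_ofFn.2 ⟨t, rfl⟩)
    · rintro rfl b hb
      obtain ⟨t, rfl⟩ := List.mem_ofFn.1 hb
      rfl
  · have key : ∀ v : ℝ, va (uu ((S e).eval x.length)) (fun i => D (pos S (e, x) i)) = v →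
        ∃ z : Ig (Pj.eval x.length * 2) (Pj.eval x.length) (Pm.eval x.length) → Bool,
        (∀ a b' (u : Fin (KK (Pj.eval x.length * 2) (Pj.eval x.length)
          (Pm.eval x.length)) → Bool),
          A ((false :: true :: cS e ((S e).eval x.length) []) ++ (x ++ (a :: b' :: List.ofFn u))) =
            Cn z a b' (u ∘ Pool.Agent.K7x.EQ.pos _ _ _)) ∧
        Am (Pk.eval x.length) ((fo z + m1 z) / 2) + m2 z = v := by
      intro v hv
      rw [hPj, hPm, hPk]
      refine ⟨fun i => D (pos S (e, x) i), fun a b' u => ?_, hv⟩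
      rw [adr_eq, hblk (e, x) (a :: b' :: List.ofFn u) (len2 a b' _ _ List.length_ofFn)]
      exact enc_rp _ _ a b' u
    have hb := hbl (e, x)
    by_cases hx : x ∈ L
    · obtain ⟨z, h1, h2⟩ := key 1 (hb.1 ((hTv x).1 hx))
      exact ⟨z, h1, fun _ => h2, fun h3 => absurd hx h3⟩
    · have h4 : b (e, x) = false := by
        cases hbx : b (e, x)
        · rfl
        · exact absurd ((hTv x).2 hbx) hx
      obtain ⟨z, h1, h2⟩ := key 0 (hb.2 h4)
      exact ⟨z, h1, fun h3 => absurd h3 hx, fun _ => h2⟩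

end Pool.Agent.H9x.BF
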