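import Pool.Agent.H9x.BF.Stm3

/-! Project BF (helper9), part 3, piece FDR (helper67): the requirement depends on finitely many bits. -/

set_option autoImplicit false
set_option linter.unusedSectionVars false
set_option linter.unusedVariables false

namespace Pool.Agent.H9x.BF

open Finset Filter H568R2 Pool.Agent.H676 Pool.Agent.NPC Pool.Agent.H620R2.Gauge
  Pool.Agent.H9x.Q Pool.Agent.H622R2 Pool.Agent.TH678.SETH Pool.Agent.TH678.RS
  Pool.Agent.H591R3.PHG

open Pool.Agent.H622R2.Exp hiding Dat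

open Pool.Agent.TH678.ETH hiding th

open Pool.Agent.H9x.RT (ml lv lev UU)

open Pool.Agent.H9x.BE (th Dat ind Sy Ev Fd Av ow Kx Tv S_AVL S_AVI S_KX S_CARDU S_RUNDT S_CONJ
  xsN pla Nm fr Szs S_ALT2 S_SZ2)

theorem FDR.baseE_congr (hBSE : S_BSE) (S : ℕ → Polynomial ℕ) {D D' : Dat} {N : ℕ}
    (hD : ∀ q : List Bool, q.length ≤ N → D q = D' q) (q : List Bool) (hq : q.length ≤ N) :
    baseE S D q = baseE S D' q := by
  rcases hBSE.cls S q with ⟨p, hp, h⟩ | ⟨v, h⟩
  · rw [h D, h D']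
    exact hD p (hp.trans hq)
  · rw [h D, h D']

theorem t_FDR (hBSE : S_BSE) : S_FDR := by
  intro S M k n u T Pm Λ m₀ as hN
  refine ⟨T + m₀ + as.sum + 8 * n + 1, fun D D' hD => ?_⟩
  have hP : ∀ P ≤ Pm, (RU.Rt k P M (xsN n u as) (baseE S D) ↔
      RU.Rt k P M (xsN n u as) (baseE S D')) := by
    intro P hP
    refine RU.rt_congr (T := T) (Λ := Λ) (M := M) (w := 8 * n) hN.sz.1
      (fun j : Fin (2 ^ (u + 11)) => bitsOf (u + 11) j) (fun j => ?_) hN.cut (m₀ := m₀)
      (fun j => hN.len j) (fun q hq => FDR.baseE_congr hBSE S hD q hq)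
    have h1 : (enc as (8 * n) (bitsOf (u + 11) j)).length = m₀ := hN.len j
    have h2 := hN.hΛ
    rw [length_pairBits, List.length_replicate, h1]
    have h3 : (k + 1) * (2 * P + 1) ≤ (k + 1) * (2 * Pm + 1) :=
      Nat.mul_le_mul_left _ (by omega)
    have h4 : (k + 1) * (2 * P + 1) = k * (2 * P + 1) + (2 * P + 1) := by ring
    omega
  constructor
  · intro h P hp h1
    exact h P hp ((hP P hp).2 h1)
  · intro h P hp h1
    exact h P hp ((hP P hp).1 h1)

end Pool.Agent.H9x.BF
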