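import Pool.Agent.H9x.BF.Stm2

/-!
# Project BF, piece FIX: one block is fixed
-/

set_option autoImplicit false
set_option linter.unusedSectionVars false
set_option linter.unusedVariables false
set_option linter.constructorNameAsVariable false

namespace Pool.Agent.H9x.BF

open Finset H568R2 Pool.Agent.H676 Pool.Agent.NPC Pool.Agent.H620R2.Gauge
  Pool.Agent.H9x.Q Pool.Agent.H622R2 Pool.Agent.TH678.SETH Pool.Agent.TH678.RS

open Pool.Agent.H9x.RT (ml lv HZ lev UU hs Adm isP_of_isPH)

open Pool.Agent.H9x.BE (th Dat ind Sy Ev Fd Av ow Kx Tv Jn cN contN Kh S_AVL S_AVI)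

open Pool.Agent.K7x.EQ (Iu m2e va Ig KK mkv IsEQP)

theorem t_FIX (hAVL : S_AVL) (hAVI : S_AVI) (hHITE : S_HITE) (hPL : S_PL) (hNUMS : S_NUMS) :
    S_FIX := by
  classical
  intro Y s R hT c hc b V hV D μ hμ1 hμ
  subst hc
  obtain ⟨t, p, β, ht, hp, hp1, hβ, h64, hβ2, hTT⟩ := hT
  have hinj := hPL.inj Y.S c
  obtain ⟨E, hE⟩ : ∃ E : Dat → Prop, E = Ev Y b (lev Y.S c + 1) R := ⟨_, rfl⟩
  rw [← hE] at hμ ⊢
  have hdisj : Disjoint (univ.image (pos Y.S c)) V := by
    rw [Finset.disjoint_left]
    intro q hq hqV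
    rw [mem_image] at hq
    obtain ⟨i, hi⟩ := hq
    have hi2 := hi.2
    rw [← hi2] at hqV
    exact hV i hqV
  let F : (Co Y.S c → Bool) → ℝ := fun a => Av V (ind E) (Function.extend (pos Y.S c) a D)
  have hF0 : ml F 0 = Av (univ.image (pos Y.S c) ∪ V) (ind E) D := by
    rw [hAVL.union _ _ _ _ _ hdisj]
    exact (hAVI _ _ (pos Y.S c) (fun D' => Av V (ind E) D') D hinj).symm
  let f : Finset (List Bool) → (Co Y.S c → Bool) → Bool := fun T z =>
    decide (E (Pool.Agent.H9x.BE.ow V T (Function.extend (pos Y.S c) z D)))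
  have hbr : ∀ T z, br (f T) z = ind E (Pool.Agent.H9x.BE.ow V T (Function.extend (pos Y.S c) z D)) := by
    intro T z
    unfold br ind
    simp only [f, decide_eq_true_eq]
  have hsum : ∀ z, ∑ T ∈ V.powerset, (1 / 2 ^ V.card : ℝ) * br (f T) z = F z := by
    intro z
    show _ = Av V (ind E) (Function.extend (pos Y.S c) z D)
    unfold Av
    rw [sum_div]
    refine sum_congr rfl fun T _ => ?_
    rw [hbr]
    ring
  have hml : ∑ T ∈ V.powerset, (1 / 2 ^ V.card : ℝ) * ml (br (f T)) 0 = ml F 0 := by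
    have h1 : F = fun z => ∑ T ∈ V.powerset, (1 / 2 ^ V.card : ℝ) * br (f T) z :=
      funext fun z => (hsum z).symm
    rw [h1, Pool.Agent.H9x.RT.ml_sum]
    exact sum_congr rfl fun T _ => (Pool.Agent.H9x.RT.ml_smul _ _ _).symm
  have hu1 : 1 ≤ uu (lev Y.S c) := by
    unfold uu
    have : 1 ≤ (lev Y.S c + 8) ^ 2 := Nat.one_le_pow _ _ (by omega)
    omega
  obtain ⟨z, hz1, hz2⟩ := hHITE (uu (lev Y.S c)) t p β μ (Finset (List Bool)) V.powerset
    (fun _ => 1 / 2 ^ V.card) f hu1 ht hp hp1 hβ h64 (hβ2.trans hμ1)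
    ((hNUMS.two _).trans hμ1) (fun _ _ => by positivity)
    (by
      rw [sum_const, card_powerset, nsmul_eq_mul]
      push_cast
      field_simp)
    (by
      intro T _ J _ _ σ z₀ hσ ρ₀
      refine hTT c rfl J σ hσ b (Function.extend (pos Y.S c) z₀ (Pool.Agent.H9x.BE.ow V T D)) _ ?_ ρ₀
      intro a
      have e : Pool.Agent.H9x.BE.ow V T (Function.extend (pos Y.S c) (Function.extend σ a z₀) D) =
          Function.extend (fun i => pos Y.S c (σ i)) a
            (Function.extend (pos Y.S c) z₀ (Pool.Agent.H9x.BE.ow V T D)) := by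
        funext q
        by_cases hq : ∃ i, pos Y.S c i = q
        · obtain ⟨i, rfl⟩ := hq
          have e1 : Pool.Agent.H9x.BE.ow V T (Function.extend (pos Y.S c) (Function.extend σ a z₀) D)
              (pos Y.S c i) = Function.extend σ a z₀ i := by
            unfold Pool.Agent.H9x.BE.ow
            rw [if_neg (hV i), hinj.extend_apply]
          rw [e1]
          by_cases hi : ∃ j, σ j = i
          · obtain ⟨j, rfl⟩ := hi
            rw [hσ.extend_apply]
            exact ((hinj.comp hσ).extend_apply a _ j).symm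
          · rw [Function.extend_apply' _ _ _ hi, Function.extend_apply', hinj.extend_apply]
            rintro ⟨j, hj⟩
            exact hi ⟨j, hinj hj⟩
        · have e1 : Pool.Agent.H9x.BE.ow V T (Function.extend (pos Y.S c) (Function.extend σ a z₀) D) q =
              Pool.Agent.H9x.BE.ow V T D q := by
            unfold Pool.Agent.H9x.BE.ow
            rw [Function.extend_apply' _ _ _ hq]
          rw [e1, Function.extend_apply' _ _ _ (by rintro ⟨j, hj⟩; exact hq ⟨σ j, hj⟩),
            Function.extend_apply' _ _ _ hq]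
      rw [← e, ← hE]
      exact decide_eq_true_iff)
    (by rw [hml, hF0]; exact hμ) (b c)
  rw [hsum] at hz2
  have hval : (fun i => Function.extend (pos Y.S c) z D (pos Y.S c i)) = z := by
    funext i
    exact hinj.extend_apply _ _ _
  refine ⟨Function.extend (pos Y.S c) z D, ?_, ?_, ?_, hz2⟩
  · intro q hq
    exact Function.extend_apply' _ _ _ (by rintro ⟨i, hi⟩; exact hq i hi.symm)
  · intro hb
    unfold YesD
    rw [hval, hz1, hb, if_pos rfl]
  · intro hb
    unfold NoD
    rw [hval, hz1, hb]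
    simp

end Pool.Agent.H9x.BF
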