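import Pool.Agent.H9x.BF.Stm2

set_option autoImplicit false
set_option linter.unusedSectionVars false
set_option linter.unusedVariables false
set_option linter.constructorNameAsVariable false

namespace Pool.Agent.H9x.BF

open Finset H568R2 Pool.Agent.H676 Pool.Agent.NPC Pool.Agent.H620R2.Gauge
  Pool.Agent.H9x.Q Pool.Agent.H622R2 Pool.Agent.TH678.SETH Pool.Agent.TH678.RS

open Pool.Agent.H9x.RT (ml lv HZ lev UU hs Adm isP_of_isPH)

open Pool.Agent.H9x.BE (th Dat ind Sy Ev Fd Av ow Kx Tv Jn cN contN Kh S_AVL S_AVI)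

open Pool.Agent.K7x.EQ (Iu m2e va Ig KK mkv IsEQP)

theorem FIXL_congr {S : ℕ → Polynomial ℕ} {D D' : Dat} {c : ℕ × List Bool}
    (h : ∀ i, D' (pos S c i) = D (pos S c i)) :
    (YesD S D' c ↔ YesD S D c) ∧ (NoD S D' c ↔ NoD S D c) := by
  have : (fun i => D' (pos S c i)) = fun i => D (pos S c i) := funext h
  unfold YesD NoD
  rw [this]
  exact ⟨Iff.rfl, Iff.rfl⟩

theorem t_FIXL (hAVL : S_AVL) (hPL : S_PL) (hFIX : S_FIX) : S_FIXL := by
  intro Y s R hT C
  have hth : 0 < th (s + 1) := by unfold th; positivity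
  induction C using Finset.induction_on with
  | empty =>
    intro _ b V _ D μ h1 h2
    refine ⟨D, fun q _ => rfl, by simp, ?_⟩
    simpa using h2
  | @insert c C hc ih =>
    intro hC b V hV D μ h1 h2
    have hcs : lev Y.S c = s := hC c (mem_insert_self _ _)
    rw [biUnion_insert, union_assoc] at h2
    have hnot : ∀ i, pos Y.S c i ∉ (C.biUnion fun c => univ.image (pos Y.S c)) ∪ V := by
      intro i hi
      rcases mem_union.1 hi with h | h
      · obtain ⟨c', hc', h'⟩ := mem_biUnion.1 h
        rw [mem_image] at h'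
        obtain ⟨j, hj'⟩ := h'
        have hj := hj'.2
        have := hPL.disj Y.S c' c j i hj
        subst this
        exact hc hc'
      · exact hV c (mem_insert_self _ _) i h
    have hμ0 : 0 ≤ μ := by
      by_contra hneg
      rw [not_le] at hneg
      have h3 : μ / (16 : ℝ) ^ (insert c C).card < 0 := div_neg_of_neg_of_pos hneg (by positivity)
      linarith
    have hμ1 : th (s + 1) ≤ μ := by
      refine h1.trans (div_le_self hμ0 ?_)
      exact one_le_pow₀ (by norm_num)
    obtain ⟨D1, hD1, hy1, hn1, hm1⟩ := hFIX Y s R hT c hcs b _ hnot D μ hμ1 h2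
    have hcard : μ / (16 : ℝ) / (16 : ℝ) ^ C.card = μ / (16 : ℝ) ^ (insert c C).card := by
      rw [card_insert_of_notMem hc, div_div, pow_succ']
    obtain ⟨D2, hD2, hyn2, hm2⟩ := ih (fun c' h => hC c' (mem_insert_of_mem h)) b V
      (fun c' h => hV c' (mem_insert_of_mem h)) D1 (μ / (16 : ℝ)) (by rw [hcard]; exact h1) hm1
    refine ⟨D2, ?_, ?_, ?_⟩
    · intro q hq
      rw [hD2 q fun c' h i => hq c' (mem_insert_of_mem h) i,
        hD1 q fun i => hq c (mem_insert_self _ _) i]
    · intro c' hc'
      rcases mem_insert.1 hc' with rfl | h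
      · have hsame : ∀ i, D2 (pos Y.S c' i) = D1 (pos Y.S c' i) := by
          intro i
          refine hD2 _ fun c'' h'' j hj => ?_
          have := hPL.disj Y.S c' c'' i j hj
          subst this
          exact hc h''
        rw [(FIXL_congr hsame).1, (FIXL_congr hsame).2]
        exact ⟨hy1, hn1⟩
      · exact hyn2 c' h
    · rw [← hcard]
      exact hm2

end Pool.Agent.H9x.BF
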