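import Pool.Agent.H9x.BF.Stm3
import Pool.Agent.H9x.BE.FREE

/-!
# Project BF, piece FREE: random free strings
-/

set_option autoImplicit false

namespace Pool.Agent.H9x.BF

open Finset Filter H568R2 Pool.Agent.H676 Pool.Agent.NPC Pool.Agent.H620R2.Gauge
  Pool.Agent.H9x.Q Pool.Agent.H622R2 Pool.Agent.TH678.SETH Pool.Agent.TH678.RS
  Pool.Agent.H591R3.PHG

open Pool.Agent.H622R2.Exp hiding Dat

open Pool.Agent.TH678.ETH hiding th

open Pool.Agent.H9x.RT hiding Dat

open Pool.Agent.H9x.BE (th Dat ind Sy Ev Fd Av ow Kx Tv S_AVL S_AVI S_KX S_CARDU S_RUNDT S_CONJ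
  xsN pla Nm fr Szs S_ALT2 S_SZ2)

namespace FREEx

/-- strings that begin with `true` are free -/
theorem base_tt (S : ℕ → Polynomial ℕ) (D : Dat) (v : List Bool) :
    baseE S D (true :: v) = D (true :: v) := by
  have h : ¬ ∃ (c : ℕ × List Bool) (w : List Bool), w.length = La (lev S c) ∧
      true :: v = adr S c w := by
    rintro ⟨c, w, -, h⟩
    exact Bool.noConfusion (List.cons.inj h).1
  unfold baseE
  rw [dif_neg h]

theorem fo_val {S : ℕ → Polynomial ℕ} {n u m₀ : ℕ} {as : List ℕ}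
    (hm : ∀ j, (xsN n u as j).length = m₀) (D : Dat)
    (y : Idx (Fin (2 ^ (u + 11))) (8 * n :: pw as) → Bool)
    (a : Idx (Fin (2 ^ (u + 11))) (8 * n :: pw as)) :
    RU.fo (baseE S (Function.extend (pla n u as) y D)) (RU.la (xsN n u as) as (8 * n) a) =
      y a := by
  have h : RU.fo (baseE S (Function.extend (pla n u as) y D))
      (RU.la (xsN n u as) as (8 * n) a) =
        Function.extend (pla n u as) y D (pla n u as a) := base_tt _ _ _
  rw [h]
  exact (Pool.Agent.H9x.BE.FREEx.pla_inj hm).extend_apply _ _ _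

end FREEx

open FREEx in
theorem t_FREE (hAVI : S_AVI) (hSMP : S_SMP) : S_FREE := by
  classical
  intro S M k n u T Pm Λ m₀ as hN P hP D
  have hpi := Pool.Agent.H9x.BE.FREEx.pla_inj hN.len
  obtain ⟨h1, h2, h3⟩ := hN.sz
  have hlen : (pw as).length = k + 1 := by
    rw [pw, List.length_map]; exact h1
  set G : (Idx (Fin (2 ^ (u + 11))) (8 * n :: pw as) → Bool) → Oracle :=
    fun y => baseE S (Function.extend (pla n u as) y D) with hG
  have hsmp : RU.Smp T G := hSMP _ T S (pla n u as) D hpi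
  have hℓ : ∀ j : Fin (2 ^ (u + 11)), (pairBits (List.replicate P true) (enc as (8 * n)
      (bitsOf (u + 11) j))).length ≤ 2 * P + 1 + m₀ := by
    intro j
    have := hN.len j
    unfold xsN at this
    rw [length_pairBits, List.length_replicate, this]
  have hmul : (k + 1) * (2 * P + 1) ≤ (k + 1) * (2 * Pm + 1) :=
    Nat.mul_le_mul_left _ (by omega)
  have hexp : (k + 1) * (2 * P + 1) = k * (2 * P + 1) + (2 * P + 1) := by ring
  have hΛ := hN.hΛ
  have hle : 2 * P + 1 + m₀ + k * (2 * P + 1) ≤ Λ := by omega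
  have h17 := hN.h17
  have hml := main_leaf (X := Fin (2 ^ (u + 11))) (n := n) (u := u) (D := 2 ^ (3 * u + 11))
    (g := 2 ^ (u + 9)) hN.hn hN.hu (by
      rw [Fintype.card_fin, ← pow_add]
      exact Nat.pow_le_pow_right (by norm_num) (by omega)) k (pw as) hlen P (2 * P + 1 + m₀)
    (RU.lf M T G) (fun y hy => RU.dtr_lf hsmp M y
      ((hN.hp y (by omega)).trans (by omega : T ≤ 2 ^ (2 * u))))
    (fun j : Fin (2 ^ (u + 11)) => pairBits (List.replicate P true) (enc as (8 * n)
      (bitsOf (u + 11) j))) hℓ true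
  have h6 := final_numbers hN.hn hN.hu
  have h10 : (k : ℝ) * (2 ^ (2 * P + 1 + m₀ + k * (2 * P + 1) + 2) *
      (1 / 2) ^ (2 ^ (2 * u) + 1)) ≤ k * (2 ^ (Λ + 2) * (1 / 2) ^ (2 ^ (2 * u) + 1)) := by
    have : (2 : ℝ) ^ (2 * P + 1 + m₀ + k * (2 * P + 1) + 2) ≤ 2 ^ (Λ + 2) :=
      pow_le_pow_right₀ (by norm_num) (by omega)
    gcongr
  rw [hAVI _ _ (pla n u as) _ D hpi, RT.ml_zero]
  unfold fr
  refine le_trans (le_of_eq ?_) (hml.trans (by linarith))
  unfold Ms Ex
  rw [sum_div]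
  refine sum_congr rfl fun y _ => ?_
  have hber : (∏ i : Idx (Fin (2 ^ (u + 11))) (8 * n :: pw as), ber (1 / 2) (y i)) =
      1 / 2 ^ Fintype.card (Idx (Fin (2 ^ (u + 11))) (8 * n :: pw as)) := by
    rw [← one_div_pow, ← card_univ, ← prod_const]
    refine prod_congr rfl fun i _ => ?_
    cases y i <;> simp [ber] <;> norm_num
  rw [hber, div_eq_mul_one_div, mul_comm]
  congr 1
  have h7 : RU.Rt k P M (xsN n u as) (G y) ↔
      ∀ j : Fin (2 ^ (u + 11)), QF P (RU.lf M T G) k true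
        (pairBits (List.replicate P true) (enc as (8 * n) (bitsOf (u + 11) j))) y ≠
        Tr (8 * n :: pw as) (leaves (fun j : Fin (2 ^ (u + 11)) => enc as (8 * n)
          (bitsOf (u + 11) j)) as (8 * n) (RU.fo (G y))) j :=
    RU.rt_iff (T := T) (Λ := Λ) (M := M) h1 (fun j : Fin (2 ^ (u + 11)) => bitsOf (u + 11) j)
      (fun j => (Nat.add_le_add_right (hℓ j) _).trans hle) hN.cut G y
  have h8 : leaves (fun j : Fin (2 ^ (u + 11)) => enc as (8 * n) (bitsOf (u + 11) j)) as (8 * n)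
      (RU.fo (G y)) = val (fun _ => none) y := by
    funext g'
    exact fo_val hN.len D y g'
  rw [h8] at h7
  unfold ind
  by_cases h9 : RU.Rt k P M (xsN n u as) (G y)
  · have h9' : RU.Rt k P M (xsN n u as) (baseE S (Function.extend (pla n u as) y D)) := h9
    rw [if_pos h9']
    exact (if_pos (h7.1 h9)).symm
  · have h9' : ¬ RU.Rt k P M (xsN n u as) (baseE S (Function.extend (pla n u as) y D)) := h9
    rw [if_neg h9']
    exact (if_neg fun h => h9 (h7.2 h)).symm

end Pool.Agent.H9x.BF
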