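import Pool.Agent.H9x.BF.Stm1
import Pool.Agent.H9x.BE.DTREL

/-!
# Project BF, piece HITE: exact blocks meet every hidden event
-/

set_option autoImplicit false
set_option linter.unusedSectionVars false
set_option linter.unusedVariables false

namespace Pool.Agent.H9x.BF

open Finset H568R2 Pool.Agent.H676 Pool.Agent.H9x.RT Pool.Agent.H9x.BE

open Pool.Agent.K7x.EQ (sgi ssum TS fsum Iu m2e va Ig sum_fun_sum ml_unif)

namespace HITE

theorem ml0_sum {I ι : Type} [Fintype I] [DecidableEq I] (s : Finset ι) (w : ι → ℝ)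
    (F : ι → (I → Bool) → ℝ) :
    ml (fun a => ∑ i ∈ s, w i * F i a) 0 = ∑ i ∈ s, w i * ml (F i) 0 := by
  simp only [ml_zero]
  rw [sum_comm, sum_div]
  refine sum_congr rfl fun i _ => ?_
  rw [← mul_sum, mul_div_assoc]

theorem ml0_elim {α β : Type} [Fintype α] [DecidableEq α] [Fintype β] [DecidableEq β]
    (F : (α ⊕ β → Bool) → ℝ) :
    ml F 0 = ml (fun a => ml (fun b => F (Sum.elim a b)) 0) 0 := by
  simp only [ml_zero]
  rw [sum_fun_sum, Fintype.card_sum, pow_add, ← sum_div, div_div, mul_comm]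

theorem ml0_comm {α β : Type} [Fintype α] [DecidableEq α] [Fintype β] [DecidableEq β]
    (F : (α → Bool) → (β → Bool) → ℝ) :
    ml (fun a => ml (fun b => F a b) 0) 0 = ml (fun b => ml (fun a => F a b) 0) 0 := by
  simp only [ml_zero]
  rw [← sum_div, ← sum_div, sum_comm, div_div, div_div, mul_comm]

theorem avg_prod {ι C : Type} [Fintype C] [DecidableEq C] (s : Finset ι) (w : ι → ℝ)
    (F : ι → (C → Bool) → ℝ) :
    ∑ j ∈ s ×ˢ (univ : Finset (C → Bool)), (w j.1 * (1 / 2 ^ Fintype.card C)) * F j.1 j.2 =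
      ∑ i ∈ s, w i * ml (F i) 0 := by
  rw [sum_product]
  refine sum_congr rfl fun i _ => ?_
  rw [ml_unif, mul_sum]
  exact sum_congr rfl fun c _ => by ring

theorem avg_one {ι C : Type} [Fintype C] [DecidableEq C] (s : Finset ι) (w : ι → ℝ)
    (h : ∑ i ∈ s, w i = 1) :
    ∑ j ∈ s ×ˢ (univ : Finset (C → Bool)), (w j.1 * (1 / 2 ^ Fintype.card C)) = 1 := by
  have h1 := avg_prod (C := C) s w (fun _ _ => 1)
  simp only [mul_one, ml_const] at h1
  rw [h1, h]

theorem rs_none {I : Type} (f : (I → Bool) → Bool) : rs f (fun _ => none) = f := by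
  funext x
  rfl

/-- the numbers -/
theorem exp_num {u : ℕ} (hu : 1 ≤ u) {ε : ℝ} (hε : 0 < ε)
    (h : ε ≤ 1 / (16 * ((8 * u * 2 : ℕ) : ℝ))) :
    4000 * (2 : ℝ) ^ (8 * u * 2) * Real.exp (-(1 / (8 * ε))) ≤ (1 / 2 ^ (4 * u)) ^ 2 := by
  have huR : (1 : ℝ) ≤ u := by exact_mod_cast hu
  have h1 : (u : ℝ) * 32 ≤ 1 / (8 * ε) := by
    rw [le_div_iff₀ (by positivity)]
    rw [le_div_iff₀ (by positivity)] at h
    push_cast at h
    nlinarith
  have h2 : Real.exp (-(1 / (8 * ε))) ≤ Real.exp (-((u : ℝ) * 32)) :=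
    Real.exp_le_exp.2 (by linarith)
  have h3 : Real.exp (-((u : ℝ) * 32)) = (Real.exp 32 ^ u)⁻¹ := by
    rw [Real.exp_neg, Real.exp_nat_mul]
  have h4 : (4000 * 2 ^ 24 : ℝ) ≤ Real.exp 32 := by
    have h5 : Real.exp 32 = Real.exp 1 ^ 32 := by
      rw [← Real.exp_nat_mul]
      norm_num
    rw [h5]
    have h6 : (2.7 : ℝ) ≤ Real.exp 1 := by
      have := Real.exp_one_gt_d9
      linarith
    refine le_trans ?_ (pow_le_pow_left₀ (by norm_num) h6 32)
    norm_num
  have h5 : (4000 * 2 ^ (24 * u) : ℝ) ≤ Real.exp 32 ^ u := by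
    calc (4000 * 2 ^ (24 * u) : ℝ) ≤ 4000 ^ u * 2 ^ (24 * u) := by
          refine mul_le_mul_of_nonneg_right ?_ (by positivity)
          exact le_self_pow₀ (by norm_num) (by omega)
      _ = (4000 * 2 ^ 24) ^ u := by rw [mul_pow, ← pow_mul]
      _ ≤ Real.exp 32 ^ u := pow_le_pow_left₀ (by positivity) h4 u
  have h6 : (0 : ℝ) < Real.exp 32 ^ u := by positivity
  refine (mul_le_mul_of_nonneg_left h2 (by positivity)).trans ?_
  rw [h3, ← div_eq_mul_inv, div_pow, one_pow, ← pow_mul, div_le_div_iff₀ h6 (by positivity),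
    one_mul]
  refine le_trans (le_of_eq ?_) h5
  rw [mul_assoc, ← pow_add]
  congr 2
  ring

end HITE

open HITE

open Classical in
theorem t_HITE (hCORE2 : S_CORE2) (hMASKR : S_MASKR) (hVALN : S_VALN) : S_HITE := by
  intro u t p β q ι sι w f hu ht hp hp1 hβ htp hβq hexq hw hw1 htame hq v
  have huR : (1 : ℝ) ≤ u := by exact_mod_cast hu
  have htR : (1 : ℝ) ≤ t := by exact_mod_cast ht
  -- the types
  set A : Type := (Fin (8 * u * 2) → Bool) ⊕ (Fin (8 * u * 2) → Bool) with hA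
  set B : Type := (Fin (8 * u * 2) → Bool) × (Fin (8 * u) → Bool) with hB
  set C : Type := Fin (m2e u) → Bool with hC
  have hcB : Fintype.card B = 2 ^ (4 * (6 * u)) := by
    simp only [B, Fintype.card_prod, Fintype.card_fun, Fintype.card_bool, Fintype.card_fin]
    rw [← pow_add]
    congr 1
    ring
  have hcC : Fintype.card C = 2 ^ (4 * (6 * u * (1024 * u + 1) + 1)) := by
    simp only [C, Fintype.card_fun, Fintype.card_bool, Fintype.card_fin]
    congr 1
    unfold m2e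
    ring
  have hcA : (Fintype.card A : ℝ) = 2 * 2 ^ (8 * u * 2) := by
    simp only [A, Fintype.card_sum, Fintype.card_fun, Fintype.card_bool, Fintype.card_fin]
    push_cast
    ring
  have hcX : (Fintype.card (Fin (8 * u * 2) → Bool) : ℝ) = 2 ^ (8 * u * 2) := by simp
  -- the weights and the functions
  set w₂ : ι × (C → Bool) → ℝ := fun k => w k.1 * (1 / 2 ^ Fintype.card C) with hw₂
  set s₂ : Finset (ι × (C → Bool)) := sι ×ˢ univ with hs₂
  set w₁ : (ι × (C → Bool)) × (B → Bool) → ℝ := fun j => w₂ j.1 * (1 / 2 ^ Fintype.card B) with hw₁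
  set s₁ : Finset ((ι × (C → Bool)) × (B → Bool)) := s₂ ×ˢ univ with hs₁
  have hw₂0 : ∀ k ∈ s₂, 0 ≤ w₂ k := by
    intro k hk
    have := hw k.1 (mem_product.1 hk).1
    show 0 ≤ w k.1 * (1 / 2 ^ Fintype.card C)
    positivity
  have hw₁0 : ∀ j ∈ s₁, 0 ≤ w₁ j := by
    intro j hj
    have := hw₂0 j.1 (mem_product.1 hj).1
    show 0 ≤ w₂ j.1 * (1 / 2 ^ Fintype.card B)
    positivity
  have hw₂1 : ∑ k ∈ s₂, w₂ k = 1 := avg_one sι w hw1
  have hw₁1 : ∑ j ∈ s₁, w₁ j = 1 := avg_one s₂ w₂ hw₂1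
  let f₂ : (A → Bool) → ι × (C → Bool) → (B → Bool) → Bool :=
    fun a k b => f k.1 (Sum.elim a (Sum.elim b k.2))
  let f₁ : (ι × (C → Bool)) × (B → Bool) → (A → Bool) → Bool :=
    fun j a => f j.1.1 (Sum.elim a (Sum.elim j.2 j.1.2))
  let f₃ : (A → Bool) → (B → Bool) → ι → (C → Bool) → Bool :=
    fun a b i c => f i (Sum.elim a (Sum.elim b c))
  -- the averages
  let G₀ : (A → Bool) → ℝ := fun a => ∑ j ∈ s₁, w₁ j * br (f₁ j) a
  have e1 : ∀ a, G₀ a = ∑ k ∈ s₂, w₂ k * ml (br (f₂ a k)) 0 := by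
    intro a
    exact avg_prod s₂ w₂ (fun k b => br (f₂ a k) b)
  have e2 : ∀ a b, ∑ k ∈ s₂, w₂ k * br (f₂ a k) b = ∑ i ∈ sι, w i * ml (br (f₃ a b i)) 0 := by
    intro a b
    exact avg_prod sι w (fun i c => br (f₃ a b i) c)
  have e3 : ml G₀ 0 = ∑ i ∈ sι, w i * ml (br (f i)) 0 := by
    have h1 : G₀ = fun a => ∑ i ∈ sι, w i * ml (fun d => br (f i) (Sum.elim a d)) 0 := by
      funext a
      rw [e1 a]
      have h2 : ∑ k ∈ s₂, w₂ k * ml (br (f₂ a k)) 0 =
          ∑ i ∈ sι, w i * ml (fun c => ml (br (f₂ a (i, c))) 0) 0 :=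
        avg_prod sι w (fun i c => ml (br (f₂ a (i, c))) 0)
      rw [h2]
      refine sum_congr rfl fun i _ => ?_
      rw [ml0_elim (fun d => br (f i) (Sum.elim a d)), ml0_comm]
      rfl
    rw [h1, ml0_sum]
    refine sum_congr rfl fun i _ => ?_
    rw [ml0_elim (br (f i))]
  have hqG : q ≤ ml G₀ 0 := by rw [e3]; exact hq
  have hG₀0 : ∀ a, 0 ≤ G₀ a := fun a => sum_nonneg fun j hj =>
    mul_nonneg (hw₁0 j hj) (by unfold br; split_ifs <;> norm_num)
  have hG₀1 : ∀ a, G₀ a ≤ 1 := by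
    intro a
    rw [← hw₁1]
    refine sum_le_sum fun j hj => ?_
    have h1 := hw₁0 j hj
    have h2 : br (f₁ j) a ≤ 1 := by unfold br; split_ifs <;> norm_num
    exact mul_le_of_le_one_right h1 h2
  have hq1 : q ≤ 1 := by
    refine hqG.trans ?_
    have := ml_mono (F := G₀) (G := fun _ => 1) hG₀1 (v := 0) (fun i => by simp)
    rwa [ml_const] at this
  have hq0 : 0 < q := lt_of_lt_of_le (by positivity) hexq
  set τ : ℝ := q / 2 with hτ
  set Λ : ℝ := (t : ℝ) ^ 2 / p ^ 2 with hΛ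
  have hΛp : Λ * p ^ 2 = (t : ℝ) ^ 2 := by rw [hΛ]; field_simp
  have hΛ1 : 1 ≤ Λ := by
    rw [hΛ, le_div_iff₀ (by positivity), one_mul]
    have h1 : p ^ 2 ≤ 1 := pow_le_one₀ hp.le hp1
    have h2 : (1 : ℝ) ≤ t ^ 2 := one_le_pow₀ htR
    linarith
  have hΛ2 : 64 * Λ ≤ 2 ^ (4 * u) := by
    rw [hΛ, mul_div_assoc', div_le_iff₀ (by positivity)]
    linarith
  -- sizes
  set Q : ℝ := 2 ^ (4 * u) with hQ
  have hQ16 : 16 ≤ Q := by
    have : (2 : ℝ) ^ 4 ≤ 2 ^ (4 * u) := pow_le_pow_right₀ (by norm_num) (by omega)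
    rw [hQ]
    linarith
  have h8 : (2 : ℝ) ^ (8 * u) = Q ^ 2 := by rw [hQ, ← pow_mul]; congr 1; ring
  have h16 : (2 : ℝ) ^ (8 * u * 2) = Q ^ 4 := by rw [hQ, ← pow_mul]; congr 1; ring
  have h32 : (2 : ℝ) ^ (32 * u + 8) = 256 * Q ^ 8 := by
    rw [hQ, ← pow_mul, pow_add]
    have : 32 * u = 4 * u * 8 := by ring
    rw [this]
    norm_num
    ring
  have hβ2 : β * (256 * Q ^ 8) ≤ q := by rw [← h32]; exact hβq
  have hQ8 : (1 : ℝ) ≤ Q ^ 8 := one_le_pow₀ (by linarith)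
  have hβ1 : β * 256 ≤ q := by
    refine le_trans ?_ hβ2
    have h1 := mul_le_mul_of_nonneg_left hQ8 (by positivity : 0 ≤ β * 256)
    linarith
  set e₀ : ℝ := Real.exp (-((2 : ℝ) ^ (8 * u) / 256)) with he₀
  have he₀0 : 0 < e₀ := Real.exp_pos _
  have he₁ : Real.exp (-((2 : ℝ) ^ (8 * u) / 2)) ≤ e₀ := by
    refine Real.exp_le_exp.2 ?_
    have : (0 : ℝ) < 2 ^ (8 * u) := by positivity
    linarith
  have htp2 : 64 * (t : ℝ) ^ 2 ≤ p * 2 ^ (4 * u) := by
    refine htp.trans ?_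
    refine mul_le_mul_of_nonneg_right ?_ (by positivity)
    nlinarith
  -- step 1
  have hRB : ∀ j ∈ s₁, RB Λ (fun a => (br (f₁ j) a + τ) / 2) := by
    intro j hj
    have hi : j.1.1 ∈ sι := (mem_product.1 (mem_product.1 hj).1).1
    refine t_SW t_DTREL A t p β Λ τ (f₁ j) ht (Fintype.card_pos_iff.2 ⟨Sum.inl fun _ => false⟩)
      hp hp1 hβ (by positivity) (by linarith) hΛp.ge ?_ ?_
    · rw [hcA, hΛp, hτ, h16]
      have h1 : β * (2 * Q ^ 4) ^ 2 = (β * (256 * Q ^ 8)) / 64 := by ring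
      rw [h1]
      have h2 : (1 : ℝ) ≤ t ^ 2 := one_le_pow₀ htR
      nlinarith
    · intro ρ₀
      have h1 := htame j.1.1 hi A (Sum.inl : A → Iu u)
        (Sum.elim (fun _ => false) (Sum.elim j.2 j.1.2)) Sum.inl_injective ρ₀
      have h2 : (fun a : A → Bool => f j.1.1 (Function.extend (Sum.inl : A → Iu u) a
          (Sum.elim (fun _ => false) (Sum.elim j.2 j.1.2)))) = f₁ j := by
        funext a
        show f j.1.1 _ = f j.1.1 _
        congr 1
        funext x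
        rcases x with x | x
        · rw [Sum.inl_injective.extend_apply]
          rfl
        · rw [Function.extend_apply' _ _ _ (by rintro ⟨y, hy⟩; cases hy)]
          rfl
      rw [h2] at h1
      exact h1
  have hG₁ : RB Λ (fun a => (G₀ a + τ) / 2) := by
    have h1 := t_AVG A ((ι × (C → Bool)) × (B → Bool)) s₁ w₁ Λ
      (fun j a => (br (f₁ j) a + τ) / 2) hw₁0 hw₁1 hRB
    have h2 : (fun a => (G₀ a + τ) / 2) = fun a => ∑ j ∈ s₁, w₁ j * ((br (f₁ j) a + τ) / 2) := by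
      funext a
      have h3 : ∀ j ∈ s₁, w₁ j * ((br (f₁ j) a + τ) / 2) =
          (w₁ j * br (f₁ j) a) / 2 + w₁ j * (τ / 2) := fun j _ => by ring
      rw [sum_congr rfl h3, sum_add_distrib, ← sum_div, ← sum_mul, hw₁1]
      show ((∑ j ∈ s₁, w₁ j * br (f₁ j) a) + τ) / 2 = _
      ring
    rw [h2]
    exact h1
  have hG₁0 : ml (fun a => (G₀ a + τ) / 2) 0 = (ml G₀ 0 + τ) / 2 := by
    have h1 : (fun a => (G₀ a + τ) / 2) = fun a => (1 / 2) * (G₀ a + τ) := by
      funext a; ring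
    rw [h1, ml_smul, ml_add', ml_const]
    ring
  obtain ⟨ε, hε0, hε1, hval⟩ := hVALN u hu
  set η : ℝ := 1 / 2 ^ (4 * u) with hη
  have hη0 : 0 < η := by positivity
  have hη1 : η ≤ 1 := by
    rw [hη, div_le_one (by positivity)]
    exact one_le_pow₀ (by norm_num)
  have hη2 : η ^ 2 * (2 : ℝ) ^ (8 * u * 2) = Q ^ 2 := by
    rw [hη, h16, ← hQ]
    field_simp
  have hH := orth_Hm (8 * u * 2)
  have hsq : Real.sqrt ((2 : ℝ) ^ (8 * u * 2)) = Real.sqrt 2 ^ (8 * u * 2) := by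
    have h1 : ((2 : ℝ) ^ (8 * u * 2)) = (Real.sqrt 2 ^ (8 * u * 2)) ^ 2 := by
      rw [pow_right_comm (Real.sqrt 2) (8 * u * 2) 2, Real.sq_sqrt (by norm_num : (0 : ℝ) ≤ 2)]
    rw [h1, Real.sqrt_sq (pow_nonneg (Real.sqrt_nonneg _) _)]
  have hsq2 : Real.sqrt ((2 : ℝ) ^ (8 * u * 2)) = Q ^ 2 := by
    have h1 : ((2 : ℝ) ^ (8 * u * 2)) = (Q ^ 2) ^ 2 := by rw [h16]; ring
    rw [h1, Real.sqrt_sq (by positivity)]
  have hsq0 : Real.sqrt 2 ^ (8 * u * 2) ≠ 0 := by
    rw [← hsq, hsq2]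
    positivity
  have step1 : ∃ a : A → Bool, |Fo (Hm (8 * u * 2)) a - (if v then ε else 0)| ≤ η ∧
      q / 4 ≤ G₀ a := by
    have hcon : ∀ a, ml (fun a => (G₀ a + τ) / 2) 0 / 2 ≤ (G₀ a + τ) / 2 → q / 4 ≤ G₀ a := by
      intro a ha
      rw [hG₁0] at ha
      linarith
    cases v
    · obtain ⟨a, h1, h2⟩ := t_HITN (Fin (8 * u * 2) → Bool) (Hm (8 * u * 2)) _ η hH hη0
        (fun a => (G₀ a + τ) / 2) hG₁.nn hG₁.le (by
          rw [hG₁0, hcX, hη2, ← h8]
          linarith)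
      refine ⟨a, ?_, hcon a h2⟩
      simpa using h1
    · obtain ⟨a, h1, h2⟩ := hCORE2 (Fin (8 * u * 2) → Bool) (Hm (8 * u * 2)) _ Λ ε η hH
        (by
          rw [hcX, hsq, one_div, inv_mul_cancel₀ hsq0])
        hΛ1 hε0
        (by
          refine hε1.trans ?_
          rw [div_le_one (by positivity)]
          push_cast
          linarith)
        hη0 hη1
        (by
          rw [hcX, hsq2]
          nlinarith)
        (by
          rw [hcX, hη2]
          have h1 : (64 * Λ) ^ 2 ≤ Q ^ 2 := pow_le_pow_left₀ (by positivity) hΛ2 2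
          have h2 : 0 ≤ Λ ^ 2 := by positivity
          linarith)
        (by
          rw [hcX]
          exact exp_num hu hε0 hε1)
        (fun a => (G₀ a + τ) / 2) hG₁ (by
          rw [hG₁0, hcX, hη2, ← h8]
          linarith)
      refine ⟨a, ?_, hcon a h2⟩
      simpa using h1
  obtain ⟨a, ha, hqa⟩ := step1
  obtain ⟨r₁, hr₁, hr₁b, r₂, hr₂, hr₂b, hz⟩ := hval v a ha
  -- step 2
  have step2 : ∃ b : B → Bool, ssum univ b = r₁ ∧ q / 4 / 2 ≤ ∑ k ∈ s₂, w₂ k * br (f₂ a k) b := by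
    refine hMASKR B (6 * u) u t p β (q / 4) (ι × (C → Bool)) s₂ w₂ (f₂ a) hcB (by omega) hu ht
      hp hp1 hβ htp2 (by linarith) (by linarith) hw₂0 hw₂1 ?_ ?_ r₁ hr₁ hr₁b
    · intro k hk
      have hi : k.1 ∈ sι := (mem_product.1 hk).1
      have h1 := htame k.1 hi B (fun y => (Sum.inr (Sum.inl y) : Iu u))
        (Sum.elim a (Sum.elim (fun _ => false) k.2)) (by
          intro y y' h
          simpa using h) (fun _ => none)
      have h2 : (fun b : B → Bool => f k.1 (Function.extend (fun y => (Sum.inr (Sum.inl y) : Iu u)) b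
          (Sum.elim a (Sum.elim (fun _ => false) k.2)))) = f₂ a k := by
        funext b
        show f k.1 _ = f k.1 _
        congr 1
        funext x
        rcases x with x | x | x
        · rw [Function.extend_apply' _ _ _ (by rintro ⟨y, hy⟩; cases hy)]
          rfl
        · have hinj : Function.Injective (fun y : B => (Sum.inr (Sum.inl y) : Iu u)) := by
            intro y y' h
            simpa using h
          exact hinj.extend_apply _ _ x
        · rw [Function.extend_apply' _ _ _ (by rintro ⟨y, hy⟩; cases hy)]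
          rfl
      rw [h2, rs_none] at h1
      exact h1
    · rw [← e1 a]
      exact hqa
  obtain ⟨b, hb, hqb⟩ := step2
  rw [e2 a b] at hqb
  -- step 3
  have step3 : ∃ c : C → Bool, ssum univ c = r₂ ∧
      q / 4 / 2 / 2 ≤ ∑ i ∈ sι, w i * br (f₃ a b i) c := by
    refine hMASKR C (6 * u * (1024 * u + 1) + 1) u t p β (q / 4 / 2) ι sι w (f₃ a b) hcC
      (by nlinarith) hu ht
      hp hp1 hβ htp2 (by linarith) (by linarith) hw hw1 ?_ hqb r₂ hr₂ hr₂b
    intro i hi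
    have hinj : Function.Injective (fun y : C => (Sum.inr (Sum.inr y) : Iu u)) := by
      intro y y' h
      simpa using h
    have h1 := htame i hi C (fun y => (Sum.inr (Sum.inr y) : Iu u))
      (Sum.elim a (Sum.elim b (fun _ => false))) hinj (fun _ => none)
    have h2 : (fun c : C → Bool => f i (Function.extend (fun y => (Sum.inr (Sum.inr y) : Iu u)) c
        (Sum.elim a (Sum.elim b (fun _ => false))))) = f₃ a b i := by
      funext c
      show f i _ = f i _
      congr 1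
      funext x
      rcases x with x | x | x
      · rw [Function.extend_apply' _ _ _ (by rintro ⟨y, hy⟩; cases hy)]
        rfl
      · rw [Function.extend_apply' _ _ _ (by rintro ⟨y, hy⟩; cases hy)]
        rfl
      · exact hinj.extend_apply _ _ x
    rw [h2, rs_none] at h1
    exact h1
  obtain ⟨c, hc, hqc⟩ := step3
  refine ⟨Sum.elim a (Sum.elim b c), hz b c hb hc, ?_⟩
  refine le_trans (le_of_eq ?_) hqc
  ring

end Pool.Agent.H9x.BF
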