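import Pool.Agent.H9x.BF.Stm2

set_option autoImplicit false
set_option linter.unusedSectionVars false
set_option linter.unusedVariables false

namespace Pool.Agent.H9x.BF

open Finset H568R2 Pool.Agent.H676 Pool.Agent.NPC Pool.Agent.H620R2.Gauge
  Pool.Agent.H9x.Q Pool.Agent.H622R2 Pool.Agent.TH678.SETH Pool.Agent.TH678.RS

open Pool.Agent.H622R2.Exp hiding Dat

open Pool.Agent.TH678.ETH hiding th

open Pool.Agent.H9x.RT (ml lv HZ lev UU hs Adm isP_of_isPH mem_UU card_lev)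

open Pool.Agent.H9x.BE (th Dat ind Sy Ev Fd Av ow Kx Tv Jn cN contN Kh S_AVL S_AVI S_KX S_KHN
  S_CARDU S_RUNDT S_CONJ)

open Pool.Agent.K7x.EQ (Iu m2e va Ig KK mkv IsEQP)

theorem t_ITER (hNUMS : S_NUMS) (hSTEP : S_STEP) : S_ITER := by
  intro Y R hR s k
  induction k with
  | zero => intro _ D b _ h; omega
  | succ k ih =>
    intro hT D b hOk _
    rcases Nat.eq_zero_or_pos k with h0 | hk
    · subst h0
      exact hSTEP Y s R (hT s le_rfl (by omega)) hR D b hOk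
    · obtain ⟨D1, b1, hE1, hOk1⟩ := ih (fun j h1 h2 => hT j h1 (by omega)) D b hOk hk
      obtain ⟨hTell, n₀, hn₀⟩ := hOk1
      have hpos := (hNUMS.pos (s + k)).1
      obtain ⟨D2, b2, hE2, hOk2⟩ := hSTEP Y (s + k) R (hT (s + k) (by omega) (by omega)) hR D1 b1
        ⟨hTell, n₀, fun n hn => le_trans (by linarith) (hn₀ n hn)⟩
      refine ⟨D2, b2, ⟨fun q hq => ?_, fun c hc => ?_⟩, hOk2⟩
      · rw [hE2.1 q (by omega), hE1.1 q hq]
      · rw [hE2.2 c (by omega), hE1.2 c hc]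

end Pool.Agent.H9x.BF
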