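import Pool.Agent.H9x.BF.Stm2

/-!
# Project BF, piece LIM: the limit of the construction
-/

set_option autoImplicit false

namespace Pool.Agent.H9x.BF

open Finset H568R2 Pool.Agent.H676 Pool.Agent.NPC Pool.Agent.H620R2.Gauge
  Pool.Agent.H9x.Q Pool.Agent.H622R2 Pool.Agent.TH678.SETH Pool.Agent.TH678.RS

open Pool.Agent.H9x.RT (ml lv HZ lev UU hs Adm isP_of_isPH)

open Pool.Agent.H9x.BE (th Dat ind Sy Ev Fd Av ow Kx Tv Jn cN contN Kh S_AVL S_AVI)

open Pool.Agent.K7x.EQ (Iu m2e va Ig KK mkv IsEQP)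

namespace LIMx

variable (Y : Sy)

/-- the states of the construction -/
structure State : Type where
  s : ℕ
  D : Dat
  b : ℕ × List Bool → Bool
  ok : Ok Y s (fun _ => True) (th s) D b

theorem ext_trans {Y : Sy} {s t : ℕ} {D D' D'' : Dat} {b b' b'' : ℕ × List Bool → Bool}
    (hst : s ≤ t) (h : Ext Y s D b D' b') (h' : Ext Y t D' b' D'' b'') : Ext Y s D b D'' b'' :=
  ⟨fun q hq => (h'.1 q (lt_of_lt_of_le hq hst)).trans (h.1 q hq),
    fun c hc => (h'.2 c (lt_of_lt_of_le hc hst)).trans (h.2 c hc)⟩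

theorem blk_congr {S : ℕ → Polynomial ℕ} {D D' : Dat} {c : ℕ × List Bool}
    (h : ∀ i : Co S c, D (pos S c i) = D' (pos S c i)) :
    (YesD S D c ↔ YesD S D' c) ∧ (NoD S D c ↔ NoD S D' c) := by
  have : (fun i => D (pos S c i)) = fun i => D' (pos S c i) := funext h
  unfold YesD NoD
  rw [this]
  exact ⟨Iff.rfl, Iff.rfl⟩

end LIMx

open LIMx

theorem t_LIM (hAVL : S_AVL) (hPL : S_PL) (hNUMS : S_NUMS) : S_LIM := by
  intro Y Rq hE
  have hstart : Ok Y 0 (fun _ => True) (th 0) (fun _ => false) (fun _ => false) := by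
    refine ⟨fun c hc => absurd hc (Nat.not_lt_zero _), 0, fun n _ => ?_⟩
    have h1 : ind (Ev Y (fun _ => false) 0 (fun _ => True)) = fun _ => 1 := by
      funext D
      unfold ind
      rw [if_pos]
      exact ⟨fun c hc => absurd hc (Nat.not_lt_zero _), trivial⟩
    rw [h1, hAVL.const]
    exact (hNUMS.pos 0).2
  have hstep : ∀ (j : ℕ) (x : State Y), ∃ y : State Y, x.s < y.s ∧ Ext Y x.s x.D x.b y.D y.b ∧
      ∀ D'' : Dat, (∀ q, plev Y.S q < y.s → D'' q = y.D q) → Rq j D'' := by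
    intro j x
    obtain ⟨s', D', b', h1, h2, h3, h4⟩ := hE j x.s x.D x.b x.ok
    exact ⟨⟨s', D', b', h3⟩, h1, h2, h4⟩
  choose nx hnx using hstep
  let f : ℕ → State Y := fun n => Nat.rec ⟨0, fun _ => false, fun _ => false, hstart⟩ nx n
  have f_succ : ∀ j, f (j + 1) = nx j (f j) := fun _ => rfl
  have hlt : ∀ j, (f j).s < (f (j + 1)).s := fun j => by rw [f_succ]; exact (hnx j (f j)).1
  have hext1 : ∀ j, Ext Y (f j).s (f j).D (f j).b (f (j + 1)).D (f (j + 1)).b := fun j => by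
    rw [f_succ]; exact (hnx j (f j)).2.1
  have hge : ∀ j, j ≤ (f j).s := by
    intro j
    induction j with
    | zero => exact Nat.zero_le _
    | succ n ih => have := hlt n; omega
  have hmono : ∀ i d, (f i).s ≤ (f (i + d)).s := by
    intro i d
    induction d with
    | zero => exact le_rfl
    | succ d ih => exact ih.trans (hlt (i + d)).le
  have hext : ∀ i d, Ext Y (f i).s (f i).D (f i).b (f (i + d)).D (f (i + d)).b := by
    intro i d
    induction d with
    | zero => exact ⟨fun _ _ => rfl, fun _ _ => rfl⟩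
    | succ d ih => exact ext_trans (hmono i d) ih (hext1 (i + d))
  have hext' : ∀ i m, i ≤ m → Ext Y (f i).s (f i).D (f i).b (f m).D (f m).b := by
    intro i m him
    obtain ⟨d, rfl⟩ := Nat.exists_eq_add_of_le him
    exact hext i d
  let D : Dat := fun q => (f (plev Y.S q + 1)).D q
  let b : ℕ × List Bool → Bool := fun c => (f (lev Y.S c + 1)).b c
  have hD : ∀ j q, plev Y.S q < (f j).s → D q = (f j).D q := by
    intro j q hq
    have hq2 : plev Y.S q < (f (plev Y.S q + 1)).s := hge (plev Y.S q + 1)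
    have h1 := (hext' j (max j (plev Y.S q + 1)) (le_max_left _ _)).1 q hq
    have h2 := (hext' (plev Y.S q + 1) (max j (plev Y.S q + 1)) (le_max_right _ _)).1 q hq2
    exact h2.symm.trans h1
  have hb : ∀ j c, lev Y.S c < (f j).s → b c = (f j).b c := by
    intro j c hc
    have hc2 : lev Y.S c < (f (lev Y.S c + 1)).s := hge (lev Y.S c + 1)
    have h1 := (hext' j (max j (lev Y.S c + 1)) (le_max_left _ _)).2 c hc
    have h2 := (hext' (lev Y.S c + 1) (max j (lev Y.S c + 1)) (le_max_right _ _)).2 c hc2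
    exact h2.symm.trans h1
  refine ⟨D, b, fun c => ?_, fun c => ?_, fun j => ?_⟩
  · have hj1 : 2 ^ lev Y.S c < (f (2 ^ lev Y.S c + 1)).s := hge (2 ^ lev Y.S c + 1)
    have hj2 : lev Y.S c < (f (2 ^ lev Y.S c + 1)).s := lt_trans (Nat.lt_two_pow_self) hj1
    generalize hj : 2 ^ lev Y.S c + 1 = j at hj1 hj2
    obtain ⟨n₀, hn₀⟩ := (f j).ok.2
    obtain ⟨D', hD', hr⟩ := hAVL.ex _ (VV Y.S (f j).s n₀) _ _ _ (hn₀ n₀ le_rfl)
    have hEv : Ev Y (f j).b (f j).s (fun _ => True) D' := by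
      by_contra hcon
      unfold ind at hr
      rw [if_neg hcon] at hr
      exact absurd (hNUMS.pos (f j).s).1 (not_lt.mpr hr)
    have h1 := hEv.1 c hj2
    have h2 : Y.tr c D' ↔ Y.tr c D := by
      refine Y.loc c D' D fun q hq => ?_
      have hp : plev Y.S q < (f j).s := lt_of_le_of_lt ((hPL.plev_le Y.S q).trans hq) hj1
      have hq' : q ∉ VV Y.S (f j).s n₀ := fun hmem =>
        absurd ((hPL.mem Y.S (f j).s n₀ q).1 hmem).2 (not_le.mpr hp)
      rw [hD' q hq', hD j q hp]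
    rw [← h2, h1, hb j c hj2]
  · have hj2 : lev Y.S c < (f (lev Y.S c + 1)).s := hge (lev Y.S c + 1)
    generalize hj : lev Y.S c + 1 = j at hj2
    have hT := (f j).ok.1 c hj2
    have hF := blk_congr (S := Y.S) (D := D) (D' := (f j).D) (c := c) fun i =>
      hD j _ (by rw [hPL.plev_pos]; exact hj2)
    rw [hF.1, hF.2, hb j c hj2]
    exact hT
  · refine (hnx j (f j)).2.2 D fun q hq => ?_
    exact hD (j + 1) q hq

end Pool.Agent.H9x.BF
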