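import Pool.Agent.H9x.BF.Stm1

/-! # Project BF, piece MASKR: slices meet averages of events (helper15) -/

set_option autoImplicit false
set_option linter.unusedSectionVars false
set_option linter.unusedVariables false

namespace Pool.Agent.H9x.BF

open Finset H568R2 Pool.Agent.H676 Pool.Agent.H9x.RT Pool.Agent.H9x.BE

open Pool.Agent.K7x.EQ (sgi ssum TS fsum Iu m2e va Ig)

theorem MASKR_avg {I : Type*} [Fintype I] [DecidableEq I] (p : ℝ) (h : (I → Bool) → Bool) :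
    ∑ ρ : Restr I, (∏ i, wq p (ρ i)) * ml (br (rs h ρ)) 0 = ml (br h) 0 := by
  have h4 := avg_restr p (0 : I → ℝ) ∅ (br h)
  have h5 : (fun i => (1 - p) * (0 : I → ℝ) i) = 0 := by funext i; simp
  rw [h5, card_empty, pow_zero, one_mul] at h4
  have h6 : ∀ ρ : Restr I, ∏ i, rwt p (0 : I → ℝ) i (ρ i) = ∏ i, wq p (ρ i) := by
    intro ρ
    refine prod_congr rfl fun i _ => ?_
    cases ρ i with
    | none => rfl
    | some b => simp only [rwt, wq, Pi.zero_apply, mul_zero, add_zero]; ring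
  refine Eq.trans (sum_congr rfl fun ρ _ => ?_) h4
  rw [h6]
  rfl

/-- the numbers -/
theorem MASKR_num {M U p t : ℝ} (hU : 16 ≤ U) (hM : U ^ 4 ≤ M) (ht : 1 ≤ t) (hp : 0 < p)
    (hp1 : p ≤ 1) (h64 : 64 * t ^ 2 ≤ p * U) :
    0 < p * M / 2 - t ∧ 3 * (M / U) + t ≤ p * M / 2 - t ∧
      t * ((3 * (M / U) + t) / (p * M / 2 - t)) ≤ 1 / 4 ∧ U ^ 2 / 2 ≤ (M / U) ^ 2 / (2 * M) ∧
      U ^ 2 / 2 ≤ p * M / 8 := by
  have hU0 : 0 < U := by linarith
  have hM0 : 0 < M := lt_of_lt_of_le (by positivity) hM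
  have hUM : U ^ 3 ≤ M / U := by
    rw [le_div_iff₀ hU0]
    calc U ^ 3 * U = U ^ 4 := by ring
      _ ≤ M := hM
  obtain ⟨L, hL⟩ : ∃ L, L = M / U := ⟨_, rfl⟩
  have hMe : M = L * U := by rw [hL]; field_simp
  rw [← hL] at hUM ⊢
  have hL0 : 0 < L := lt_of_lt_of_le (by positivity) hUM
  have htt : t ≤ t ^ 2 := by nlinarith
  have h1 : 64 * t ≤ p * U := by linarith
  have hpU : 64 ≤ p * U := by linarith
  have hUL : 256 * U ≤ L := by
    have : U ^ 3 = U ^ 2 * U := by ring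
    nlinarith [sq_nonneg (U - 16)]
  have hpM : p * M = (p * U) * L := by rw [hMe]; ring
  have hpUle : p * U ≤ U := by nlinarith
  have h2 : 64 * t * L ≤ p * M := by
    rw [hpM]
    exact mul_le_mul_of_nonneg_right h1 hL0.le
  have h2' : 64 * t ^ 2 * L ≤ p * M := by
    rw [hpM]
    exact mul_le_mul_of_nonneg_right h64 hL0.le
  have htL : t ≤ L := by nlinarith
  have h3 : 64 * L ≤ p * M := by nlinarith
  have hD : 0 < p * M / 2 - t := by linarith
  refine ⟨hD, by linarith, ?_, ?_, ?_⟩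
  · rw [mul_div_assoc', div_le_iff₀ hD]
    have h4 : t * (3 * L + t) ≤ 4 * (t ^ 2 * L) := by
      have : t * t ≤ t * (t * L) := by
        have : 1 ≤ L := by nlinarith
        nlinarith [mul_pos (by linarith : (0:ℝ) < t) (by linarith : (0:ℝ) < t)]
      nlinarith [mul_pos (by linarith : (0:ℝ) < t) hL0]
    linarith
  · rw [hMe, le_div_iff₀ (by positivity)]
    have h5 : U ^ 3 * (L * 1) ≤ L * L := by nlinarith
    nlinarith
  · have h6 : U ^ 3 * 64 ≤ L * (p * U) := mul_le_mul hUM hpU (by norm_num) hL0.le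
    have h7 : U ^ 2 ≤ U ^ 3 := pow_le_pow_right₀ (by linarith) (by norm_num)
    rw [hpM]
    nlinarith

open Classical in
theorem t_MASKR (hSLR : S_SLR) (hSTN : S_STN) : S_MASKR := by
  intro Y _ _ m u t p β q ι sι w f hcard h4u hu ht hp0 hp1 hβ h64 hβq hq hw0 hw1 hf hmean r hr hrle
  by_contra hcon
  push Not at hcon
  -- the numbers
  obtain ⟨U, hU⟩ : ∃ U : ℝ, U = 2 ^ (4 * u) := ⟨_, rfl⟩
  obtain ⟨M, hM⟩ : ∃ M : ℝ, M = 2 ^ (4 * m) := ⟨_, rfl⟩
  have hcardR : ((Fintype.card Y : ℕ) : ℝ) = M := by rw [hcard, hM]; push_cast; rfl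
  rw [← hU, ← hM] at hrle
  rw [← hU] at h64
  have hU16 : 16 ≤ U := by
    rw [hU]
    calc (16 : ℝ) = 2 ^ 4 := by norm_num
      _ ≤ 2 ^ (4 * u) := pow_le_pow_right₀ (by norm_num) (by omega)
  have hUM : U ^ 4 ≤ M := by
    rw [hU, hM, ← pow_mul]
    exact pow_le_pow_right₀ (by norm_num) (by omega)
  have htR : (1 : ℝ) ≤ t := by exact_mod_cast ht
  obtain ⟨n1, n2, n3, n4, n5⟩ := MASKR_num hU16 hUM htR hp0 hp1 h64
  have hU2 : (2 : ℝ) ^ (8 * u) = U ^ 2 := by rw [hU, ← pow_mul]; congr 1; ring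
  rw [hU2] at hq
  obtain ⟨L, hL⟩ : ∃ L, L = M / U := ⟨_, rfl⟩
  have hL0 : 0 ≤ L := by
    rw [hL]
    have : 0 < M := by rw [hM]; positivity
    positivity
  obtain ⟨κ, hκ⟩ : ∃ κ, κ = (3 * (M / U) + t) / (p * M / 2 - t) := ⟨_, rfl⟩
  rw [← hκ] at n3
  rw [← hL] at n2 n4 hκ
  have hrL : |(r : ℝ)| ≤ 2 * L := by
    rw [hL]
    calc |(r : ℝ)| ≤ 2 * M / U := hrle
      _ = 2 * (M / U) := by ring
  have hκ0 : 0 ≤ κ := by rw [hκ]; positivity
  have hκ1 : κ ≤ 1 := by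
    rw [hκ, div_le_one n1]
    exact n2
  have hκD : κ * (p * M / 2 - t) = 3 * L + t := by
    rw [hκ, div_mul_cancel₀ _ n1.ne']
  have hpow : (3 : ℝ) / 4 ≤ (1 - κ) ^ t := by
    have := one_add_mul_le_pow (show (-2 : ℝ) ≤ -κ by linarith) t
    have e : 1 + -κ = 1 - κ := by ring
    rw [e] at this
    linarith
  -- the probability of a bad restriction
  obtain ⟨ε, hε⟩ : ∃ ε, ε = Real.exp (-(U ^ 2 / 2)) := ⟨_, rfl⟩
  rw [← hε] at hq
  have hε0 : 0 < ε := by rw [hε]; exact Real.exp_pos _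
  have hbad := hSTN Y p L hp0 hp1 hL0 (by rw [hcard]; exact Nat.one_le_two_pow)
  rw [hcardR] at hbad
  have hbad2 : Ex (wq p) (fun ρ : Restr Y => if p * M / 2 ≤
      ((Pool.Agent.K7x.EQ.stars ρ).card : ℝ) ∧ |((fsum ρ : ℤ) : ℝ)| ≤ L then (0 : ℝ) else 1) ≤
      3 * ε := by
    refine hbad.trans ?_
    have e1 : Real.exp (-(L ^ 2 / (2 * M))) ≤ ε := by
      rw [hε]
      exact Real.exp_le_exp.2 (by linarith)
    have e2 : Real.exp (-(p * M / 8)) ≤ ε := by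
      rw [hε]
      exact Real.exp_le_exp.2 (by linarith)
    linarith
  have hwq0 : ∀ a, 0 ≤ wq p a := wq_nonneg hp0.le hp1
  obtain ⟨W, hW⟩ : ∃ W : Restr Y → ℝ, W = fun ρ => ∏ i, wq p (ρ i) := ⟨_, rfl⟩
  have hW0 : ∀ ρ, 0 ≤ W ρ := fun ρ => by rw [hW]; exact prod_nonneg fun i _ => hwq0 _
  have hW1 : ∑ ρ, W ρ = 1 := by
    have := Ex_const (I := Y) (wq_sum p) 1
    unfold Ex at this
    rw [hW]
    simpa using this
  -- a good restriction
  have hgood : ∀ ρ : Restr Y, (p * M / 2 ≤ ((Pool.Agent.K7x.EQ.stars ρ).card : ℝ) ∧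
      |((fsum ρ : ℤ) : ℝ)| ≤ L) →
      ∑ i ∈ sι, w i * (ml (br (rs (f i) ρ)) 0 -
        (if ¬ DTr t (rs (f i) ρ) then (1 : ℝ) else 0)) ≤ 2 / 3 * q := by
    rintro ρ ⟨c1, c2⟩
    obtain ⟨R, hR⟩ : ∃ R, R = Pool.Agent.K7x.EQ.stars ρ := ⟨_, rfl⟩
    obtain ⟨s, hs⟩ : ∃ s, s = r - fsum ρ := ⟨_, rfl⟩
    rw [← hR] at c1
    have c3 : |(s : ℝ)| ≤ 3 * L := by
      rw [hs]
      push_cast
      exact (abs_sub _ _).trans (by linarith)
    have c4 : |(s : ℝ)| + (t : ℝ) ≤ κ * (R.card - t) := by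
      have : κ * (p * M / 2 - t) ≤ κ * (R.card - t) :=
        mul_le_mul_of_nonneg_left (by linarith) hκ0
      linarith
    have c5 : (t : ℝ) ≤ R.card := by linarith
    have c6 : t ≤ R.card := by exact_mod_cast c5
    have c7 : 0 < TS R s (fun _ : Y → Bool => (1 : ℝ)) := by
      refine Pool.Agent.K7x.EQ.TS_one_pos (Pool.Agent.K7x.EQ.exists_slice _ ?_ ?_)
      · have h1 : |(s : ℝ)| ≤ R.card := by
          have h2 : κ * ((R.card : ℝ) - t) ≤ 1 * ((R.card : ℝ) - t) :=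
            mul_le_mul_of_nonneg_right hκ1 (by linarith)
          linarith
        have h2 : ((|s| : ℤ) : ℝ) ≤ ((R.card : ℤ) : ℝ) := by
          push_cast
          exact h1
        exact_mod_cast h2
      · obtain ⟨r', hr'⟩ := hr
        obtain ⟨k, hk⟩ := Pool.Agent.K7x.EQ.card_stars ρ
        rw [← hR] at hk
        have hc2 : (Fintype.card Y : ℤ) = 2 * (2 ^ (4 * m - 1) : ℕ) := by
          rw [hcard]
          have : 4 * m = (4 * m - 1) + 1 := by omega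
          rw [this, pow_succ]
          push_cast
          ring
        exact ⟨r' - k - (2 ^ (4 * m - 1) : ℕ), by rw [hs, hr', hk, hc2]; ring⟩
    -- the upper bound
    have h1 : ∑ i ∈ sι, w i * TS R s (br (rs (f i) ρ)) ≤ q / 2 * TS R s (fun _ => 1) := by
      have e1 : ∑ i ∈ sι, w i * TS R s (br (rs (f i) ρ)) =
          TS R s (fun z => ∑ i ∈ sι, w i * br (f i) (ov ρ z)) := by
        unfold TS
        simp only [mul_sum]
        rw [sum_comm]
        refine sum_congr rfl fun z _ => ?_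
        split_ifs
        · rfl
        · simp
      rw [e1]
      have e2 : q / 2 * TS R s (fun _ : Y → Bool => (1 : ℝ)) =
          TS R s (fun _ : Y → Bool => q / 2) := by
        rw [Pool.Agent.K7x.EQ.TS_const R s (q / 2), mul_comm]
      rw [e2]
      unfold TS
      refine sum_le_sum fun z _ => ?_
      split_ifs with hz
      · refine (hcon (ov ρ z) ?_).le
        rw [Pool.Agent.K7x.EQ.ssum_ov, ← hR, hz, hs]
        ring
      · exact le_rfl
    -- the lower bound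
    have h2 : ∀ i ∈ sι, 3 / 4 * TS R s (fun _ => 1) * (w i * (ml (br (rs (f i) ρ)) 0 -
        (if ¬ DTr t (rs (f i) ρ) then (1 : ℝ) else 0))) ≤ w i * TS R s (br (rs (f i) ρ)) := by
      intro i hi
      obtain ⟨b0, b1⟩ := Pool.Agent.K7x.EQ.ml_br_mem (rs (f i) ρ)
      by_cases hd : DTr t (rs (f i) ρ)
      · rw [if_neg (not_not.2 hd), sub_zero]
        have h3 := hSLR Y κ hκ0 hκ1 t R s (rs (f i) ρ) hd c6 c4
        have h4 : 3 / 4 * (TS R s (fun _ => 1) * ml (br (rs (f i) ρ)) 0) ≤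
            TS R s (br (rs (f i) ρ)) :=
          (mul_le_mul_of_nonneg_right hpow (mul_nonneg c7.le b0)).trans h3
        have h5 := mul_le_mul_of_nonneg_left h4 (hw0 i hi)
        linarith
      · rw [if_pos hd]
        have h3 : 0 ≤ TS R s (br (rs (f i) ρ)) :=
          Pool.Agent.K7x.EQ.TS_nonneg fun a => by unfold br; split_ifs <;> norm_num
        have h4 : 3 / 4 * TS R s (fun _ : Y → Bool => (1 : ℝ)) *
            (w i * (ml (br (rs (f i) ρ)) 0 - 1)) ≤ 0 :=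
          mul_nonpos_of_nonneg_of_nonpos (by linarith)
            (mul_nonpos_of_nonneg_of_nonpos (hw0 i hi) (by linarith))
        exact h4.trans (mul_nonneg (hw0 i hi) h3)
    have h3 := (sum_le_sum h2).trans h1
    rw [← mul_sum] at h3
    have h4 : 3 / 4 * TS R s (fun _ : Y → Bool => (1 : ℝ)) * ∑ i ∈ sι, w i *
        (ml (br (rs (f i) ρ)) 0 - (if ¬ DTr t (rs (f i) ρ) then (1 : ℝ) else 0)) ≤
        3 / 4 * TS R s (fun _ : Y → Bool => (1 : ℝ)) * (2 / 3 * q) := by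
      refine h3.trans (le_of_eq ?_)
      ring
    exact le_of_mul_le_mul_left h4 (by linarith)
  -- averages
  have hone : ∀ ρ : Restr Y, ∑ i ∈ sι, w i * (ml (br (rs (f i) ρ)) 0 -
      (if ¬ DTr t (rs (f i) ρ) then (1 : ℝ) else 0)) ≤ 1 := by
    intro ρ
    refine le_trans (sum_le_sum (g := w) fun i hi => ?_) hw1.le
    obtain ⟨b0, b1⟩ := Pool.Agent.K7x.EQ.ml_br_mem (rs (f i) ρ)
    refine mul_le_of_le_one_right (hw0 i hi) ?_
    split_ifs <;> linarith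
  have hq0 : 0 < q := by linarith
  have h1 : ∑ ρ, W ρ * ∑ i ∈ sι, w i * (ml (br (rs (f i) ρ)) 0 -
      (if ¬ DTr t (rs (f i) ρ) then (1 : ℝ) else 0)) ≤
      ∑ ρ, W ρ * (2 / 3 * q + (if p * M / 2 ≤ ((Pool.Agent.K7x.EQ.stars ρ).card : ℝ) ∧
        |((fsum ρ : ℤ) : ℝ)| ≤ L then (0 : ℝ) else 1)) := by
    refine sum_le_sum fun ρ _ => mul_le_mul_of_nonneg_left ?_ (hW0 ρ)
    split_ifs with hg
    · rw [add_zero]
      exact hgood ρ hg
    · linarith [hone ρ]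
  have h2 : ∑ ρ, W ρ * (2 / 3 * q + (if p * M / 2 ≤ ((Pool.Agent.K7x.EQ.stars ρ).card : ℝ) ∧
        |((fsum ρ : ℤ) : ℝ)| ≤ L then (0 : ℝ) else 1)) ≤ 2 / 3 * q + 3 * ε := by
    simp only [mul_add]
    rw [sum_add_distrib, ← sum_mul, hW1, one_mul]
    have h3 : ∑ ρ, W ρ * (if p * M / 2 ≤ ((Pool.Agent.K7x.EQ.stars ρ).card : ℝ) ∧
        |((fsum ρ : ℤ) : ℝ)| ≤ L then (0 : ℝ) else 1) ≤ 3 * ε := by
      rw [hW]
      exact hbad2
    linarith
  have h3 : ∑ ρ, W ρ * ∑ i ∈ sι, w i * (ml (br (rs (f i) ρ)) 0 -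
      (if ¬ DTr t (rs (f i) ρ) then (1 : ℝ) else 0)) =
      ∑ i ∈ sι, w i * (ml (br (f i)) 0 - Ex (wq p) (fun ρ : Restr Y =>
        if ¬ DTr t (rs (f i) ρ) then (1 : ℝ) else 0)) := by
    simp only [mul_sum]
    rw [sum_comm]
    refine sum_congr rfl fun i _ => ?_
    rw [← MASKR_avg p (f i)]
    unfold Ex
    rw [← sum_sub_distrib, mul_sum, hW]
    exact sum_congr rfl fun ρ _ => by ring
  have h4 : q - β ≤ ∑ i ∈ sι, w i * (ml (br (f i)) 0 - Ex (wq p) (fun ρ : Restr Y =>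
        if ¬ DTr t (rs (f i) ρ) then (1 : ℝ) else 0)) := by
    have h5 : ∑ i ∈ sι, w i * (ml (br (f i)) 0 - β) ≤ ∑ i ∈ sι, w i * (ml (br (f i)) 0 -
        Ex (wq p) (fun ρ : Restr Y => if ¬ DTr t (rs (f i) ρ) then (1 : ℝ) else 0)) :=
      sum_le_sum fun i hi => mul_le_mul_of_nonneg_left (by linarith [hf i hi]) (hw0 i hi)
    refine le_trans ?_ h5
    simp only [mul_sub]
    rw [sum_sub_distrib, ← sum_mul, hw1, one_mul]
    linarith
  rw [h3] at h1
  have h5 := h4.trans (h1.trans h2)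
  linarith

end Pool.Agent.H9x.BF
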