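import Pool.Agent.H9x.BF.Stm1
import Pool.Agent.H9x.BE.PROD
import Pool.Agent.H9x.BE.Aux3

/-!
# Project BF, piece MOM2: the second moment, one step
-/

set_option autoImplicit false
set_option linter.unusedSectionVars false
set_option linter.unusedVariables false

namespace Pool.Agent.H9x.BF

open Finset H568R2 Pool.Agent.H676 Pool.Agent.H9x.RT Pool.Agent.H9x.BE

theorem t_MOM2 : S_MOM2 := by
  intro X _ _ _ H γ Λ hH hΛ
  have hN1 : 1 ≤ Fintype.card X := Fintype.card_pos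
  set N : ℝ := (Fintype.card X : ℝ) with hNdef
  have hN : (1 : ℝ) ≤ N := by rw [hNdef]; exact_mod_cast hN1
  have hN0 : 0 < N := by linarith
  have hγ0 := hH.nonneg
  set K : ℝ := 2 ^ Fintype.card (X ⊕ X) * N ^ Fintype.card (X ⊕ X) with hK
  have hK1 : 1 ≤ K := by
    have h1 : (1 : ℝ) ≤ 2 ^ Fintype.card (X ⊕ X) := one_le_pow₀ (by norm_num)
    have h2 : (1 : ℝ) ≤ N ^ Fintype.card (X ⊕ X) := one_le_pow₀ hN
    nlinarith
  refine ⟨16 * (4 * K) ^ 2, by positivity, ?_⟩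
  intro δ hδ0 hδ1 hsm G hG v hv ρ hρ
  obtain ⟨hf0, hf1, hl1, hl2, -⟩ := BE.t_BOX (X ⊕ X) Λ G hG v hv
  have hG1 : ∀ a, |G a| ≤ 1 := fun a => by rw [abs_of_nonneg (hG.nn a)]; exact hG.le a
  obtain ⟨a1, a2, r, hexp, ha1, ha2, hb1, hb2, hb3⟩ := BE.t_EXPN (X ⊕ X) X (Wf H) δ γ N G v hδ0 hδ1 hN
    (fun u i => inc_le hH u i) (gram_ne hH) hG1 hv
  set f : ℝ := ml G v with hf
  set φ : ℝ := ml (Fo H) v with hφ
  have hv1 : ∀ i, |v i| ≤ 1 := fun i => (hv i).trans (by norm_num)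
  have hφ1 : |φ| ≤ 1 := by
    rw [abs_le]
    constructor
    · have := ml_mono (F := fun _ => (-1 : ℝ)) (G := Fo H)
        (fun a => (abs_le.1 (abs_Fo_le hH a)).1) hv1
      rwa [ml_const] at this
    · have := ml_mono (F := Fo H) (G := fun _ => (1 : ℝ))
        (fun a => (abs_le.1 (abs_Fo_le hH a)).2) hv1
      rwa [ml_const] at this
  set c : ℝ := φ + ρ with hc
  have hc2 : |c| ≤ 2 := (abs_add_le _ _).trans (by linarith)
  set κ : X → ℝ := fun x => (v (.inl x) + ∑ y, H x y * v (.inr y)) / (Fintype.card X : ℝ) with hκ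
  have hκ2 : ∑ x, κ x ^ 2 ≤ 1 / N := var_le hH hv
  set z : (X → Bool) → ℝ := fun u => inc (fun (_ : Unit) x => κ x) u () with hz
  have hz1 : ∀ u, |z u| ≤ 1 := by
    intro u
    have h1 : z u ^ 2 ≤ 1 := by
      have h2 : z u = ∑ x, κ x * sg (u x) := rfl
      rw [h2]
      refine (sum_mul_sq_le_sq_mul_sq univ _ _).trans ?_
      have h3 : ∑ x, sg (u x) ^ 2 = N := by
        have : ∀ x, sg (u x) ^ 2 = 1 := fun x => by rw [sq, sg_sq]
        rw [sum_congr rfl fun x _ => this x]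
        simp [hNdef]
      rw [h3]
      have h4 := mul_le_mul_of_nonneg_right hκ2 hN0.le
      rw [one_div, inv_mul_cancel₀ hN0.ne'] at h4
      exact h4
    exact abs_le_one_iff_mul_self_le_one.2 (by nlinarith)
  have hEz : Eu z = 0 := Eu_inc _ _
  have hEz2 : Eu (fun u => z u ^ 2) ≤ 1 / N := by
    have h1 : (fun u => z u ^ 2) = fun u => z u * z u := by funext u; ring
    have h2 : Eu (fun u => z u * z u) = ∑ x, κ x * κ x :=
      Eu_inc2 (fun (_ : Unit) x => κ x) () ()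
    rw [h1, h2]
    refine le_trans (le_of_eq ?_) hκ2
    exact sum_congr rfl fun x _ => by ring
  have hEa1 : Eu a1 = 0 := by
    have : a1 = fun u => ∑ i, inc (Wf H) u i * dS {i} G v := funext ha1
    rw [this]
    exact Aux3.Eu_lin (Wf H) (fun i => dS {i} G v)
  have hc4 : |c ^ 2| ≤ 4 := by
    rw [abs_pow]
    have := abs_nonneg c
    nlinarith
  have hP := BE.t_PROD X δ (4 * K) f (c ^ 2) a1 a2 r (fun u => 2 * c * z u) (fun u => z u ^ 2) (fun _ => 0)
    hδ0 hδ1 (by linarith) (by rw [abs_of_nonneg hf0]; linarith) (by linarith)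
    (fun u => (hb1 u).trans (by linarith)) (fun u => (hb2 u).trans (by linarith))
    (fun u => (hb3 u).trans (by linarith))
    (fun u => by
      rw [abs_mul, abs_mul, abs_of_pos (by norm_num : (0 : ℝ) < 2)]
      have h1 := hz1 u
      have h2 := abs_nonneg (z u)
      have h3 := abs_nonneg c
      nlinarith)
    (fun u => by
      rw [abs_pow]
      have h1 := hz1 u
      have h2 := abs_nonneg (z u)
      nlinarith)
    (fun u => by simp; linarith)
    hEa1 (by rw [Eu_smul, hEz, mul_zero])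
  have hstep : Eu (fun u => ml G (fun i => v i + δ * inc (Wf H) u i) *
        (ml (Fo H) (fun i => v i + δ * inc (Wf H) u i) - δ ^ 2 + ρ) ^ 2) =
      Eu (fun u => (f + δ * a1 u + δ ^ 2 * a2 u + δ ^ 3 * r u) *
        (c ^ 2 + δ * (2 * c * z u) + δ ^ 2 * (z u ^ 2) + δ ^ 3 * (fun _ => (0 : ℝ)) u)) := by
    congr 1
    funext u
    rw [hexp u, Fo_step hH]
    simp only [hz, hκ, hc]
    ring
  rw [← hstep] at hP
  have hP2 := (abs_le.1 hP).2
  -- the second order terms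
  have h5 : Eu a2 * c ^ 2 ≤ 4 * γ * Λ * (f * c ^ 2) := by
    have h6 : |Eu a2| ≤ γ * (4 * Λ * f) := ha2.trans (mul_le_mul_of_nonneg_left hl2 hγ0)
    have h7 := mul_le_mul_of_nonneg_right ((le_abs_self _).trans h6) (sq_nonneg c)
    linarith
  have h8 : |Eu (fun u => a1 u * z u)| ≤ 2 * Λ / Real.sqrt N * f := by
    have h9 : (fun u => a1 u * z u) = fun u => (∑ i, inc (Wf H) u i * dS {i} G v) *
        inc (fun (_ : Unit) x => κ x) u () := by
      funext u
      rw [ha1 u]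
    rw [h9, Aux3.Eu_lin_mul (Wf H) (fun i => dS {i} G v) κ]
    have h10 : ∀ i, |∑ j, Wf H i j * κ j| ≤ 1 / Real.sqrt N := by
      intro i
      have hsq : (∑ j, Wf H i j * κ j) ^ 2 ≤ 1 / N := by
        refine (sum_mul_sq_le_sq_mul_sq univ _ _).trans ?_
        rw [gram_row hH, one_mul]
        exact hκ2
      refine abs_le_of_sq_le_sq ?_ (by positivity)
      rw [div_pow, Real.sq_sqrt hN0.le, one_pow]
      exact hsq
    have h11 : |∑ i, dS {i} G v * ∑ j, Wf H i j * κ j| ≤ lv 1 G v * (1 / Real.sqrt N) := by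
      rw [Aux3.lv_one, sum_mul]
      refine (abs_sum_le_sum_abs _ _).trans (sum_le_sum fun i _ => ?_)
      rw [abs_mul]
      exact mul_le_mul_of_nonneg_left (h10 i) (abs_nonneg _)
    refine h11.trans ?_
    have h12 := mul_le_mul_of_nonneg_right hl1 (by positivity : (0 : ℝ) ≤ 1 / Real.sqrt N)
    refine h12.trans (le_of_eq ?_)
    ring
  have h9 : Eu (fun u => a1 u * (2 * c * z u)) ≤ (c ^ 2 + 4 * Λ ^ 2 / N) * f := by
    have h10 : (fun u => a1 u * (2 * c * z u)) = fun u => 2 * c * (a1 u * z u) := by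
      funext u
      ring
    rw [h10, Eu_smul]
    have h11 : 2 * c * Eu (fun u => a1 u * z u) ≤ 2 * |c| * (2 * Λ / Real.sqrt N * f) := by
      refine (le_abs_self _).trans ?_
      rw [abs_mul, abs_mul, abs_of_pos (by norm_num : (0 : ℝ) < 2)]
      exact mul_le_mul_of_nonneg_left h8 (by positivity)
    refine h11.trans ?_
    have h12 : 2 * |c| * (2 * Λ / Real.sqrt N) ≤ c ^ 2 + 4 * Λ ^ 2 / N := by
      have h13 := two_mul_le_add_sq |c| (2 * Λ / Real.sqrt N)
      rw [sq_abs, div_pow, Real.sq_sqrt hN0.le] at h13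
      refine h13.trans (le_of_eq ?_)
      ring
    have h14 := mul_le_mul_of_nonneg_right h12 hf0
    linarith
  have h10 := mul_le_mul_of_nonneg_left hEz2 hf0
  have h15 : Eu a2 * c ^ 2 + f * Eu (fun u => z u ^ 2) + Eu (fun u => a1 u * (2 * c * z u)) ≤
      4 * γ * Λ * (f * c ^ 2) + f * (1 / N) + (c ^ 2 + 4 * Λ ^ 2 / N) * f := by linarith
  have h16 := mul_le_mul_of_nonneg_left h15 (sq_nonneg δ)
  have h17 : (1 + δ ^ 2 * (1 + 4 * γ * Λ)) * (f * c ^ 2) + δ ^ 2 * ((4 * Λ ^ 2 + 1) / N) * f =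
      f * c ^ 2 + δ ^ 2 * (4 * γ * Λ * (f * c ^ 2) + f * (1 / N) + (c ^ 2 + 4 * Λ ^ 2 / N) * f) := by
    ring
  rw [h17]
  linarith

end Pool.Agent.H9x.BF
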