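import Pool.Agent.H9x.BF.Stm2
import Pool.Agent.H9x.V1.Low

/-!
# Project BF, piece NPP: `P = NP` relative to the oracle
-/

set_option autoImplicit false

namespace Pool.Agent.H9x.BF

open Finset H568R2 Pool.Agent.H676 Pool.Agent.NPC Pool.Agent.H620R2.Gauge
  Pool.Agent.H9x.Q Pool.Agent.H622R2 Pool.Agent.TH678.SETH Pool.Agent.TH678.RS

open Pool.Agent.H622R2.Exp hiding Dat

open Pool.Agent.TH678.ETH hiding th

open Pool.Agent.H9x.RT (ml lv HZ lev UU hs Adm isP_of_isPH)

open Pool.Agent.H9x.BE (th Dat ind Sy Ev Fd Av ow Kx Tv Jn cN contN Kh S_AVL S_AVI S_KX S_KHN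
  S_CARDU S_RUNDT S_CONJ)

open Pool.Agent.H9x.V1 (poly_rep poly_cS)

theorem t_NPP (hORCN : S_ORCN) : S_NPP := by
  intro S N h hh hc D L hL
  obtain ⟨V, p, ⟨M, hM⟩, hx⟩ := hL
  obtain ⟨e, he⟩ := hh (M, p)
  have hlen : UPoly (fun u : List Bool => u.length) := UPoly.length Poly.id
  have h1 : Poly (fun x : List Bool => true :: false :: true :: cS e ((N e ^ 2).eval x.length) x) :=
    Poly.cons (NPC.Poly.const _) (Poly.cons (NPC.Poly.const _) (Poly.cons (NPC.Poly.const _)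
      (poly_cS e (hlen.eval (N e ^ 2)) Poly.id)))
  refine ⟨_, Pool.Agent.TH678.WP.isFP_ask' _ h1, fun x => ?_⟩
  simp only [List.cons.injEq, and_true]
  have h2 : (N e).eval x.length ^ 2 ≤ (N e ^ 2).eval x.length := by simp
  have h3 := hORCN.on S N h D (⟨e, _, x, h2⟩ : Jn N)
  rw [hx]
  refine Iff.trans ?_ h3.symm
  show _ ↔ ∃ w : List Bool, w.length ≤ (h e).2.eval x.length ∧
      (h e).1.out (CC.cut ((N e).eval x.length) (orcE S N h D)) (pairBits w x) = some [true]
  refine exists_congr fun w => ?_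
  rw [he]
  refine and_congr_right fun hw => ?_
  have h4 := hc.hloc e x w (orcE S N h D) (by rw [he]; exact hw)
  rw [he] at h4
  rw [h4, hM]
  simp

end Pool.Agent.H9x.BF
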