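import Pool.Agent.H9x.BF.Stm2

/-! Project BF, piece NUMN: numbers (after BE/NUMN.lean). -/

set_option autoImplicit false

namespace Pool.Agent.H9x.BF

open Pool.Agent.H9x.BE (th)

theorem numn_sq (s : ℕ) : (s + 8) ^ 2 ≤ 64 * (2 ^ s * 2 ^ s) := by
  have h1 : s + 1 ≤ 2 ^ s := Nat.lt_two_pow_self
  have h2 : s + 8 ≤ 8 * 2 ^ s := by omega
  have h3 : (s + 8) ^ 2 ≤ (8 * 2 ^ s) ^ 2 := Nat.pow_le_pow_left h2 2
  refine h3.trans (le_of_eq ?_)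
  ring

theorem numn_alg (s A B C E P : ℝ) (hs : s ≤ P) (hA : 0 < A) (hB : 0 < B) (hC : 0 < C)
    (hE : 0 < E) (h : P * C * E * A ≤ B) : s * (C * B⁻¹) * E ≤ A⁻¹ := by
  have e : s * (C * B⁻¹) * E = (s * C * E) / B := by
    field_simp
  rw [e, div_le_iff₀ hB, inv_mul_eq_div, le_div_iff₀ hA]
  refine le_trans ?_ h
  have h1 : 0 < C * E * A := by positivity
  nlinarith

theorem numn_exp (s : ℕ) :
    s + (2 ^ s + 1) + (32 * uu s + 8) + 2 ^ (3 * (s + 1) + 8) ≤ 2 ^ (3 * s + 16) + 1 := by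
  have h1 : s ≤ 2 ^ s := Nat.lt_two_pow_self.le
  have h2 := numn_sq s
  have h4 : (2 : ℕ) ^ (3 * (s + 1) + 8) = 2048 * (2 ^ s * (2 ^ s * 2 ^ s)) := by
    rw [show 3 * (s + 1) + 8 = s * 3 + 11 by ring, pow_add, pow_mul]; ring
  have h5 : (2 : ℕ) ^ (3 * s + 16) = 65536 * (2 ^ s * (2 ^ s * 2 ^ s)) := by
    rw [show 3 * s + 16 = s * 3 + 16 by ring, pow_add, pow_mul]; ring
  have h6 : 1 ≤ 2 ^ s := Nat.one_le_two_pow
  have h9 : 32 * uu s = 256 * (s + 8) ^ 2 := by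
    unfold uu
    ring
  rw [h4, h5, h9]
  generalize 2 ^ s = x at *
  generalize (s + 8) ^ 2 = w at *
  have h7 : x ≤ x * x := Nat.le_mul_of_pos_left x h6
  have h8 : x * x ≤ x * (x * x) := Nat.le_mul_of_pos_left _ h6
  generalize x * (x * x) = z at *
  generalize x * x = y at *
  omega

theorem numn_one (s : ℕ) : (s : ℝ) * (2 ^ (2 ^ s + 1) * (1 / 2) ^ (2 ^ (3 * s + 16) + 1)) *
    2 ^ (32 * uu s + 8) ≤ th (s + 1) := by
  have hs : (s : ℝ) ≤ 2 ^ s := by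
    have : s ≤ 2 ^ s := Nat.lt_two_pow_self.le
    exact_mod_cast this
  have e1 : (2 : ℝ) ^ (s + (2 ^ s + 1) + (32 * uu s + 8) + 2 ^ (3 * (s + 1) + 8)) ≤
      2 ^ (2 ^ (3 * s + 16) + 1) := pow_le_pow_right₀ (by norm_num) (numn_exp s)
  have e2 : (2 : ℝ) ^ (s + (2 ^ s + 1) + (32 * uu s + 8) + 2 ^ (3 * (s + 1) + 8)) =
      2 ^ s * 2 ^ (2 ^ s + 1) * 2 ^ (32 * uu s + 8) * 2 ^ (2 ^ (3 * (s + 1) + 8)) := by
    rw [pow_add, pow_add, pow_add]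
  rw [e2] at e1
  unfold th
  rw [one_div, inv_pow, inv_pow]
  exact numn_alg _ _ _ _ _ _ hs (pow_pos two_pos _) (pow_pos two_pos _) (pow_pos two_pos _)
    (pow_pos two_pos _) e1

theorem numn_two (s : ℕ) : 64 * ((2 : ℝ) ^ (2 * s + 2) * (2 ^ s * 2 ^ (3 * s + 16))) ^ 2 ≤
    ((1 / (24 * (2 ^ s * 2 ^ (3 * s + 16)))) ^ s) ^ 2 * 2 ^ (4 * uu s) := by
  have e1 : (2 : ℝ) ^ (2 * s + 2) * (2 ^ s * 2 ^ (3 * s + 16)) = 2 ^ (6 * s + 18) := by
    rw [← pow_add, ← pow_add]; congr 1; ring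
  have e2 : (24 : ℝ) * (2 ^ s * 2 ^ (3 * s + 16)) ≤ 2 ^ (4 * s + 21) := by
    have : (2 : ℝ) ^ (4 * s + 21) = 32 * (2 ^ s * 2 ^ (3 * s + 16)) := by
      rw [← pow_add, show s + (3 * s + 16) = 4 * s + 16 by ring,
        show 4 * s + 21 = 4 * s + 16 + 5 by ring, pow_add]
      ring
    rw [this]
    have h : (0 : ℝ) < 2 ^ s * 2 ^ (3 * s + 16) := by positivity
    linarith
  have h0 : (0 : ℝ) < 24 * (2 ^ s * 2 ^ (3 * s + 16)) := by positivity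
  have e3 : ((24 : ℝ) * (2 ^ s * 2 ^ (3 * s + 16))) ^ (s * 2) ≤ 2 ^ ((4 * s + 21) * (s * 2)) := by
    have e5 : (2 : ℝ) ^ ((4 * s + 21) * (s * 2)) = (2 ^ (4 * s + 21)) ^ (s * 2) := pow_mul _ _ _
    rw [e5]
    exact pow_le_pow_left₀ h0.le e2 _
  rw [e1, ← pow_mul, ← pow_mul, one_div, inv_pow, inv_mul_eq_div,
    le_div_iff₀ (pow_pos h0 _)]
  calc 64 * (2 : ℝ) ^ ((6 * s + 18) * 2) * (24 * (2 ^ s * 2 ^ (3 * s + 16))) ^ (s * 2)
      ≤ 64 * (2 : ℝ) ^ ((6 * s + 18) * 2) * 2 ^ ((4 * s + 21) * (s * 2)) :=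
        mul_le_mul_of_nonneg_left e3 (by positivity)
    _ = 2 ^ (6 + (6 * s + 18) * 2 + (4 * s + 21) * (s * 2)) := by
        have e6 : (64 : ℝ) = 2 ^ 6 := by norm_num
        rw [e6, ← pow_add, ← pow_add]
    _ ≤ 2 ^ (4 * uu s) := by
        refine pow_le_pow_right₀ one_le_two ?_
        have e7 : 4 * uu s = 32 * (s * s) + 512 * s + 2048 := by
          unfold uu
          ring
        have e8 : 6 + (6 * s + 18) * 2 + (4 * s + 21) * (s * 2) =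
          8 * (s * s) + 54 * s + 42 := by ring
        rw [e7, e8]
        omega

theorem t_NUMN : S_NUMN where
  one := numn_one
  two := numn_two
  three := fun s => by
    refine le_trans (Nat.pow_le_pow_right (by norm_num) (Nat.lt_two_pow_self (n := s)).le) ?_
    exact Nat.pow_le_pow_left (by omega) _

end Pool.Agent.H9x.BF
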