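import Pool.Agent.H9x.BF.Stm2

/-!
# Project BF, piece NUMS: numbers (after BE/NUMS.lean)
-/

set_option autoImplicit false
set_option linter.unusedSectionVars false
set_option linter.unusedVariables false

namespace Pool.Agent.H9x.BF

open Pool.Agent.H9x.BE (th)

private theorem key_le (s k : ℕ) (hk : k ≤ 2 ^ (2 * s + 1)) :
    1 + (k + 4 * k) ≤ 7 * 2 ^ (3 * s + 8) := by
  have h1 : 2 ^ (2 * s + 1) ≤ 2 ^ (3 * s + 8) := Nat.pow_le_pow_right (by norm_num) (by omega)
  have h2 : 1 ≤ 2 ^ (3 * s + 8) := Nat.one_le_two_pow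
  omega

private theorem th_pos (s : ℕ) : 0 < th s := by
  unfold th
  positivity

private theorem th_succ (s : ℕ) : th (s + 1) = th s * (1 / 2) ^ (7 * 2 ^ (3 * s + 8)) := by
  unfold th
  rw [← pow_add]
  congr 1
  have : 3 * (s + 1) + 8 = (3 * s + 8) + 3 := by ring
  rw [this, pow_add]
  ring

private theorem uu_big (s : ℕ) : (3 * s + 12) + 8 ≤ 8 * uu s := by
  have h : 8 * uu s = 64 * (s * s) + 1024 * s + 4096 := by
    unfold uu
    ring
  rw [h]
  omega

theorem t_NUMS : S_NUMS where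
  one := by
    intro s k hk
    rw [le_div_iff₀ (by positivity), le_div_iff₀ (by positivity), le_div_iff₀ (by norm_num)]
    have e : th (s + 1) * 16 ^ k * 2 ^ k * 2 = th (s + 1) * 2 ^ (1 + (k + 4 * k)) := by
      rw [pow_add, pow_add, pow_mul]
      norm_num
      ring
    rw [e, th_succ]
    have hp := th_pos s
    calc th s * (1 / 2) ^ (7 * 2 ^ (3 * s + 8)) * 2 ^ (1 + (k + 4 * k))
        ≤ th s * (1 / 2) ^ (7 * 2 ^ (3 * s + 8)) * 2 ^ (7 * 2 ^ (3 * s + 8)) :=
          mul_le_mul_of_nonneg_left (pow_le_pow_right₀ (by norm_num) (key_le s k hk))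
            (by positivity)
      _ = th s := by
        rw [mul_assoc, ← mul_pow]
        norm_num
  two := by
    intro s
    obtain ⟨n, hn⟩ : ∃ n : ℕ, n = 2 ^ (3 * s + 11) + 10 := ⟨_, rfl⟩
    obtain ⟨x, hx⟩ : ∃ x : ℝ, x = (2 : ℝ) ^ (8 * uu s) / 256 := ⟨_, rfl⟩
    rw [← hx]
    have hxn : (n : ℝ) ≤ x := by
      rw [hx, le_div_iff₀ (by norm_num)]
      have h2 : n ≤ 2 ^ (3 * s + 12) := by
        have e : 2 ^ (3 * s + 12) = 2 * 2 ^ (3 * s + 11) := by rw [← pow_succ']
        have h3 : 2 ^ 11 ≤ 2 ^ (3 * s + 11) := Nat.pow_le_pow_right (by norm_num) (by omega)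
        omega
      have h5 : n * 256 ≤ 2 ^ (8 * uu s) := by
        calc n * 256 ≤ 2 ^ (3 * s + 12) * 256 := Nat.mul_le_mul_right _ h2
          _ = 2 ^ ((3 * s + 12) + 8) := by rw [pow_add 2 (3 * s + 12) 8]; rfl
          _ ≤ 2 ^ (8 * uu s) := Nat.pow_le_pow_right (by norm_num) (uu_big s)
      exact_mod_cast h5
    have hexp : Real.exp (-x) ≤ (1 / 2) ^ n := by
      have h1 : Real.exp (-x) ≤ Real.exp (-(n : ℝ)) := Real.exp_le_exp.2 (by linarith)
      have h2 : Real.exp (-(n : ℝ)) = (Real.exp (-1)) ^ n := by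
        rw [← Real.exp_nat_mul]
        congr 1
        ring
      have h3 : Real.exp (-1) ≤ 1 / 2 := by
        rw [Real.exp_neg, ← one_div]
        apply one_div_le_one_div_of_le (by norm_num)
        have := Real.add_one_le_exp (1 : ℝ)
        linarith
      calc Real.exp (-x) ≤ (Real.exp (-1)) ^ n := by rw [← h2]; exact h1
        _ ≤ (1 / 2) ^ n := pow_le_pow_left₀ (Real.exp_pos _).le h3 n
    have hth : ((1 : ℝ) / 2) ^ n = th (s + 1) / 1024 := by
      unfold th
      rw [hn, pow_add]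
      have e : 3 * (s + 1) + 8 = 3 * s + 11 := by ring
      rw [e]
      norm_num
      ring
    calc 1024 * Real.exp (-x) ≤ 1024 * (1 / 2) ^ n := by gcongr
      _ = th (s + 1) := by rw [hth]; ring
  pos := by
    intro s
    refine ⟨th_pos s, ?_⟩
    unfold th
    exact pow_le_one₀ (by norm_num) (by norm_num)

end Pool.Agent.H9x.BF
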