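import Pool.Agent.H9x.BF.Stm2

/-!
# Project BF, piece PL: the places
-/

set_option autoImplicit false
set_option linter.unusedSectionVars false
set_option linter.unusedVariables false

namespace Pool.Agent.H9x.BF

open Finset H568R2 Pool.Agent.H676 Pool.Agent.NPC Pool.Agent.H620R2.Gauge
  Pool.Agent.H9x.Q Pool.Agent.H622R2 Pool.Agent.TH678.SETH Pool.Agent.TH678.RS

open Pool.Agent.H9x.RT (ml lv HZ lev UU hs Adm isP_of_isPH)

open Pool.Agent.H9x.BE (th Dat ind Sy Ev Fd Av ow Kx Tv Jn cN contN Kh)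

open Pool.Agent.K7x.EQ (Iu m2e va Ig KK mkv IsEQP)

namespace PLx

theorem rgs_inj (u : ℕ) {v v' : Pool.Agent.K7x.EQ.Rg (8 * u * 2) (8 * u) (m2e u) → Bool}
    (h : rgs u v = rgs u v') : v = v' := by
  have h1 := List.ofFn_injective h
  funext t
  have h2 := congrFun h1 (Pool.Agent.K7x.EQ.pos (8 * u * 2) (8 * u) (m2e u) t)
  simpa using h2

theorem rgs_len (u : ℕ) (v : Pool.Agent.K7x.EQ.Rg (8 * u * 2) (8 * u) (m2e u) → Bool) :
    (rgs u v).length = KK (8 * u * 2) (8 * u) (m2e u) := by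
  unfold rgs
  rw [List.length_ofFn]

theorem wd_len' (u : ℕ) (i : Iu u) :
    (wd u i).length = 2 + KK (8 * u * 2) (8 * u) (m2e u) := by
  rcases i with (y | y) | (p | q) <;>
  · simp only [wd, List.length_cons, rgs_len]
    omega

theorem wd_inj (u : ℕ) : Function.Injective (wd u) := by
  intro i j h
  rcases i with (y | y) | (p | q) <;> rcases j with (y' | y') | (p' | q') <;>
    simp only [wd, List.cons.injEq, true_and, false_and, reduceCtorEq] at h
  · obtain ⟨-, -, h1, -, -⟩ := Pool.Agent.K7x.EQ.mkv_inj (rgs_inj u h)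
    rw [h1]
  · obtain ⟨-, -, h1, -, -⟩ := Pool.Agent.K7x.EQ.mkv_inj (rgs_inj u h)
    rw [h1]
  · obtain ⟨-, -, h1, h2, -⟩ := Pool.Agent.K7x.EQ.mkv_inj (rgs_inj u h)
    rw [Prod.ext h1 h2]
  · obtain ⟨-, -, -, -, h1⟩ := Pool.Agent.K7x.EQ.mkv_inj (rgs_inj u h)
    rw [h1]

theorem adr_inj {S : ℕ → Polynomial ℕ} {c c' : ℕ × List Bool} {w w' : List Bool}
    (hw : w.length = La (lev S c)) (hw' : w'.length = La (lev S c'))
    (h : adr S c w = adr S c' w') : c = c' ∧ w = w' := by
  simp only [adr, List.cons.injEq, true_and] at h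
  obtain ⟨h1, h2, h3⟩ := cS_inj h
  have h4 : w.length = w'.length := by rw [hw, hw', h2]
  obtain ⟨h5, h6⟩ := List.append_inj' h3 h4
  exact ⟨Prod.ext h1 h5, h6⟩

theorem pos_len (S : ℕ → Polynomial ℕ) (c : ℕ × List Bool) (i : Co S c) :
    lev S c + 2 < (pos S c i).length := by
  simp only [pos, adr, List.length_cons, length_cS]
  omega

theorem pos_disj (S : ℕ → Polynomial ℕ) (c c' : ℕ × List Bool) (i : Co S c)
    (j : Co S c') (h : pos S c i = pos S c' j) : c = c' :=
  (adr_inj (wd_len' _ i) (wd_len' _ j) h).1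

theorem plev_pos' (S : ℕ → Polynomial ℕ) (c : ℕ × List Bool) (i : Co S c) :
    plev S (pos S c i) = lev S c := by
  classical
  have hex : ∃ (c' : ℕ × List Bool) (i' : Co S c'), pos S c i = pos S c' i' := ⟨c, i, rfl⟩
  unfold plev
  rw [dif_pos hex]
  obtain ⟨i', hi'⟩ := hex.choose_spec
  rw [← pos_disj S c hex.choose i i' hi']

end PLx

theorem t_PL : S_PL where
  adr_inj := fun S c c' w w' hw hw' h => PLx.adr_inj hw hw' h
  wd_len := fun S c i => PLx.wd_len' _ i
  inj := by
    intro S c i j h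
    exact PLx.wd_inj _ (PLx.adr_inj (PLx.wd_len' _ i) (PLx.wd_len' _ j) h).2
  disj := PLx.pos_disj
  lt := PLx.pos_len
  plev_pos := PLx.plev_pos'
  plev_le := by
    intro S q
    by_cases hex : ∃ (c' : ℕ × List Bool) (i' : Co S c'), q = pos S c' i'
    · obtain ⟨c, i, rfl⟩ := hex
      rw [PLx.plev_pos']
      have := PLx.pos_len S c i
      omega
    · unfold plev
      rw [dif_neg hex]
  mem := by
    intro S s n q
    unfold VV
    rw [mem_filter]
    constructor
    · rintro ⟨h1, h2⟩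
      refine ⟨?_, h2⟩
      unfold hs at h1
      rw [mem_biUnion] at h1
      obtain ⟨k, hk, h1⟩ := h1
      rw [mem_image] at h1
      obtain ⟨v, -, rfl⟩ := h1
      rw [List.length_ofFn]
      have := mem_range.1 hk
      omega
    · rintro ⟨h1, h2⟩
      exact ⟨Pool.Agent.H9x.RT.mem_hs h1, h2⟩

end Pool.Agent.H9x.BF
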