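import Pool.Agent.H9x.BF.Stm1

/-!
# Project BF, piece SLR (helper33): the relative slice lemma
-/

set_option autoImplicit false
set_option linter.all false

namespace Pool.Agent.H9x.BF

open Finset H568R2 Pool.Agent.H676 Pool.Agent.H9x.RT Pool.Agent.H9x.BE

open Pool.Agent.K7x.EQ (sgi ssum TS fsum Iu m2e va Ig TS_nonneg TS_const TS_count TS_free TS_split
  ml_zero_split ml_br_mem sgi_cast)

theorem t_SLR : S_SLR := by
  intro I _ _ κ hκ hκ1
  have hc0 : ∀ t : ℕ, (0 : ℝ) ≤ (1 - κ) ^ t := fun t => pow_nonneg (by linarith) t
  have hc1 : ∀ t : ℕ, (1 - κ) ^ t ≤ 1 := fun t => pow_le_one₀ (by linarith) (by linarith)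
  have hconst : ∀ (t : ℕ) (R : Finset I) (s : ℤ) (f : (I → Bool) → Bool), (∃ c, ∀ x, f x = c) →
      (1 - κ) ^ t * (TS R s (fun _ => 1) * ml (br f) 0) ≤ TS R s (br f) := by
    rintro t R s f ⟨c, hc⟩
    have h1 : br f = fun _ => (if c then (1 : ℝ) else 0) := by
      funext x; unfold br; rw [hc]
    rw [h1, ml_const, TS_const R s (if c then (1 : ℝ) else 0)]
    refine mul_le_of_le_one_left ?_ (hc1 t)
    refine mul_nonneg (TS_nonneg fun _ => zero_le_one) (by split_ifs <;> norm_num)
  intro t
  induction t with
  | zero => intro R s f h _ _; exact hconst 0 R s f h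
  | succ t ih =>
    intro R s f h hR hs
    rcases h with h | ⟨i, h⟩
    · exact hconst _ R s f h
    · have hN : 0 ≤ TS R s (fun _ : I → Bool => (1 : ℝ)) := TS_nonneg fun _ => zero_le_one
      by_cases hi : i ∈ R
      · have hRc : (R.erase i).card = R.card - 1 := card_erase_of_mem hi
        have hR1 : 1 ≤ R.card := by omega
        have hRr : ((R.erase i).card : ℝ) = R.card - 1 := by
          rw [hRc]; push_cast [hR1]; ring
        have hRpos : (0 : ℝ) < R.card := by exact_mod_cast hR1
        have habs : ∀ b : Bool, |((s - sgi b : ℤ) : ℝ)| ≤ |(s : ℝ)| + 1 := by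
          intro b
          push_cast
          rw [sgi_cast]
          refine (abs_sub (s : ℝ) (sg b)).trans ?_
          rw [abs_sg]
        have h1 : ∀ b : Bool, (1 - κ) ^ t * (TS (R.erase i) (s - sgi b) (fun _ => 1) *
            ml (br fun a => f (Function.update a i b)) 0) ≤
            TS (R.erase i) (s - sgi b) (br fun a => f (Function.update a i b)) := by
          intro b
          refine ih _ _ _ (h b) (by omega) ?_
          rw [hRr]
          have := habs b
          push_cast at hs
          linarith
        have hsR : |(s : ℝ) / R.card| ≤ κ := by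
          rw [abs_div, abs_of_pos hRpos, div_le_iff₀ hRpos]
          push_cast at hs ⊢
          have e2 : 0 ≤ κ * ((t : ℝ) + 1) := by positivity
          have e3 : (0 : ℝ) ≤ t := by positivity
          nlinarith
        have h2 : ∀ b : Bool, (1 - κ) * TS R s (fun _ => 1) ≤
            TS (R.erase i) (s - sgi b) (fun _ => (1 : ℝ)) := by
          intro b
          have h3 := TS_count hi s b
          have h4 : TS (R.erase i) (s - sgi b) (fun _ => (1 : ℝ)) =
              (1 + sg b * (s / R.card)) * TS R s (fun _ => 1) := by
            field_simp
            linarith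
          rw [h4]
          refine mul_le_mul_of_nonneg_right ?_ hN
          have h5 : |sg b * ((s : ℝ) / R.card)| ≤ κ := by
            rw [abs_mul, abs_sg, one_mul]; exact hsR
          have := (abs_le.1 h5).1
          linarith
        rw [TS_split hi s (br f), ml_zero_split i (br f)]
        have h3 : ∀ b : Bool, (1 - κ) ^ (t + 1) * (TS R s (fun _ => 1) *
            ml (fun a => br f (Function.update a i b)) 0) ≤
            TS (R.erase i) (s - sgi b) (fun a => br f (Function.update a i b)) := by
          intro b
          refine le_trans ?_ (h1 b)
          have h4 : (1 - κ) ^ (t + 1) * (TS R s (fun _ => 1) *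
            ml (fun a => br f (Function.update a i b)) 0) =
            (1 - κ) ^ t * (((1 - κ) * TS R s (fun _ => 1)) *
            ml (br fun a => f (Function.update a i b)) 0) := by
            have e1 : (fun a => br f (Function.update a i b)) =
              br fun a => f (Function.update a i b) := rfl
            rw [e1]; ring
          rw [h4]
          exact mul_le_mul_of_nonneg_left (mul_le_mul_of_nonneg_right (h2 b) (ml_br_mem _).1)
            (hc0 t)
        have h5 := sum_le_sum fun (b : Bool) (_ : b ∈ univ) => h3 b
        rw [← mul_sum, ← mul_sum] at h5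
        linarith
      · have h1 : ∀ b : Bool, (1 - κ) ^ (t + 1) * (TS R s (fun _ => 1) *
            ml (fun a => br f (Function.update a i b)) 0) ≤
            TS R s (fun a => br f (Function.update a i b)) := by
          intro b
          have h2 := ih R s (fun a => f (Function.update a i b)) (h b) (by omega) (by
            push_cast at hs
            nlinarith)
          refine le_trans ?_ h2
          rw [pow_succ]
          have e1 : (fun a => br f (Function.update a i b)) =
              br fun a => f (Function.update a i b) := rfl
          rw [e1]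
          refine mul_le_mul_of_nonneg_right ?_ (mul_nonneg hN (ml_br_mem _).1)
          exact mul_le_of_le_one_right (hc0 t) (by linarith)
        rw [TS_free hi s (br f), ml_zero_split i (br f)]
        have h5 := sum_le_sum fun (b : Bool) (_ : b ∈ univ) => h1 b
        rw [← mul_sum, ← mul_sum] at h5
        linarith

end Pool.Agent.H9x.BF
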