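import Pool.Agent.H9x.BF.Stm2

set_option autoImplicit false
set_option linter.unusedSectionVars false
set_option linter.unusedVariables false

namespace Pool.Agent.H9x.BF

open Finset H568R2 Pool.Agent.H676 Pool.Agent.NPC Pool.Agent.H620R2.Gauge
  Pool.Agent.H9x.Q Pool.Agent.H622R2 Pool.Agent.TH678.SETH Pool.Agent.TH678.RS

open Pool.Agent.H622R2.Exp hiding Dat

open Pool.Agent.TH678.ETH hiding th

open Pool.Agent.H9x.RT (ml lv HZ lev UU hs Adm isP_of_isPH mem_UU card_lev)

open Pool.Agent.H9x.BE (th Dat ind Sy Ev Fd Av ow Kx Tv Jn cN contN Kh S_AVL S_AVI S_KX S_KHN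
  S_CARDU S_RUNDT S_CONJ)

open Pool.Agent.K7x.EQ (Iu m2e va Ig KK mkv IsEQP)

attribute [local irreducible] uu

theorem STEP_Yes {S : ℕ → Polynomial ℕ} {D D' : Dat} {c : ℕ × List Bool}
    (h : ∀ i, D' (pos S c i) = D (pos S c i)) : YesD S D' c ↔ YesD S D c := by
  unfold YesD
  rw [show (fun i => D' (pos S c i)) = fun i => D (pos S c i) from funext h]

theorem STEP_No {S : ℕ → Polynomial ℕ} {D D' : Dat} {c : ℕ × List Bool}
    (h : ∀ i, D' (pos S c i) = D (pos S c i)) : NoD S D' c ↔ NoD S D c := by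
  unfold NoD
  rw [show (fun i => D' (pos S c i)) = fun i => D (pos S c i) from funext h]

theorem Av_sum {P ι : Type} [DecidableEq P] (V : Finset P) (B : Finset ι)
    (G : ι → (P → Bool) → ℝ) (D : P → Bool) :
    Av V (fun D => ∑ β ∈ B, G β D) D = ∑ β ∈ B, Av V (G β) D := by
  unfold Av
  rw [sum_comm, sum_div]

theorem t_STEP (hAVL : S_AVL) (hPL : S_PL) (hNUMS : S_NUMS) (hFIXL : S_FIXL) : S_STEP := by
  classical
  intro Y s R hT hFd D b hOk
  obtain ⟨hTell, n₀, hn₀⟩ := hOk
  obtain ⟨n₁, hn₁⟩ := hFd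
  -- the blocks of level `s`
  let C : Finset (ℕ × List Bool) := UU Y.S s s
  have hC : ∀ c, c ∈ C ↔ lev Y.S c = s := by
    intro c
    show c ∈ UU Y.S s s ↔ _
    rw [mem_UU Y.big]
    omega
  have hCc : C.card ≤ 2 ^ (2 * s + 1) := by
    have h1 := card_lev Y.big s s s
    have h2 : (UU Y.S s s).filter (fun c => lev Y.S c = s) = C := by
      refine filter_true_of_mem fun c hc => (hC c).1 hc
    rwa [h2] at h1
  -- the length
  let m : ℕ := C.sup fun c => univ.sup fun i => (pos Y.S c i).length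
  have hm : ∀ c ∈ C, ∀ i, (pos Y.S c i).length ≤ m := by
    intro c hc i
    have h1 : (pos Y.S c i).length ≤ univ.sup fun i => (pos Y.S c i).length :=
      le_sup (f := fun i => (pos Y.S c i).length) (mem_univ i)
    exact h1.trans (le_sup (f := fun c => univ.sup fun i => (pos Y.S c i).length) hc)
  obtain ⟨n, hnn₀, hnn₁, hns, hnm⟩ : ∃ n, n₀ ≤ n ∧ n₁ ≤ n ∧ 2 ^ s ≤ n ∧ m ≤ n :=
    ⟨max (max n₀ n₁) (max (2 ^ s) m), by omega, by omega, by omega, by omega⟩
  -- the pigeonhole principle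
  let bb : Finset (ℕ × List Bool) → ℕ × List Bool → Bool :=
    fun β c => if c ∈ C then decide (c ∈ β) else b c
  have hpig : ∀ D : Dat, ind (Ev Y b s R) D ≤
      ∑ β ∈ C.powerset, ind (Ev Y (bb β) (s + 1) R) D := by
    intro D
    have hnn : ∀ β ∈ C.powerset, 0 ≤ ind (Ev Y (bb β) (s + 1) R) D := by
      intro β _
      unfold ind
      split_ifs <;> norm_num
    by_cases hD : Ev Y b s R D
    · have hβ : C.filter (fun c => Y.tr c D) ∈ C.powerset := mem_powerset.2 (filter_subset _ _)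
      refine le_trans ?_ (single_le_sum hnn hβ)
      have hE : Ev Y (bb (C.filter fun c => Y.tr c D)) (s + 1) R D := by
        refine ⟨fun c hc => ?_, hD.2⟩
        by_cases hcC : c ∈ C
        · show _ ↔ (if c ∈ C then decide (c ∈ C.filter fun c => Y.tr c D) else b c) = true
          rw [if_pos hcC, decide_eq_true_eq, mem_filter]
          exact ⟨fun h => ⟨hcC, h⟩, fun h => h.2⟩
        · show _ ↔ (if c ∈ C then decide (c ∈ C.filter fun c => Y.tr c D) else b c) = true
          rw [if_neg hcC]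
          refine hD.1 c ?_
          have : lev Y.S c ≠ s := fun h => hcC ((hC c).2 h)
          omega
      unfold ind
      rw [if_pos hD, if_pos hE]
    · unfold ind at hnn ⊢
      rw [if_neg hD]
      exact sum_nonneg hnn
  have hex : ∃ β ∈ C.powerset, th s / 2 / 2 ^ C.card ≤
      Av (VV Y.S s n) (ind (Ev Y (bb β) (s + 1) R)) D := by
    by_contra hcon
    push Not at hcon
    have h1 : th s / 2 ≤ ∑ β ∈ C.powerset, Av (VV Y.S s n) (ind (Ev Y (bb β) (s + 1) R)) D := by
      rw [← Av_sum]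
      exact (hn₀ n hnn₀).trans (hAVL.mono _ _ _ _ _ fun D' _ => hpig D')
    have h2 : ∑ β ∈ C.powerset, Av (VV Y.S s n) (ind (Ev Y (bb β) (s + 1) R)) D <
        ∑ β ∈ C.powerset, th s / 2 / 2 ^ C.card :=
      sum_lt_sum_of_nonempty ⟨∅, empty_mem_powerset _⟩ hcon
    rw [sum_const, card_powerset, nsmul_eq_mul] at h2
    have h3 : ((2 ^ C.card : ℕ) : ℝ) * (th s / 2 / 2 ^ C.card) = th s / 2 := by
      push_cast
      field_simp
    rw [h3] at h2
    linarith
  obtain ⟨β, -, hβ⟩ := hex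
  set b' := bb β with hb'
  have hb'off : ∀ c, c ∉ C → b' c = b c := fun c hc => if_neg hc
  set E := Ev Y b' (s + 1) R with hE
  -- the splitting of the places
  let W : Finset (List Bool) := C.biUnion fun c => univ.image (pos Y.S c)
  have hW : ∀ q, q ∈ W ↔ ∃ c ∈ C, ∃ i, pos Y.S c i = q := by
    intro q
    show q ∈ C.biUnion (fun c => univ.image (pos Y.S c)) ↔ _
    rw [mem_biUnion]
    refine exists_congr fun c => and_congr_right fun _ => ?_
    rw [mem_image]
    simp
  let Fr : Finset (List Bool) := (VV Y.S s n).filter fun q => plev Y.S q = s ∧ q ∉ W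
  have hFr : ∀ q, q ∈ Fr ↔ q.length ≤ n ∧ plev Y.S q = s ∧ q ∉ W := by
    intro q
    show q ∈ (VV Y.S s n).filter _ ↔ _
    rw [mem_filter, hPL.mem]
    constructor
    · rintro ⟨⟨h1, h2⟩, h3, h4⟩
      exact ⟨h1, h3, h4⟩
    · rintro ⟨h1, h3, h4⟩
      exact ⟨⟨h1, h3.ge⟩, h3, h4⟩
  have hsplit : VV Y.S s n = W ∪ (Fr ∪ VV Y.S (s + 1) n) := by
    ext q
    rw [mem_union, mem_union, hPL.mem, hPL.mem, hFr]
    constructor
    · rintro ⟨h1, h2⟩
      by_cases hqW : q ∈ W
      · exact Or.inl hqW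
      · refine Or.inr ?_
        rcases Nat.eq_or_lt_of_le h2 with h | h
        · exact Or.inl ⟨h1, h.symm, hqW⟩
        · exact Or.inr ⟨h1, h⟩
    · rintro (h | ⟨h1, h2, -⟩ | ⟨h1, h2⟩)
      · obtain ⟨c, hc, i, rfl⟩ := (hW q).1 h
        refine ⟨(hm c hc i).trans hnm, ?_⟩
        rw [hPL.plev_pos, (hC c).1 hc]
      · exact ⟨h1, h2.ge⟩
      · exact ⟨h1, by omega⟩
  rw [hsplit] at hβ
  have hposV : ∀ c ∈ C, ∀ i, pos Y.S c i ∉ Fr ∪ VV Y.S (s + 1) n := by
    intro c hc i h
    rw [mem_union, hFr, hPL.mem, hPL.plev_pos, (hC c).1 hc] at h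
    rcases h with h | h
    · exact h.2.2 ((hW _).2 ⟨c, hc, i, rfl⟩)
    · omega
  obtain ⟨D', hD', hyn, hm'⟩ := hFIXL Y s R hT C (fun c hc => (hC c).1 hc) b'
    (Fr ∪ VV Y.S (s + 1) n) hposV D (th s / 2 / 2 ^ C.card) (hNUMS.one s C.card hCc) hβ
  have hth := (hNUMS.pos (s + 1)).1
  have hm2 : th (s + 1) ≤ Av (Fr ∪ VV Y.S (s + 1) n) (ind E) D' := by
    have h1 := (hNUMS.one s C.card hCc).trans hm'
    exact h1
  have hdisj : Disjoint Fr (VV Y.S (s + 1) n) := by
    rw [Finset.disjoint_left]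
    intro q h1 h2
    rw [hFr] at h1
    rw [hPL.mem] at h2
    omega
  rw [hAVL.union _ _ _ _ _ hdisj] at hm2
  obtain ⟨D'', hD'', hm3⟩ := hAVL.ex _ _ _ _ _ hm2
  -- the places
  have hlow : ∀ q, plev Y.S q < s → D'' q = D q := by
    intro q hq
    have h1 : q ∉ Fr := by
      rw [hFr]
      omega
    rw [hD'' q h1]
    refine hD' q fun c hc i hqi => ?_
    rw [hqi, hPL.plev_pos, (hC c).1 hc] at hq
    omega
  refine ⟨D'', b', ⟨hlow, fun c hc => hb'off c fun h => ?_⟩, ?_, n, ?_⟩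
  · rw [hC] at h
    omega
  · intro c hc
    by_cases hcC : c ∈ C
    · have hsame : ∀ i, D'' (pos Y.S c i) = D' (pos Y.S c i) := by
        intro i
        refine hD'' _ fun h => ?_
        rw [hFr] at h
        exact h.2.2 ((hW _).2 ⟨c, hcC, i, rfl⟩)
      rw [STEP_Yes hsame, STEP_No hsame]
      exact hyn c hcC
    · have hcs : lev Y.S c < s := by
        have : lev Y.S c ≠ s := fun h => hcC ((hC c).2 h)
        omega
      have hsame : ∀ i, D'' (pos Y.S c i) = D (pos Y.S c i) := by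
        intro i
        refine hlow _ ?_
        rw [hPL.plev_pos]
        exact hcs
      rw [STEP_Yes hsame, STEP_No hsame, hb'off c hcC]
      exact hTell c hcs
  · intro n' hn'
    have hsub : VV Y.S (s + 1) n' = VV Y.S (s + 1) n ∪ (VV Y.S (s + 1) n' \ VV Y.S (s + 1) n) := by
      rw [union_sdiff_of_subset]
      intro q hq
      rw [hPL.mem] at hq ⊢
      omega
    rw [hsub, hAVL.union _ _ _ _ _ disjoint_sdiff]
    have hind : (fun D₁ => Av (VV Y.S (s + 1) n' \ VV Y.S (s + 1) n) (ind E) D₁) = ind E := by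
      funext D₁
      refine hAVL.indep _ _ _ _ fun D₂ hD₂ => ?_
      have hag : ∀ q : List Bool, q.length ≤ n → D₂ q = D₁ q := by
        intro q hq
        refine hD₂ q fun h => ?_
        rw [mem_sdiff, hPL.mem, hPL.mem] at h
        exact h.2 ⟨hq, h.1.2⟩
      have hiff : E D₂ ↔ E D₁ := by
        refine and_congr ?_ ?_
        · refine forall_congr' fun c => forall_congr' fun hc => ?_
          rw [Y.loc c D₂ D₁ fun q hq => hag q (hq.trans ?_)]
          refine le_trans ?_ hns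
          exact Nat.pow_le_pow_right (by norm_num) (by omega)
        · exact hn₁ D₂ D₁ fun q hq => hag q (hq.trans hnn₁)
      unfold ind
      rw [if_congr hiff rfl rfl]
    rw [hind]
    exact hm3

end Pool.Agent.H9x.BF
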