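import Pool.Agent.H9x.BF.Stm1

/-!
# Project BF, piece STN (helper33): number of stars and sum of the fixed signs
-/

set_option autoImplicit false
set_option linter.all false

namespace Pool.Agent.H9x.BF

open Finset H568R2 Pool.Agent.H676 Pool.Agent.H9x.RT Pool.Agent.H9x.BE

open Pool.Agent.K7x.EQ (sgi ssum TS fsum Iu m2e va Ig sgi_cast)

theorem StnP.Ex_prod {I A : Type*} [Fintype I] [DecidableEq I] [Fintype A] (w F : A → ℝ) :
    Ex w (fun ω : I → A => ∏ i, F (ω i)) = (∑ c, w c * F c) ^ Fintype.card I := by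
  classical
  unfold Ex
  have h1 : ∀ ω : I → A, (∏ i, w (ω i)) * ∏ i, F (ω i) = ∏ i, (w (ω i) * F (ω i)) := fun ω =>
    prod_mul_distrib.symm
  rw [sum_congr rfl fun ω _ => h1 ω]
  have h2 := Finset.prod_univ_sum (fun _ : I => (univ : Finset A)) (fun _ c => w c * F c)
  rw [Fintype.piFinset_univ] at h2
  rw [← h2, prod_const, card_univ]

open Classical in
theorem t_STN : S_STN := by
  intro I _ _ p L hp hp1 hL hM
  have hMr : (1 : ℝ) ≤ Fintype.card I := by exact_mod_cast hM
  set M : ℝ := (Fintype.card I : ℝ) with hMd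
  have hM0 : 0 < M := by linarith
  have hwq0 : ∀ a, 0 ≤ wq p a := wq_nonneg hp.le hp1
  -- the sum
  have hsum : ∀ z : ℝ, Ex (wq p) (fun ρ : Restr I => Real.exp (z * ((fsum ρ : ℤ) : ℝ))) ≤
      Real.exp (M * (z ^ 2 / 2)) := by
    intro z
    obtain ⟨F, hF⟩ : ∃ F : Option Bool → ℝ, F = fun a => Real.exp (z * (match a with
          | none => (0 : ℝ) | some b => sg b)) := ⟨_, rfl⟩
    have h1 : (fun ρ : Restr I => Real.exp (z * ((fsum ρ : ℤ) : ℝ))) =
        fun ρ => ∏ i, F (ρ i) := by
      funext ρ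
      rw [hF]
      simp only
      rw [← Real.exp_sum]
      congr 1
      unfold fsum
      push_cast
      rw [mul_sum]
      refine sum_congr rfl fun i _ => ?_
      cases ρ i with
      | none => simp
      | some b => simp only; rw [← sgi_cast]
    rw [h1]
    have h0 := StnP.Ex_prod (I := I) (wq p) F
    rw [show Ex (wq p) (fun ρ : Restr I => ∏ i, F (ρ i)) = _ from h0, Fintype.sum_option,
      Fintype.sum_bool]
    have h2 : wq p none * F none + (wq p (some true) * F (some true) +
        wq p (some false) * F (some false)) = p + (1 - p) * Real.cosh z := by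
      rw [hF, Real.cosh_eq]
      simp [wq, sg]
      ring
    have h3 : p + (1 - p) * Real.cosh z ≤ Real.exp (z ^ 2 / 2) := by
      have h4 := Real.cosh_le_exp_half_sq z
      have h5 : 1 ≤ Real.cosh z := Real.one_le_cosh z
      nlinarith
    rw [hMd, Real.exp_nat_mul, h2]
    refine pow_le_pow_left₀ ?_ h3 _
    have h5 : 1 ≤ Real.cosh z := Real.one_le_cosh z
    nlinarith
  -- the stars
  have hstar : Ex (wq p) (fun ρ : Restr I => Real.exp (-(Real.log 2) * ((Pool.Agent.K7x.EQ.stars ρ).card : ℝ))) ≤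
      Real.exp (-(p * M / 2)) := by
    obtain ⟨F, hF⟩ : ∃ F : Option Bool → ℝ, F = fun a => if a = none then (1 : ℝ) / 2 else 1 :=
      ⟨_, rfl⟩
    have h1 : (fun ρ : Restr I => Real.exp (-(Real.log 2) * ((Pool.Agent.K7x.EQ.stars ρ).card : ℝ))) =
        fun ρ => ∏ i, F (ρ i) := by
      funext ρ
      rw [hF]
      simp only
      rw [prod_ite, prod_const, prod_const_one, mul_one, mul_comm, Real.exp_nat_mul, Real.exp_neg,
        Real.exp_log (by norm_num : (0 : ℝ) < 2)]
      unfold Pool.Agent.K7x.EQ.stars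
      rw [one_div]
    rw [h1]
    have h0 := StnP.Ex_prod (I := I) (wq p) F
    rw [show Ex (wq p) (fun ρ : Restr I => ∏ i, F (ρ i)) = _ from h0, Fintype.sum_option,
      Fintype.sum_bool]
    have h2 : wq p none * F none + (wq p (some true) * F (some true) +
        wq p (some false) * F (some false)) = 1 - p / 2 := by
      rw [hF]
      simp [wq]
      ring
    rw [h2]
    have h3 : 1 - p / 2 ≤ Real.exp (-(p / 2)) := by
      have := Real.add_one_le_exp (-(p / 2))
      linarith
    have h4 : Real.exp (-(p * M / 2)) = Real.exp (-(p / 2)) ^ Fintype.card I := by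
      rw [← Real.exp_nat_mul]; congr 1; rw [hMd]; ring
    rw [h4]
    exact pow_le_pow_left₀ (by linarith) h3 _
  -- together
  have hb : Ex (wq p) (fun ρ : Restr I => if p * Fintype.card I / 2 ≤ ((Pool.Agent.K7x.EQ.stars ρ).card : ℝ) ∧
      |((fsum ρ : ℤ) : ℝ)| ≤ L then (0 : ℝ) else 1) ≤
      Ex (wq p) (fun ρ : Restr I => (Real.exp (-(L / M * L)) *
          Real.exp (L / M * ((fsum ρ : ℤ) : ℝ)) +
        Real.exp (-(L / M * L)) * Real.exp (-(L / M) * ((fsum ρ : ℤ) : ℝ))) +
        Real.exp (Real.log 2 * (p * M / 2)) *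
          Real.exp (-(Real.log 2) * ((Pool.Agent.K7x.EQ.stars ρ).card : ℝ))) := by
    refine Ex_mono hwq0 fun ρ => ?_
    have hz : 0 ≤ L / M := by positivity
    have e1 : 0 ≤ Real.exp (-(L / M * L)) * Real.exp (L / M * ((fsum ρ : ℤ) : ℝ)) := by positivity
    have e2 : 0 ≤ Real.exp (-(L / M * L)) * Real.exp (-(L / M) * ((fsum ρ : ℤ) : ℝ)) := by
      positivity
    have e3 : 0 ≤ Real.exp (Real.log 2 * (p * M / 2)) *
          Real.exp (-(Real.log 2) * ((Pool.Agent.K7x.EQ.stars ρ).card : ℝ)) := by positivity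
    split_ifs with h
    · linarith
    · rw [not_and_or, not_le, not_le] at h
      rcases h with h | h
      · have h3 : 1 ≤ Real.exp (Real.log 2 * (p * M / 2)) *
          Real.exp (-(Real.log 2) * ((Pool.Agent.K7x.EQ.stars ρ).card : ℝ)) := by
          rw [← Real.exp_add]
          apply Real.one_le_exp
          have h4 : 0 < Real.log 2 := Real.log_pos (by norm_num)
          rw [← hMd] at h
          nlinarith
        linarith
      · rcases lt_abs.1 h with h | h
        · have h3 : 1 ≤ Real.exp (-(L / M * L)) * Real.exp (L / M * ((fsum ρ : ℤ) : ℝ)) := by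
            rw [← Real.exp_add]
            apply Real.one_le_exp
            nlinarith
          linarith
        · have h3 : 1 ≤ Real.exp (-(L / M * L)) * Real.exp (-(L / M) * ((fsum ρ : ℤ) : ℝ)) := by
            rw [← Real.exp_add]
            apply Real.one_le_exp
            nlinarith
          linarith
  refine hb.trans ?_
  rw [Ex_add, Ex_add, Ex_smul, Ex_smul, Ex_smul]
  have k1 : Real.exp (-(L / M * L)) * Ex (wq p) (fun ρ : Restr I =>
      Real.exp (L / M * ((fsum ρ : ℤ) : ℝ))) ≤ Real.exp (-(L ^ 2 / (2 * M))) := by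
    refine (mul_le_mul_of_nonneg_left (hsum (L / M)) (Real.exp_pos _).le).trans (le_of_eq ?_)
    rw [← Real.exp_add]
    congr 1
    field_simp
    ring
  have k2 : Real.exp (-(L / M * L)) * Ex (wq p) (fun ρ : Restr I =>
      Real.exp (-(L / M) * ((fsum ρ : ℤ) : ℝ))) ≤ Real.exp (-(L ^ 2 / (2 * M))) := by
    refine (mul_le_mul_of_nonneg_left (hsum (-(L / M))) (Real.exp_pos _).le).trans (le_of_eq ?_)
    rw [← Real.exp_add]
    congr 1
    field_simp
    ring
  have k3 : Real.exp (Real.log 2 * (p * M / 2)) * Ex (wq p) (fun ρ : Restr I =>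
      Real.exp (-(Real.log 2) * ((Pool.Agent.K7x.EQ.stars ρ).card : ℝ))) ≤ Real.exp (-(p * M / 8)) := by
    refine (mul_le_mul_of_nonneg_left hstar (Real.exp_pos _).le).trans ?_
    rw [← Real.exp_add]
    apply Real.exp_le_exp.2
    have h4 : Real.log 2 ≤ 3 / 4 := by
      have := Real.log_two_lt_d9; linarith
    have h5 : 0 < p * M := by positivity
    nlinarith
  linarith

end Pool.Agent.H9x.BF
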