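import Pool.Agent.H9x.BF.Stm1

/-! # Project BF, piece TAILV: the tail of the final rounding (helper15) -/

set_option autoImplicit false
set_option linter.unusedSectionVars false
set_option linter.unusedVariables false

namespace Pool.Agent.H9x.BF

open Finset H568R2 Pool.Agent.H676 Pool.Agent.H9x.RT Pool.Agent.H9x.BE

/-- the two halves -/
theorem TAILV_ml {X : Type} [Fintype X] [DecidableEq X] (F : (X ⊕ X → Bool) → ℝ)
    (v : X ⊕ X → ℝ) :
    ml F v = ml (fun w : X → Bool => ml (fun u : X → Bool => F (Sum.elim u w))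
      (fun x => v (.inl x))) (fun x => v (.inr x)) := by
  simp only [ml_eq]
  rw [← (Equiv.sumArrowEquivProdArrow X X Bool).symm.sum_comp, Fintype.sum_prod_type, sum_comm]
  refine sum_congr rfl fun w _ => ?_
  rw [sum_mul]
  refine sum_congr rfl fun u _ => ?_
  rw [Fintype.prod_sum_type]
  have h : (Equiv.sumArrowEquivProdArrow X X Bool).symm (u, w) = Sum.elim u w := rfl
  rw [h]
  simp only [Sum.elim_inl, Sum.elim_inr]
  ring

theorem TAILV_prod {I : Type*} [Fintype I] [DecidableEq I] (g : I → Bool → ℝ) (v : I → ℝ) :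
    ml (fun a => ∏ i, g i (a i)) v =
      ∏ i, (g i true * ((1 - v i) / 2) + g i false * ((1 + v i) / 2)) := by
  rw [ml_eq]
  have h1 : ∀ a : I → Bool, (∏ i, g i (a i)) * ∏ i, ((1 + sg (a i) * v i) / 2) =
      ∏ i, (g i (a i) * ((1 + sg (a i) * v i) / 2)) := fun a => by rw [prod_mul_distrib]
  rw [sum_congr rfl fun a _ => h1 a, RT.sum_prod (fun i b => g i b * ((1 + sg b * v i) / 2))]
  refine prod_congr rfl fun i _ => ?_
  rw [Fintype.sum_bool, sg_true, sg_false]
  ring

theorem TAILV_exp (y : ℝ) : Real.exp y ≤ y + Real.exp (y ^ 2) := by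
  have h0 : y ^ 2 + 1 ≤ Real.exp (y ^ 2) := Real.add_one_le_exp _
  rcases le_or_gt |y| 1 with h | h
  · have h1 := Real.abs_exp_sub_one_sub_id_le h
    have h2 := (abs_le.1 h1).2
    linarith
  · rcases lt_abs.1 h with h1 | h1
    · have h2 : Real.exp y ≤ Real.exp (y ^ 2) := Real.exp_le_exp.2 (by nlinarith)
      linarith
    · have h2 : Real.exp y ≤ 1 := Real.exp_le_one_iff.2 (by linarith)
      nlinarith

theorem TAILV_hoeff {m : ℝ} (hm : |m| ≤ 1) (x : ℝ) :
    Real.exp (x * (sg true - m)) * ((1 - m) / 2) + Real.exp (x * (sg false - m)) * ((1 + m) / 2) ≤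
      Real.exp (4 * x ^ 2) := by
  obtain ⟨h1, h2⟩ := abs_le.1 hm
  rw [sg_true, sg_false]
  have e1 : Real.exp (x * (-1 - m)) ≤ x * (-1 - m) + Real.exp (4 * x ^ 2) := by
    refine (TAILV_exp _).trans (by
      have : (x * (-1 - m)) ^ 2 ≤ 4 * x ^ 2 := by
        have h3 : (-1 - m) ^ 2 ≤ 4 := by nlinarith
        nlinarith [sq_nonneg x]
      have := Real.exp_le_exp.2 this
      linarith)
  have e2 : Real.exp (x * (1 - m)) ≤ x * (1 - m) + Real.exp (4 * x ^ 2) := by
    refine (TAILV_exp _).trans (by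
      have : (x * (1 - m)) ^ 2 ≤ 4 * x ^ 2 := by
        have h3 : (1 - m) ^ 2 ≤ 4 := by nlinarith
        nlinarith [sq_nonneg x]
      have := Real.exp_le_exp.2 this
      linarith)
  have f1 := mul_le_mul_of_nonneg_right e1 (by linarith : (0:ℝ) ≤ (1 - m) / 2)
  have f2 := mul_le_mul_of_nonneg_right e2 (by linarith : (0:ℝ) ≤ (1 + m) / 2)
  have e : (x * (-1 - m) + Real.exp (4 * x ^ 2)) * ((1 - m) / 2) +
      (x * (1 - m) + Real.exp (4 * x ^ 2)) * ((1 + m) / 2) = Real.exp (4 * x ^ 2) := by ring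
  linarith

theorem TAILV_ml_exp {I : Type*} [Fintype I] [DecidableEq I] (c v : I → ℝ)
    (hv : ∀ i, |v i| ≤ 1) :
    ml (fun a => Real.exp (∑ i, c i * (sg (a i) - v i))) v ≤ Real.exp (4 * ∑ i, c i ^ 2) := by
  have h1 : (fun a : I → Bool => Real.exp (∑ i, c i * (sg (a i) - v i))) =
      fun a => ∏ i, (fun i b => Real.exp (c i * (sg b - v i))) i (a i) := by
    funext a
    rw [Real.exp_sum]
  rw [h1, TAILV_prod (fun i b => Real.exp (c i * (sg b - v i))), mul_sum, Real.exp_sum]
  refine prod_le_prod (fun i _ => ?_) fun i _ => TAILV_hoeff (hv i) (c i)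
  obtain ⟨h2, h3⟩ := abs_le.1 (hv i)
  have e1 : (0:ℝ) ≤ (1 - v i) / 2 := by linarith
  have e2 : (0:ℝ) ≤ (1 + v i) / 2 := by linarith
  positivity

/-- sum of the squares for the second step -/
theorem TAILV_sq {X : Type} [Fintype X] [DecidableEq X] {H : X → X → ℝ} {γ : ℝ}
    (hH : Orth H γ) (v : X → ℝ) :
    ∑ y, (∑ x, H x y * v x) ^ 2 = ∑ x, v x ^ 2 := by
  have h1 : ∀ y, (∑ x, H x y * v x) ^ 2 = ∑ x, ∑ x', (H x y * H x' y) * (v x * v x') := by
    intro y
    rw [sq, sum_mul_sum]
    refine sum_congr rfl fun x _ => sum_congr rfl fun x' _ => by ring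
  rw [sum_congr rfl fun y _ => h1 y, sum_comm]
  refine sum_congr rfl fun x _ => ?_
  rw [sum_comm]
  have h2 : ∀ x', ∑ y, (H x y * H x' y) * (v x * v x') = (if x = x' then 1 else 0) * (v x * v x') := by
    intro x'
    rw [← sum_mul, hH.orth x x']
  rw [sum_congr rfl fun x' _ => h2 x']
  simp only [ite_mul, one_mul, zero_mul]
  rw [sum_ite_eq univ x, if_pos (mem_univ _)]
  ring

open Classical in
theorem t_TAILV : S_TAILV := by
  intro X _ _ _ H γ η hH hη v hv
  have hN : (0 : ℝ) < Fintype.card X := by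
    have := Fintype.card_pos (α := X)
    positivity
  obtain ⟨N, hNdef⟩ : ∃ N : ℝ, N = (Fintype.card X : ℝ) := ⟨_, rfl⟩
  rw [← hNdef] at hN ⊢
  -- the coefficients
  set c : (X → Bool) → X → ℝ := fun t x => (∑ y, H x y * sg (t y)) / N with hc
  set d : X → ℝ := fun y => (∑ x, H x y * v (.inl x)) / N with hd
  set A : (X ⊕ X → Bool) → ℝ := fun a => ∑ x, c (fun y => a (.inr y)) x * (sg (a (.inl x)) - v (.inl x))
    with hA
  set B : (X ⊕ X → Bool) → ℝ := fun a => ∑ y, d y * (sg (a (.inr y)) - v (.inr y)) with hB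
  have hsplit : ∀ a, Fo H a - ml (Fo H) v = A a + B a := by
    intro a
    rw [ml_Fo, hA, hB, hc, hd]
    unfold Fo
    rw [← hNdef]
    simp only
    have e1 : ∑ x, (∑ y, H x y * sg (a (.inr y))) / N * (sg (a (.inl x)) - v (.inl x)) =
        (∑ x, ∑ y, H x y * (sg (a (.inl x)) * sg (a (.inr y)))) / N -
        (∑ x, ∑ y, H x y * (v (.inl x) * sg (a (.inr y)))) / N := by
      rw [sum_div, sum_div, ← sum_sub_distrib]
      refine sum_congr rfl fun x _ => ?_
      rw [div_mul_eq_mul_div, ← sub_div, ← sum_sub_distrib, sum_mul]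
      congr 1
      exact sum_congr rfl fun y _ => by ring
    have e2 : ∑ y, (∑ x, H x y * v (.inl x)) / N * (sg (a (.inr y)) - v (.inr y)) =
        (∑ x, ∑ y, H x y * (v (.inl x) * sg (a (.inr y)))) / N -
        (∑ x, ∑ y, H x y * (v (.inl x) * v (.inr y))) / N := by
      rw [sum_comm, sum_comm (f := fun x y => H x y * (v (.inl x) * v (.inr y))), sum_div, sum_div,
        ← sum_sub_distrib]
      refine sum_congr rfl fun y _ => ?_
      rw [div_mul_eq_mul_div, ← sub_div, ← sum_sub_distrib, sum_mul]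
      congr 1
      exact sum_congr rfl fun x _ => by ring
    rw [e1, e2]
    ring
  have hvl : ∀ x, |v (.inl x)| ≤ 1 := fun x => hv _
  have hvr : ∀ x, |v (.inr x)| ≤ 1 := fun x => hv _
  -- exponential moments
  have hmA : ∀ z : ℝ, ml (fun a => Real.exp (z * A a)) v ≤ Real.exp (4 * z ^ 2 / N) := by
    intro z
    rw [TAILV_ml]
    have h1 : ∀ w : X → Bool, ml (fun u : X → Bool => Real.exp (z * A (Sum.elim u w)))
        (fun x => v (.inl x)) ≤ Real.exp (4 * z ^ 2 / N) := by
      intro w
      have h2 : (fun u : X → Bool => Real.exp (z * A (Sum.elim u w))) =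
          fun u => Real.exp (∑ x, (z * c w x) * (sg (u x) - v (.inl x))) := by
        funext u
        rw [hA]
        simp only [Sum.elim_inl, Sum.elim_inr]
        rw [mul_sum]
        congr 1
        exact sum_congr rfl fun x _ => by ring
      rw [h2]
      refine (TAILV_ml_exp (fun x => z * c w x) (fun x => v (.inl x)) hvl).trans ?_
      refine Real.exp_le_exp.2 (le_of_eq ?_)
      have h3 : ∀ x, (z * c w x) ^ 2 = z ^ 2 / N ^ 2 * (∑ y, H x y * sg (w y)) ^ 2 := by
        intro x
        rw [hc]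
        simp only
        field_simp
      rw [sum_congr rfl fun x _ => h3 x, ← mul_sum, sum_Hw hH, ← hNdef]
      field_simp
    refine (ml_mono h1 hvr).trans ?_
    rw [ml_const]
  have hmB : ∀ z : ℝ, ml (fun a => Real.exp (z * B a)) v ≤ Real.exp (4 * z ^ 2 / N) := by
    intro z
    rw [TAILV_ml]
    have h1 : (fun w : X → Bool => ml (fun u : X → Bool => Real.exp (z * B (Sum.elim u w)))
        (fun x => v (.inl x))) =
        fun w => Real.exp (∑ y, (z * d y) * (sg (w y) - v (.inr y))) := by
      funext w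
      have h2 : (fun u : X → Bool => Real.exp (z * B (Sum.elim u w))) =
          fun _ => Real.exp (∑ y, (z * d y) * (sg (w y) - v (.inr y))) := by
        funext u
        rw [hB]
        simp only [Sum.elim_inr]
        rw [mul_sum]
        congr 1
        exact sum_congr rfl fun x _ => by ring
      rw [h2, ml_const]
    rw [h1]
    refine (TAILV_ml_exp (fun y => z * d y) (fun x => v (.inr x)) hvr).trans ?_
    refine Real.exp_le_exp.2 ?_
    have h3 : ∀ y, (z * d y) ^ 2 = z ^ 2 / N ^ 2 * (∑ x, H x y * v (.inl x)) ^ 2 := by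
      intro y
      rw [hd]
      simp only
      field_simp
    rw [sum_congr rfl fun x _ => h3 x, ← mul_sum, TAILV_sq hH]
    have h4 : ∑ x, v (.inl x) ^ 2 ≤ N := by
      rw [hNdef]
      calc ∑ x, v (.inl x) ^ 2 ≤ ∑ _x : X, (1 : ℝ) :=
            sum_le_sum fun x _ => by
              have := hvl x
              rw [← sq_abs]
              have h5 := abs_nonneg (v (Sum.inl x))
              nlinarith
        _ = Fintype.card X := by simp
    have h5 : (0:ℝ) ≤ z ^ 2 / N ^ 2 := by positivity
    calc 4 * (z ^ 2 / N ^ 2 * ∑ x, v (.inl x) ^ 2) ≤ 4 * (z ^ 2 / N ^ 2 * N) := by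
          have := mul_le_mul_of_nonneg_left h4 h5
          linarith
      _ = 4 * z ^ 2 / N := by field_simp
  -- Markov
  obtain ⟨z, hz⟩ : ∃ z : ℝ, z = η * N / 32 := ⟨_, rfl⟩
  have hz0 : 0 < z := by rw [hz]; positivity
  have hpt : ∀ a, (if |Fo H a - ml (Fo H) v| ≤ η / 2 then (0 : ℝ) else 1) ≤
      Real.exp (-(z * η / 4)) * ((Real.exp (z * A a) + Real.exp (-z * A a)) +
        (Real.exp (z * B a) + Real.exp (-z * B a))) := by
    intro a
    split_ifs with h
    · positivity
    · rw [not_le, hsplit a] at h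
      have h1 : η / 4 < |A a| ∨ η / 4 < |B a| := by
        by_contra hcon
        push Not at hcon
        have := abs_add_le (A a) (B a)
        linarith [hcon.1, hcon.2]
      have hpos : ∀ r : ℝ, 0 < Real.exp (-(z * η / 4)) * Real.exp r := fun r => by positivity
      have key : ∀ r : ℝ, η / 4 < |r| → 1 ≤ Real.exp (-(z * η / 4)) * Real.exp (z * r) +
          Real.exp (-(z * η / 4)) * Real.exp (-z * r) := by
        intro r hr
        rcases lt_abs.1 hr with h | h
        · have h5 : 1 ≤ Real.exp (-(z * η / 4)) * Real.exp (z * r) := by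
            rw [← Real.exp_add]
            exact Real.one_le_exp (by nlinarith)
          linarith [hpos (-z * r)]
        · have h5 : 1 ≤ Real.exp (-(z * η / 4)) * Real.exp (-z * r) := by
            rw [← Real.exp_add]
            exact Real.one_le_exp (by nlinarith)
          linarith [hpos (z * r)]
      rw [mul_add, mul_add, mul_add]
      rcases h1 with h1 | h1
      · have := key _ h1
        linarith [hpos (z * B a), hpos (-z * B a)]
      · have := key _ h1
        linarith [hpos (z * A a), hpos (-z * A a)]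
  refine (ml_mono hpt hv).trans ?_
  rw [ml_smul]
  have e1 : ml (fun a => (Real.exp (z * A a) + Real.exp (-z * A a)) +
      (Real.exp (z * B a) + Real.exp (-z * B a))) v =
      (ml (fun a => Real.exp (z * A a)) v + ml (fun a => Real.exp (-z * A a)) v) +
      (ml (fun a => Real.exp (z * B a)) v + ml (fun a => Real.exp (-z * B a)) v) := by
    simp only [ml_eq, ← sum_add_distrib]
    exact sum_congr rfl fun a _ => by ring
  rw [e1]
  have m1 := hmA z
  have m2 := hmA (-z)
  have m3 := hmB z
  have m4 := hmB (-z)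
  rw [neg_sq] at m2 m4
  have m5 : (ml (fun a => Real.exp (z * A a)) v + ml (fun a => Real.exp (-z * A a)) v) +
      (ml (fun a => Real.exp (z * B a)) v + ml (fun a => Real.exp (-z * B a)) v) ≤
      4 * Real.exp (4 * z ^ 2 / N) := by linarith
  refine (mul_le_mul_of_nonneg_left m5 (Real.exp_pos _).le).trans (le_of_eq ?_)
  rw [mul_left_comm, ← Real.exp_add]
  congr 2
  rw [hz]
  field_simp
  ring

end Pool.Agent.H9x.BF
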