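import Pool.Agent.H9x.BF.Stm2

/-!
# Project BF, piece TAMN: all levels are tame
-/

set_option autoImplicit false
set_option linter.unusedSectionVars false
set_option linter.unusedVariables false

namespace Pool.Agent.H9x.BF

open Finset H568R2 Pool.Agent.H676 Pool.Agent.NPC Pool.Agent.H620R2.Gauge
  Pool.Agent.H9x.Q Pool.Agent.H622R2 Pool.Agent.TH678.SETH Pool.Agent.TH678.RS

open Pool.Agent.H622R2.Exp hiding Dat

open Pool.Agent.TH678.ETH hiding th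

open Pool.Agent.H9x.RT (ml lv HZ lev UU hs Adm isP_of_isPH mem_UU Gd)

open Pool.Agent.H9x.BE (th Dat ind Sy Ev Fd Av ow Kx Tv Jn cN contN Kh S_AVL S_AVI S_KX S_KHN
  S_CARDU S_RUNDT S_CONJ)

namespace TAMN

/-- the event is a decision tree if all the questions are -/
theorem dtr_event (hCARDU : S_CARDU) (hRUNDT : S_RUNDT) (hCONJ : S_CONJ)
    {g : ℕ → Alg} {S N : ℕ → Polynomial ℕ} {h : ℕ → Alg × Polynomial ℕ} (hKx : Kx g S)
    {Y : Sy} (hYS : Y.S = S) (htr : ∀ c D, Y.tr c D ↔ Tv g (orcE S N h D) c) {s k : ℕ}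
    {I : Type} [Fintype I] [DecidableEq I] (pl : I → List Bool) (b : ℕ × List Bool → Bool)
    (D : Dat) (f : (I → Bool) → Bool)
    (hf : ∀ a, f a = true ↔ Ev Y b (s + 1) (fun _ => True) (Function.extend pl a D))
    (ρ₀ ρ : Restr I) (hT : 2 ^ s ≤ (s + 2) ^ 2 ^ s)
    (hg : Gd (fun z => orcE S N h (Function.extend pl (ov ρ₀ z) D)) k ((s + 2) ^ 2 ^ s)
      (2 ^ s) ρ) :
    DTr (2 ^ (2 * s + 2) * (2 ^ s * k)) (rs (rs f ρ₀) ρ) := by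
  set G : (I → Bool) → Oracle :=
    fun z => orcE S N h (Function.extend pl (ov ρ₀ (ov ρ z)) D) with hG
  have hq : ∀ q : List Bool, q.length ≤ 2 ^ s → DTr k (fun z => G z q) := by
    intro q hq
    exact hg q (hq.trans hT) hq
  have hbl : ∀ c' ∈ UU Y.S 0 s, DTr (2 ^ s * k) (fun z : I → Bool =>
      decide ((g c'.1).run (CC.cut (2 ^ lev Y.S c') (G z)) c'.2
        (2 ^ (g c'.1).p.eval c'.2.length) [] = some [true])) := by
    intro c' hc'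
    have hbig : ∀ e n, n + e + 1 ≤ (Y.S e).eval n := Y.big
    obtain ⟨_, h2⟩ := (mem_UU hbig).1 hc'
    have h3 : (2 : ℕ) ^ lev Y.S c' ≤ 2 ^ s := Nat.pow_le_pow_right (by norm_num) h2
    have h4 := hRUNDT I k (2 ^ lev Y.S c') G (fun q hq' => hq q (hq'.trans h3))
      (g c'.1) c'.2 (2 ^ (g c'.1).p.eval c'.2.length) []
    refine DTr.mono h4 (Nat.mul_le_mul_right k ?_)
    refine le_trans (Nat.pow_le_pow_right (by norm_num) ?_) h3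
    have h5 := hKx.rd c'.1 c'.2.length
    unfold lev
    rw [hYS]
    exact h5
  obtain ⟨F, hF1, hF2⟩ := hCONJ I (ℕ × List Bool) (UU Y.S 0 s) (2 ^ s * k)
    (fun c' z => decide ((g c'.1).run (CC.cut (2 ^ lev Y.S c') (G z)) c'.2
        (2 ^ (g c'.1).p.eval c'.2.length) [] = some [true])) b hbl
  have hFf : rs (rs f ρ₀) ρ = F := by
    funext z
    rw [Bool.eq_iff_iff, hF2]
    show f (ov ρ₀ (ov ρ z)) = true ↔ _
    rw [hf]
    unfold BE.Ev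
    constructor
    · rintro ⟨h1, _⟩ c' hc'
      obtain ⟨_, h2⟩ := (mem_UU Y.big).1 hc'
      have h3 := h1 c' (by omega)
      rw [htr] at h3
      unfold Tv at h3
      have h4 := hKx.cut c'.1 c'.2 (G z)
      have h5 : lev Y.S c' = (S c'.1).eval c'.2.length := by rw [hYS]; rfl
      rw [Bool.eq_iff_iff, decide_eq_true_iff, h5, h4]
      exact h3
    · intro h1
      refine ⟨fun c' hc' => ?_, trivial⟩
      have h2 := h1 c' ((mem_UU Y.big).2 ⟨Nat.zero_le _, by omega⟩)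
      have h4 := hKx.cut c'.1 c'.2 (G z)
      have h5 : lev Y.S c' = (S c'.1).eval c'.2.length := by rw [hYS]; rfl
      rw [Bool.eq_iff_iff, decide_eq_true_iff, h5, h4] at h2
      rw [htr]
      exact h2
  rw [hFf]
  exact DTr.mono hF1 (Nat.mul_le_mul_right _ (hCARDU Y.S Y.big s))

open Classical in
/-- the probability -/
theorem prob (hORCN : S_ORCN) (hCARDU : S_CARDU) (hRUNDT : S_RUNDT) (hCONJ : S_CONJ)
    {g : ℕ → Alg} {S N : ℕ → Polynomial ℕ} {h : ℕ → Alg × Polynomial ℕ} (hKx : Kx g S)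
    (hKh : Kh h N)
    {Y : Sy} (hYS : Y.S = S) (htr : ∀ c D, Y.tr c D ↔ Tv g (orcE S N h D) c) {s k : ℕ} (hk : 1 ≤ k)
    {I : Type} [Fintype I] [DecidableEq I] (pl : I → List Bool) (hinj : Function.Injective pl)
    (hlen : ∀ i, s + 2 < (pl i).length) (b : ℕ × List Bool → Bool) (D : Dat)
    (f : (I → Bool) → Bool)
    (hf : ∀ a, f a = true ↔ Ev Y b (s + 1) (fun _ => True) (Function.extend pl a D))
    (ρ₀ : Restr I) (hT : 2 ^ s ≤ (s + 2) ^ 2 ^ s) {q₀ : ℝ} (h0 : 0 < q₀)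
    (h1 : q₀ ≤ 1 / 3) (hp0 : 0 < q₀ ^ s) (hp1 : q₀ ^ s ≤ 1)
    (hhalf : 12 * ((2 ^ s * k : ℕ) : ℝ) * q₀ = 1 / 2) :
    Ex (wq (q₀ ^ s)) (fun ρ : Restr I =>
      if ¬ DTr (2 ^ (2 * s + 2) * (2 ^ s * k)) (rs (rs f ρ₀) ρ) then (1 : ℝ) else 0) ≤
      (s : ℝ) * (2 ^ (2 ^ s + 1) * (1 / 2) ^ (k + 1)) := by
  have hA : Adm (s + 2) (2 ^ s) (fun a : I → Bool =>
      orcE S N h (Function.extend pl a D)) := hORCN.adm S N h hKh (s + 2) (2 ^ s) I pl D hinj hlen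
  have hst := (hA.ov ρ₀).steps hk Nat.one_le_two_pow h0.le h1 s
  rw [hhalf] at hst
  have hw0 : ∀ a, 0 ≤ wq (q₀ ^ s) a := wq_nonneg hp0.le hp1
  refine (Ex_mono hw0 fun ρ => ?_).trans hst
  by_cases hG : Gd (fun z => orcE S N h (Function.extend pl (ov ρ₀ z) D)) k
      ((s + 2) ^ 2 ^ s) (2 ^ s) ρ
  · have h2 := dtr_event hCARDU hRUNDT hCONJ hKx hYS htr pl b D f hf ρ₀ ρ hT hG
    rw [if_neg (not_not.2 h2)]
    split_ifs; norm_num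
  · rw [if_pos hG]
    split_ifs <;> norm_num

/-- the numbers -/
theorem numbers (s T k : ℕ) (hT1 : 1 ≤ T) (hk1 : 1 ≤ k) :
    0 < 1 / (24 * ((T * k : ℕ) : ℝ)) ∧ 1 / (24 * ((T * k : ℕ) : ℝ)) ≤ 1 / 3 ∧
      12 * ((T * k : ℕ) : ℝ) * (1 / (24 * ((T * k : ℕ) : ℝ))) = 1 / 2 ∧
      0 < (1 / (24 * ((T * k : ℕ) : ℝ))) ^ s ∧ (1 / (24 * ((T * k : ℕ) : ℝ))) ^ s ≤ 1 := by
  have hTk : 1 ≤ T * k := Nat.succ_le_of_lt (Nat.mul_pos hT1 hk1)
  have hTkR : (1 : ℝ) ≤ ((T * k : ℕ) : ℝ) := by exact_mod_cast hTk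
  generalize ((T * k : ℕ) : ℝ) = w at *
  have hwp : (0 : ℝ) < 24 * w := by linarith
  have h0 : 0 < 1 / (24 * w) := one_div_pos.2 hwp
  have h1 : 1 / (24 * w) ≤ 1 / 3 := one_div_le_one_div_of_le (by norm_num) (by linarith)
  refine ⟨h0, h1, ?_, pow_pos h0 s, pow_le_one₀ h0.le (by linarith)⟩
  field_simp
  norm_num

end TAMN

open TAMN in
theorem t_TAMN (hPL : S_PL) (hORCN : S_ORCN) (hNUMN : S_NUMN) (hCARDU : S_CARDU)
    (hRUNDT : S_RUNDT) (hCONJ : S_CONJ) : S_TAMN := by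
  intro g S N h hKx hKh Y hYS htr s
  have hN1 := hNUMN.one s
  have hN2 := hNUMN.two s
  have hN3 := hNUMN.three s
  obtain ⟨k, hk⟩ : ∃ k : ℕ, k = 2 ^ (3 * s + 16) := ⟨_, rfl⟩
  have hkR : ((k : ℕ) : ℝ) = 2 ^ (3 * s + 16) := by
    rw [hk, Nat.cast_pow, Nat.cast_ofNat]
  rw [← hk] at hN1
  rw [← hkR] at hN2
  have hk1 : 1 ≤ k := hk ▸ Nat.one_le_two_pow
  clear hk hkR
  have hs1 : 1 ≤ 2 ^ s := Nat.one_le_two_pow
  have ha1 : 1 ≤ 2 ^ (2 * s + 2) := Nat.one_le_two_pow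
  obtain ⟨h0, h1, hhalf, hp0, hp1⟩ := numbers s (2 ^ s) k hs1 hk1
  have hc1 : ((2 ^ (2 * s + 2) * (2 ^ s * k) : ℕ) : ℝ) = 2 ^ (2 * s + 2) * (2 ^ s * (k : ℝ)) := by
    rw [Nat.cast_mul, Nat.cast_mul, Nat.cast_pow, Nat.cast_pow, Nat.cast_ofNat]
  have hc2 : ((2 ^ s * k : ℕ) : ℝ) = 2 ^ s * (k : ℝ) := by
    rw [Nat.cast_mul, Nat.cast_pow, Nat.cast_ofNat]
  have ht1 : 1 ≤ 2 ^ (2 * s + 2) * (2 ^ s * k) :=
    Nat.succ_le_of_lt (Nat.mul_pos ha1 (Nat.mul_pos hs1 hk1))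
  have hgen : ∀ a b : ℕ, 0 ≤ (s : ℝ) * (2 ^ a * (1 / 2 : ℝ) ^ b) := fun a b =>
    mul_nonneg (Nat.cast_nonneg s) (mul_nonneg (pow_nonneg (by norm_num) a)
      (pow_nonneg (by norm_num) b))
  refine ⟨2 ^ (2 * s + 2) * (2 ^ s * k), (1 / (24 * ((2 ^ s * k : ℕ) : ℝ))) ^ s,
    (s : ℝ) * (2 ^ (2 ^ s + 1) * (1 / 2) ^ (k + 1)), ht1, hp0, hp1, hgen _ _, ?_, hN1, ?_⟩
  · rw [hc1, hc2]
    exact hN2
  · intro c hc I _ _ σ hσ b D f hf ρ₀
    refine prob hORCN hCARDU hRUNDT hCONJ hKx hKh hYS htr hk1 (fun i => pos Y.S c (σ i))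
      (fun i j hij => hσ (hPL.inj Y.S c hij)) (fun i => ?_) b D f hf ρ₀ hN3 h0 h1 hp0 hp1 hhalf
    have := hPL.lt Y.S c (σ i)
    rw [hc] at this
    exact this

end Pool.Agent.H9x.BF
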