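import Pool.Agent.H9x.BF.Stm1

/-!
# Project BF, piece VALN: the exact values (extracted from K7x/EQ/Dist2.lean)
-/

set_option autoImplicit false

namespace Pool.Agent.H9x.BF

open Finset H568R2 Pool.Agent.H676 Pool.Agent.H9x.RT Pool.Agent.H9x.BE

open Pool.Agent.K7x.EQ

theorem t_VALN : S_VALN := by
  intro u hu
  have huR : (1 : ℝ) ≤ u := by exact_mod_cast hu
  -- the dyadic number
  have hk1 : 1 ≤ 512 * u := by omega
  have hke : Even (512 * u) := ⟨256 * u, by ring⟩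
  obtain ⟨τi, hτ0, hτ1, hτ2, hA1, hA2⟩ := exists_tau (m := 24 * u) hk1 hke
  set σ : ℝ := Real.sin (Real.pi / (2 * (2 * ((512 * u : ℕ) : ℝ) + 1))) with hσ
  set τ : ℝ := (τi : ℝ) / 2 ^ (24 * u) with hτ
  have hpi := Real.pi_pos
  have hσ0 : 0 < σ := by
    refine Real.sin_pos_of_pos_of_lt_pi (by positivity) ?_
    rw [div_lt_iff₀ (by positivity)]
    have : (0 : ℝ) ≤ ((512 * u : ℕ) : ℝ) := by positivity
    nlinarith
  have hσ1 : 2 * σ ≤ 1 / (16 * ((8 * u * 2 : ℕ) : ℝ)) := by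
    have h1 : σ ≤ Real.pi / (2 * (2 * ((512 * u : ℕ) : ℝ) + 1)) := Real.sin_le (by positivity)
    have h2 : Real.pi ≤ 3.15 := Real.pi_lt_d2.le
    have h3 : 2 * (Real.pi / (2 * (2 * ((512 * u : ℕ) : ℝ) + 1))) ≤
        1 / (16 * ((8 * u * 2 : ℕ) : ℝ)) := by
      push_cast
      rw [mul_div_assoc', div_le_div_iff₀ (by positivity) (by positivity)]
      nlinarith
    linarith
  set η : ℝ := 1 / 2 ^ (4 * u) with hη
  have hη0 : 0 < η := by positivity
  -- the sums of the masks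
  have hS := fun a => Fo_int (u := u) hu a
  choose Sf hSf using hS
  set bd : ℝ := 2 * 2 ^ (4 * (6 * u)) / 2 ^ (4 * u) with hbd
  have hbd' : bd = 2 * 2 ^ (20 * u) := by
    rw [hbd, div_eq_iff (by positivity), mul_assoc, ← pow_add]
    congr 2
    ring
  have h20 : (2 : ℝ) ^ (24 * u) * η = 2 ^ (20 * u) := by
    rw [hη, mul_one_div, div_eq_iff (by positivity), ← pow_add]
    congr 1
    ring
  have h24 : (0 : ℝ) < 2 ^ (24 * u) := by positivity
  have h20' : (1 : ℝ) ≤ 2 ^ (20 * u) := one_le_pow₀ (by norm_num)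
  have h20'' : (2 : ℝ) ≤ 2 ^ (20 * u) := by
    have : (2 : ℝ) ^ 1 ≤ 2 ^ (20 * u) := pow_le_pow_right₀ (by norm_num) (by omega)
    linarith
  obtain ⟨ai, hai⟩ := Am_int (m := 24 * u) τi (512 * u)
  have he1 : 24 * u * (2 * (512 * u) + 1) = 24 * u * (1024 * u + 1) := by ring
  rw [he1] at hai
  set E : ℕ := 24 * u * (1024 * u + 1) with hE
  have hm2e : m2e u = E + 4 := rfl
  have h4E : 4 * (6 * u * (1024 * u + 1) + 1) = E + 4 := by rw [hE]; ring
  have hs2 : ((2 ^ (E + 4) - 16 * ai : ℤ) : ℝ) = 2 ^ (E + 4) * (1 - Am (512 * u) τ) := by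
    rw [hai, pow_add]
    push_cast
    have : (0 : ℝ) < 2 ^ E := by positivity
    field_simp
    ring
  have hval : ∀ (z : Iu u → Bool) (a : (Fin (8 * u * 2) → Bool) ⊕ (Fin (8 * u * 2) → Bool) → Bool)
      (w : ℤ), (fun i => z (.inl i)) = a → ssum univ (fun p => z (.inr (.inl p))) = 2 * (w - Sf a) →
      (fo z + m1 z) / 2 = w / 2 ^ (24 * u) := by
    intro z a w ha h1
    rw [m1_eq z h1]
    have h2 : fo z = 2 * Sf a / 2 ^ (24 * u) := by
      rw [eq_div_iff h24.ne', mul_comm, ← ha]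
      exact hSf (fun i => z (.inl i))
    rw [h2]
    push_cast
    field_simp
    ring
  refine ⟨2 * σ, by positivity, hσ1, fun v a hva => ?_⟩
  cases v with
  | true =>
    rw [if_pos rfl] at hva
    refine ⟨2 * (τi - Sf a), ⟨_, rfl⟩, ?_, 2 ^ (E + 4) - 16 * ai,
      ⟨2 ^ (E + 3) - 8 * ai, by rw [pow_succ 2 (E + 3)]; ring⟩, ?_, fun b c hb hc => ?_⟩
    · have h2 : ((2 * (τi - Sf a) : ℤ) : ℝ) =
          2 ^ (24 * u) * (2 * τ) - 2 ^ (24 * u) * Fo (Hm (8 * u * 2)) a := by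
        rw [hSf, hτ]
        push_cast
        field_simp
      have h3 : |2 * τ - Fo (Hm (8 * u * 2)) a| ≤ 2 * (1 / 2 ^ (24 * u)) + η := by
        rw [abs_le] at hva ⊢
        constructor <;> linarith [hva.1, hva.2]
      rw [h2, ← mul_sub, abs_mul, abs_of_pos h24, hbd']
      calc (2 : ℝ) ^ (24 * u) * |2 * τ - Fo (Hm (8 * u * 2)) a| ≤
          2 ^ (24 * u) * (2 * (1 / 2 ^ (24 * u)) + η) := mul_le_mul_of_nonneg_left h3 h24.le
        _ = 2 + 2 ^ (20 * u) := by
          rw [mul_add, h20]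
          field_simp
        _ ≤ 2 * 2 ^ (20 * u) := by linarith
    · rw [hs2, h4E, abs_mul, abs_of_pos (by positivity : (0 : ℝ) < 2 ^ (E + 4)),
        abs_of_nonneg (by linarith)]
      have h1 : 1 - Am (512 * u) τ ≤ 2 / 2 ^ (4 * u) := by
        refine hA2.trans ?_
        have h2 : (2 * ((512 * u : ℕ) : ℝ) + 1) ^ 2 ≤ 2 ^ (24 * u) := by
          have := small_k hu
          push_cast
          have e : 2 * (512 * (u : ℝ)) + 1 = 1024 * u + 1 := by ring
          rw [e]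
          exact this
        rw [div_le_div_iff₀ (by positivity) (by positivity)]
        have h3 : (2 : ℝ) ^ (4 * u) ≤ 2 ^ (24 * u) := pow_le_pow_right₀ (by norm_num) (by omega)
        calc 2 * (2 * ((512 * u : ℕ) : ℝ) + 1) ^ 2 * 2 ^ (4 * u) ≤
            2 * 2 ^ (24 * u) * 2 ^ (24 * u) := by
              refine mul_le_mul ?_ h3 (by positivity) (by positivity)
              linarith
          _ = 2 * (2 ^ (24 * u)) ^ 2 := by ring
      calc (2 : ℝ) ^ (E + 4) * (1 - Am (512 * u) τ) ≤ 2 ^ (E + 4) * (2 / 2 ^ (4 * u)) :=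
            mul_le_mul_of_nonneg_left h1 (by positivity)
        _ = 2 * 2 ^ (E + 4) / 2 ^ (4 * u) := by ring
    · rw [if_pos rfl]
      unfold va
      rw [hval (Sum.elim a (Sum.elim b c)) a τi rfl hb, m2_eq (Sum.elim a (Sum.elim b c)) hc, hm2e,
        hs2]
      rw [← hτ]
      field_simp
      ring
  | false =>
    rw [if_neg (by decide)] at hva
    refine ⟨2 * (0 - Sf a), ⟨_, rfl⟩, ?_, 0, ⟨0, rfl⟩, ?_, fun b c hb hc => ?_⟩
    · have h2 : ((2 * (0 - Sf a) : ℤ) : ℝ) = -(2 ^ (24 * u) * Fo (Hm (8 * u * 2)) a) := by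
        rw [hSf]
        push_cast
        ring
      rw [sub_zero] at hva
      rw [h2, abs_neg, abs_mul, abs_of_pos h24, hbd']
      calc (2 : ℝ) ^ (24 * u) * |Fo (Hm (8 * u * 2)) a| ≤ 2 ^ (24 * u) * η :=
            mul_le_mul_of_nonneg_left hva h24.le
        _ = 2 ^ (20 * u) := h20
        _ ≤ 2 * 2 ^ (20 * u) := by linarith
    · simp
      positivity
    · rw [if_neg (by decide)]
      unfold va
      rw [hval (Sum.elim a (Sum.elim b c)) a 0 rfl hb, m2_eq (Sum.elim a (Sum.elim b c)) hc]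
      simp [Am_zero]

end Pool.Agent.H9x.BF
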