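import Pool.Agent.H9x.BF.Stm2

/-!
# Project BF, piece W1: the world with `P = NP` and `EQP = EXP`
-/

set_option autoImplicit false

namespace Pool.Agent.H9x.BF

open Finset H568R2 Pool.Agent.H676 Pool.Agent.NPC Pool.Agent.H620R2.Gauge
  Pool.Agent.H9x.Q Pool.Agent.H622R2 Pool.Agent.TH678.SETH Pool.Agent.TH678.RS

open Pool.Agent.H622R2.Exp hiding Dat

open Pool.Agent.TH678.ETH hiding th

open Pool.Agent.H9x.RT (ml lv HZ lev UU hs Adm isP_of_isPH)

open Pool.Agent.H9x.BE (th Dat ind Sy Ev Fd Av ow Kx Tv Jn cN contN Kh S_AVL S_AVI S_KX S_KHN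
  S_CARDU S_RUNDT S_CONJ)

open Pool.Agent.K7x.EQ (Iu m2e va Ig KK mkv IsEQP)

theorem w1_cut_congr_le {N : ℕ} {A A' : Oracle} (h : ∀ q : List Bool, q.length ≤ N → A q = A' q) :
    CC.cut N A = CC.cut N A' := by
  funext q
  unfold CC.cut
  by_cases hq : q.length ≤ N
  · rw [if_pos hq, if_pos hq, h q hq]
  · rw [if_neg hq, if_neg hq]

theorem w1_Tv_congr {g : ℕ → Alg} {S : ℕ → Polynomial ℕ} (hK : Kx g S) {A A' : Oracle}
    {c : ℕ × List Bool} (h : ∀ q : List Bool, q.length ≤ 2 ^ lev S c → A q = A' q) :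
    Tv g A c ↔ Tv g A' c := by
  have h1 := hK.cut c.1 c.2 A
  have h2 := hK.cut c.1 c.2 A'
  have h3 : CC.cut (2 ^ (S c.1).eval c.2.length) A = CC.cut (2 ^ (S c.1).eval c.2.length) A' :=
    w1_cut_congr_le h
  unfold Tv
  rw [← h1, ← h2, h3]

/-- **Piece W1.** -/
theorem t_W1 (hNUMS : S_NUMS) (hSTEP : S_STEP) (hLIM : S_LIM) (hKX : S_KX) (hEQX : S_EQX)
    (hKHN : S_KHN) (hBSE : S_BSE) (hORCN : S_ORCN) (hNPP : S_NPP) (hTAMN : S_TAMN) : S_W1 := by
  have hne : Nonempty (Alg × Polynomial ℕ) := ⟨⟨⟨fun _ => [], CC.const_polyTime _, 0⟩, 0⟩⟩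
  have hne' : Nonempty Alg := ⟨⟨fun _ => [], CC.const_polyTime _, 0⟩⟩
  have hct : Countable (Polynomial ℕ) := CC.poly_countable
  obtain ⟨h, hh⟩ := exists_surjective_nat (Alg × Polynomial ℕ)
  obtain ⟨g, hg⟩ := exists_surjective_nat Alg
  obtain ⟨S, hK⟩ := hKX g
  obtain ⟨N, hN⟩ := hKHN h
  let Y : Sy := ⟨S, fun c D => Tv g (orcE S N h D) c, hK.big, fun c D D' hD =>
    w1_Tv_congr hK (hORCN.loc S N h (2 ^ lev S c) D D' hD)⟩
  have hT : ∀ s, Tame Y s (fun _ => True) :=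
    hTAMN g S N h hK hN Y rfl (fun c D => Iff.rfl)
  obtain ⟨D, b, h1, h2, -⟩ := hLIM Y (fun _ _ => True) (fun j s D b hok => by
    have hok' : Ok Y s (fun _ => True) (th s / 2) D b := by
      obtain ⟨h1, n₀, h2⟩ := hok
      refine ⟨h1, n₀, fun n hn => le_trans ?_ (h2 n hn)⟩
      have := (hNUMS.pos s).1
      linarith
    obtain ⟨D', b', h1, h2⟩ := hSTEP Y s (fun _ => True) (hT s) ⟨0, fun _ _ _ => Iff.rfl⟩ D b hok'
    exact ⟨s + 1, D', b', Nat.lt_succ_self s, h1, h2, fun _ _ => trivial⟩)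
  refine ⟨orcE S N h D, fun L hL => hNPP S N h hh hN D L hL, fun L hL => ?_⟩
  refine hEQX g S (orcE S N h D) D b hg hK (fun c w hw => ?_) (fun v => ?_) h1 h2 L hL
  · rw [hORCN.off S N h D (adr S c w) (fun p hp => by simp [adr, cN] at hp)]
    exact hBSE.blk S D c w hw
  · rw [hORCN.off S N h D (false :: false :: true :: v) (fun p hp => by simp [cN] at hp)]
    exact hBSE.zer S D v

end Pool.Agent.H9x.BF
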