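import Pool.Agent.H9x.BE.Main1
import Pool.Agent.H9x.BF.BSE
import Pool.Agent.H9x.BF.CORE2
import Pool.Agent.H9x.BF.EQX
import Pool.Agent.H9x.BF.FIX
import Pool.Agent.H9x.BF.FIXL
import Pool.Agent.H9x.BF.HITE
import Pool.Agent.H9x.BF.ITER
import Pool.Agent.H9x.BF.LIM
import Pool.Agent.H9x.BF.MASKR
import Pool.Agent.H9x.BF.MOM2
import Pool.Agent.H9x.BF.NPP
import Pool.Agent.H9x.BF.NUMN
import Pool.Agent.H9x.BF.NUMS
import Pool.Agent.H9x.BF.ORCN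
import Pool.Agent.H9x.BF.PL
import Pool.Agent.H9x.BF.SLR
import Pool.Agent.H9x.BF.STEP
import Pool.Agent.H9x.BF.STN
import Pool.Agent.H9x.BF.TAILV
import Pool.Agent.H9x.BF.TAMN
import Pool.Agent.H9x.BF.VALN
import Pool.Agent.H9x.BF.W1

/-!
# The oracle with `P = NP` and `EQP = EXP`: assembly
-/

set_option autoImplicit false

namespace Pool.Agent.H9x.BF

theorem m_HITE : S_HITE := t_HITE (t_CORE2 t_TAILV t_MOM2) (t_MASKR t_SLR t_STN) t_VALN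

theorem m_FIX : S_FIX := t_FIX BE.t_AVL BE.t_AVI m_HITE t_PL t_NUMS

theorem m_STEP : S_STEP := t_STEP BE.t_AVL t_PL t_NUMS (t_FIXL BE.t_AVL t_PL m_FIX)

theorem m_LIM : S_LIM := t_LIM BE.t_AVL t_PL t_NUMS

theorem m_BSE : S_BSE := t_BSE t_PL

theorem m_ORCN : S_ORCN := t_ORCN m_BSE

theorem m_W1 : S_W1 :=
  t_W1 t_NUMS m_STEP m_LIM BE.t_KX t_EQX BE.t_KHN m_BSE m_ORCN (t_NPP m_ORCN)
    (t_TAMN t_PL m_ORCN t_NUMN BE.t_CARDU BE.t_RUNDT BE.t_CONJ)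

end Pool.Agent.H9x.BF
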