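import Pool.Agent.H9x.BF.Stm3
import Pool.Agent.H9x.BE.NUMR

/-!
# Project BF, piece NUMR: the numbers of the levels (port of BE/NUMR.lean; helper70)
-/

set_option autoImplicit false
set_option linter.unusedSectionVars false
set_option linter.unusedVariables false

namespace Pool.Agent.H9x.BF

open Pool.Agent.H9x.BE (th)

namespace NumrP

open Pool.Agent.H9x.BE.NumrP (half pm castle sqp pwp)

theorem uu_le (s : ℕ) : 32 * uu s + 8 ≤ 2 ^ (6 * s + 24) := by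
  have h1 := Pool.Agent.H9x.BE.NumrP.lm_le s
  have h2 : 32 * uu s = 4 * Pool.Agent.H9x.BE.lm s := by
    unfold uu Pool.Agent.H9x.BE.lm
    ring
  have h3 : 2 ^ (2 * s + 12) ≤ 2 ^ (6 * s + 12) := Nat.pow_le_pow_right (by norm_num) (by omega)
  have h4 : 2 ^ (6 * s + 24) = 4096 * 2 ^ (6 * s + 12) := by
    rw [show 6 * s + 24 = (6 * s + 12) + 12 by ring, pow_add]
    ring
  have h5 : 1 ≤ 2 ^ (6 * s + 12) := Nat.one_le_two_pow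
  omega

theorem one (s m₁ k u Pm Λ : ℕ) (h1 : m₁ ≤ s) (h2 : k ≤ m₁) (h3 : u ≤ 3 * m₁ + 12)
    (h4 : Pm ≤ 2 ^ (2 * u)) (h5 : Λ + k ≤ 2 ^ (2 * u)) :
    ((Pm : ℝ) + 1) * (k * (2 ^ (Λ + 2) * (1 / 2) ^ (2 ^ (6 * s + 30) + 1))) *
      2 ^ (32 * uu s + 8) ≤ th (s + 1) := by
  have hp : ((Pm : ℝ) + 1) ≤ 2 ^ (6 * s + 25) := by exact_mod_cast pm h1 h3 h4
  have hk : (k : ℝ) ≤ 2 ^ k := by exact_mod_cast (Nat.lt_two_pow_self (n := k)).le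
  have hE : (6 * s + 25) + k + (Λ + 2) + (32 * uu s + 8) + 2 ^ (3 * (s + 1) + 8) ≤
      2 ^ (6 * s + 30) + 1 := by
    have e1 : 2 ^ (2 * u) ≤ 2 ^ (6 * s + 24) := Nat.pow_le_pow_right (by norm_num) (by omega)
    have e2 := uu_le s
    have e3 : 2 ^ (3 * (s + 1) + 8) ≤ 2 ^ (6 * s + 24) :=
      Nat.pow_le_pow_right (by norm_num) (by omega)
    have e4 : 6 * s + 24 < 2 ^ (6 * s + 24) := Nat.lt_two_pow_self
    have e5 : 2 ^ 24 ≤ 2 ^ (6 * s + 24) := Nat.pow_le_pow_right (by norm_num) (by omega)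
    have e6 : 2 ^ (6 * s + 30) = 64 * 2 ^ (6 * s + 24) := by
      rw [show 6 * s + 30 = (6 * s + 24) + 6 by ring, pow_add]; ring
    have e7 : (2:ℕ) ^ 24 = 16777216 := by norm_num
    omega
  unfold th
  calc ((Pm : ℝ) + 1) * (k * (2 ^ (Λ + 2) * (1 / 2) ^ (2 ^ (6 * s + 30) + 1))) *
      2 ^ (32 * uu s + 8) ≤ 2 ^ (6 * s + 25) *
        (2 ^ k * (2 ^ (Λ + 2) * (1 / 2) ^ (2 ^ (6 * s + 30) + 1))) * 2 ^ (32 * uu s + 8) := by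
        gcongr
    _ = 2 ^ ((6 * s + 25) + k + (Λ + 2) + (32 * uu s + 8)) * (1 / 2) ^ (2 ^ (6 * s + 30) + 1) := by
        rw [pow_add 2 ((6 * s + 25) + k + (Λ + 2)), pow_add 2 ((6 * s + 25) + k),
          pow_add 2 (6 * s + 25) k]
        ring
    _ ≤ _ := half hE

theorem two (s m₁ k u Pm : ℕ) (h1 : m₁ ≤ s) (h2 : k ≤ m₁) (h3 : u ≤ 3 * m₁ + 12)
    (h4 : Pm ≤ 2 ^ (2 * u)) :
    64 * ((2 ^ (3 * s + 2) + (Pm + 1) * (2 ^ (6 * s + 30) * 2 ^ (u + 11)) : ℕ) : ℝ) ^ 2 ≤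
      ((1 / (24 * (2 : ℝ) ^ (6 * s + 30))) ^ k) ^ 2 * 2 ^ (4 * uu s) := by
  have ht : 2 ^ (3 * s + 2) + (Pm + 1) * (2 ^ (6 * s + 30) * 2 ^ (u + 11)) ≤ 2 ^ (15 * s + 79) := by
    have e1 : 2 ^ (3 * s + 2) ≤ 2 ^ (15 * s + 78) := Nat.pow_le_pow_right (by norm_num) (by omega)
    have e2 : (Pm + 1) * (2 ^ (6 * s + 30) * 2 ^ (u + 11)) ≤ 2 ^ (15 * s + 78) := by
      calc (Pm + 1) * (2 ^ (6 * s + 30) * 2 ^ (u + 11)) ≤
          2 ^ (6 * s + 25) * (2 ^ (6 * s + 30) * 2 ^ (3 * s + 12 + 11)) :=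
            Nat.mul_le_mul (pm h1 h3 h4) (Nat.mul_le_mul_left _
              (Nat.pow_le_pow_right (by norm_num) (by omega)))
        _ = 2 ^ (15 * s + 78) := by rw [← pow_add, ← pow_add]; congr 1; ring
    have e3 : 2 ^ (15 * s + 79) = 2 ^ (15 * s + 78) * 2 := by
      rw [show 15 * s + 79 = (15 * s + 78) + 1 by ring, pow_succ]
    linarith
  generalize 2 ^ (3 * s + 2) + (Pm + 1) * (2 ^ (6 * s + 30) * 2 ^ (u + 11)) = t at ht ⊢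
  have hT : (t : ℝ) ^ 2 ≤ 2 ^ (2 * (15 * s + 79)) :=
    sqp _ _ (Nat.cast_nonneg t) (castle _ _ ht)
  have hB := pwp (6 * s + 30) k s (h2.trans h1)
  have hnum : 6 + (2 * (15 * s + 79) + (6 * s + 30 + 5) * (2 * s)) ≤ 4 * uu s := by
    unfold uu
    clear ht hT hB
    nlinarith
  have hT0 : 0 ≤ (t : ℝ) ^ 2 := sq_nonneg _
  have hBp : 0 < (24 * (2 : ℝ) ^ (6 * s + 30)) ^ (2 * k) :=
    pow_pos (mul_pos (by norm_num) (pow_pos (by norm_num) _)) _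
  have hB1 : ((1 / (24 * (2 : ℝ) ^ (6 * s + 30))) ^ k) ^ 2 =
      ((24 * (2 : ℝ) ^ (6 * s + 30)) ^ (2 * k))⁻¹ := by
    rw [← pow_mul, one_div, inv_pow, mul_comm k 2]
  rw [hB1]
  generalize (t : ℝ) ^ 2 = T at hT hT0 ⊢
  generalize (24 * (2 : ℝ) ^ (6 * s + 30)) ^ (2 * k) = B at hB hBp ⊢
  rw [← div_eq_inv_mul, le_div_iff₀ hBp]
  calc 64 * T * B ≤ 64 * 2 ^ (2 * (15 * s + 79)) * 2 ^ ((6 * s + 30 + 5) * (2 * s)) := by gcongr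
    _ = 2 ^ (6 + (2 * (15 * s + 79) + (6 * s + 30 + 5) * (2 * s))) := by
        rw [pow_add _ 6, pow_add _ (2 * (15 * s + 79))]
        norm_num
        ring
    _ ≤ _ := pow_le_pow_right₀ (by norm_num) hnum

theorem three (s : ℕ) : 64 * ((2 ^ (3 * s + 2) : ℕ) : ℝ) ^ 2 ≤ (1 : ℝ) ^ 2 * 2 ^ (4 * uu s) := by
  push_cast
  rw [one_pow, one_mul]
  calc (64 : ℝ) * (2 ^ (3 * s + 2)) ^ 2 = 2 ^ (6 + 2 * (3 * s + 2)) := by
        rw [pow_add 2 6, pow_mul, pow_right_comm]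
        norm_num
    _ ≤ 2 ^ (4 * uu s) := pow_le_pow_right₀ (by norm_num) (by unfold uu; nlinarith)

end NumrP

theorem t_NUMR : S_NUMR := ⟨NumrP.one, NumrP.two, NumrP.three⟩

end Pool.Agent.H9x.BF
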