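import Pool.Agent.H9x.BF.Stm3

/-! Project BF, piece OKR: the requirement is added (helper55; port of BE/OKR.lean). -/

set_option autoImplicit false

namespace Pool.Agent.H9x.BF

open Finset Filter H568R2 Pool.Agent.H676 Pool.Agent.NPC Pool.Agent.H620R2.Gauge
  Pool.Agent.H9x.Q Pool.Agent.H622R2 Pool.Agent.TH678.SETH Pool.Agent.TH678.RS
  Pool.Agent.H591R3.PHG

open Pool.Agent.H622R2.Exp hiding Dat

open Pool.Agent.TH678.ETH hiding th

open Pool.Agent.H9x.RT (ml lv lev UU)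

open Pool.Agent.H9x.BE (th Dat ind Sy Ev Fd Av ow Kx Tv S_AVL S_AVI S_KX S_CARDU S_RUNDT S_CONJ
  xsN pla Nm fr Szs S_ALT2 S_SZ2)

theorem okr_Av_sum {P : Type} [DecidableEq P] {ι : Type} (V : Finset P) (s : Finset ι)
    (G : ι → (P → Bool) → ℝ) (D : P → Bool) :
    Av V (fun D => ∑ i ∈ s, G i D) D = ∑ i ∈ s, Av V (G i) D := by
  unfold Av
  rw [Finset.sum_comm, Finset.sum_div]

theorem okr_plev (S : ℕ → Polynomial ℕ) (v : List Bool) : plev S (true :: v) = (true :: v).length := by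
  unfold plev
  rw [dif_neg]
  rintro ⟨c, i, h⟩
  cases i with
  | inl w => exact absurd (List.cons.inj h).1 (by decide)
  | inr w => exact absurd (List.cons.inj h).1 (by decide)

theorem t_OKR (hAVL : S_AVL) (hPL : S_PL) (hFREE : S_FREE) : S_OKR := by
  intro Y M k n u T Pm Λ m₀ m₁ as hN hm₁ hfr D b ⟨hT, n₀, hn₀⟩
  refine ⟨hT, ?_⟩
  obtain ⟨Lf, hLf⟩ : ∃ Lf : Finset (List Bool), Lf = univ.image (pla n u as) := ⟨_, rfl⟩
  refine ⟨max n₀ (Lf.sup List.length), fun n' hn' => ?_⟩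
  have hn1 : n₀ ≤ n' := (le_max_left _ _).trans hn'
  have hn2 : Lf.sup List.length ≤ n' := (le_max_right _ _).trans hn'
  have hold := hn₀ n' hn1
  obtain ⟨V, hV⟩ : ∃ V : Finset (List Bool), V = VV Y.S m₁ n' := ⟨_, rfl⟩
  rw [← hV] at hold ⊢
  have hsub : Lf ⊆ V := by
    intro q hq
    have hlen : q.length ≤ n' := (Finset.le_sup (f := List.length) hq).trans hn2
    rw [hLf, mem_image] at hq
    obtain ⟨a, _, rfl⟩ := hq
    rw [hV, hPL.mem]
    refine ⟨hlen, ?_⟩
    unfold pla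
    rw [okr_plev, List.length_cons]
    have h1 := RU.le_la (xs := xsN n u as) hN.len as (8 * n) a
    have h2 := hN.nm
    omega
  have hunion : (V \ Lf) ∪ Lf = V := Finset.sdiff_union_of_subset hsub
  have hAvP : ∀ P ≤ Pm, Av V (ind (fun D => RU.Rt k P M (xsN n u as) (baseE Y.S D))) D ≤
      fr k u Λ := by
    intro P hP
    rw [← hunion, hAVL.union _ _ _ _ _ Finset.sdiff_disjoint]
    have h1 := hAVL.mono _ (V \ Lf)
      (fun D' => Av Lf (ind (fun D => RU.Rt k P M (xsN n u as) (baseE Y.S D))) D')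
      (fun _ => fr k u Λ) D (fun D' _ => by rw [hLf]; exact hFREE Y.S M k n u T Pm Λ m₀ as hN P hP D')
    rw [hAVL.const] at h1
    exact h1
  have hpt : ∀ D' : Dat, ind (Ev Y b m₁ (fun _ => True)) D' ≤ ind (Ev Y b m₁ (RR Y.S k M n u as Pm)) D' +
      ∑ P ∈ range (Pm + 1), ind (fun D => RU.Rt k P M (xsN n u as) (baseE Y.S D)) D' := by
    intro D'
    have hnn : ∀ (Φ : Dat → Prop) (D : Dat), 0 ≤ ind Φ D := by
      intro Φ D
      unfold ind
      split_ifs <;> norm_num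
    have hsn : 0 ≤ ∑ P ∈ range (Pm + 1), ind (fun D => RU.Rt k P M (xsN n u as) (baseE Y.S D)) D' :=
      Finset.sum_nonneg fun P _ => hnn _ _
    by_cases h1 : Ev Y b m₁ (fun _ => True) D'
    · by_cases h2 : RR Y.S k M n u as Pm D'
      · have h3 : Ev Y b m₁ (RR Y.S k M n u as Pm) D' := ⟨h1.1, h2⟩
        have h4 : ind (Ev Y b m₁ (fun _ => True)) D' = 1 := if_pos h1
        have h5 : ind (Ev Y b m₁ (RR Y.S k M n u as Pm)) D' = 1 := if_pos h3
        rw [h4, h5]
        linarith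
      · unfold RR at h2
        push Not at h2
        obtain ⟨P, hP, hR⟩ := h2
        have h4 : ind (Ev Y b m₁ (fun _ => True)) D' = 1 := if_pos h1
        have h5 : ind (fun D => RU.Rt k P M (xsN n u as) (baseE Y.S D)) D' ≤
            ∑ P ∈ range (Pm + 1), ind (fun D => RU.Rt k P M (xsN n u as) (baseE Y.S D)) D' :=
          Finset.single_le_sum (f := fun P => ind (fun D => RU.Rt k P M (xsN n u as) (baseE Y.S D)) D')
            (fun P _ => hnn _ _) (mem_range.2 (by omega))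
        have h6 : ind (fun D => RU.Rt k P M (xsN n u as) (baseE Y.S D)) D' = 1 := if_pos hR
        have h7 := hnn (Ev Y b m₁ (RR Y.S k M n u as Pm)) D'
        rw [h4]
        linarith
    · have h4 : ind (Ev Y b m₁ (fun _ => True)) D' = 0 := if_neg h1
      have h7 := hnn (Ev Y b m₁ (RR Y.S k M n u as Pm)) D'
      rw [h4]
      linarith
  have h1 := hAVL.mono _ V _ _ D (fun D' _ => hpt D')
  rw [hAVL.add, okr_Av_sum] at h1
  have h2 : ∑ P ∈ range (Pm + 1), Av V (ind (fun D => RU.Rt k P M (xsN n u as) (baseE Y.S D))) D ≤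
      ∑ _P ∈ range (Pm + 1), fr k u Λ :=
    Finset.sum_le_sum fun P hP => hAvP P (by have := mem_range.1 hP; omega)
  rw [Finset.sum_const, card_range, nsmul_eq_mul, Nat.cast_add, Nat.cast_one] at h2
  linarith

end Pool.Agent.H9x.BF
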