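import Pool.Agent.H9x.BF.Stm3

/-!
# Piece SMP of project BF, part 3
-/

set_option autoImplicit false
set_option linter.unusedVariables false

namespace Pool.Agent.H9x.BF

open Finset Filter H568R2 Pool.Agent.H676 Pool.Agent.NPC Pool.Agent.H620R2.Gauge
  Pool.Agent.H9x.Q Pool.Agent.H622R2 Pool.Agent.TH678.SETH Pool.Agent.TH678.RS
  Pool.Agent.H591R3.PHG

open Pool.Agent.H9x.BE (Dat)

theorem t_SMP (hBSE : S_BSE) : S_SMP := by
  intro I T S pl D hpl q hq
  rcases hBSE.cls S q with ⟨p, _, hp⟩ | ⟨v, hv⟩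
  · by_cases hi : ∃ i, pl i = p
    · obtain ⟨i, rfl⟩ := hi
      refine Or.inr ⟨i, fun z => ?_⟩
      show baseE _ _ _ = _
      rw [hp, hpl.extend_apply]
    · refine Or.inl ⟨D p, fun z => ?_⟩
      show baseE _ _ _ = _
      rw [hp, Function.extend_apply' _ _ _ hi]
  · exact Or.inl ⟨v, fun z => hv _⟩

end Pool.Agent.H9x.BF
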