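import Pool.Agent.H9x.BF.Stm3

/-! Piece TAMR of project BF. -/

set_option autoImplicit false
set_option linter.unusedSectionVars false
set_option linter.unusedVariables false

namespace Pool.Agent.H9x.BF

open Finset Filter H568R2 Pool.Agent.H676 Pool.Agent.NPC Pool.Agent.H620R2.Gauge
  Pool.Agent.H9x.Q Pool.Agent.H622R2 Pool.Agent.TH678.SETH Pool.Agent.TH678.RS
  Pool.Agent.H591R3.PHG

open Pool.Agent.H622R2.Exp hiding Dat

open Pool.Agent.TH678.ETH hiding th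

open Pool.Agent.H9x.RT (ml lv lev UU)

open Pool.Agent.H9x.BE (th Dat ind Sy Ev Fd Av ow Kx Tv S_AVL S_AVI S_KX S_CARDU S_RUNDT S_CONJ
  xsN pla Nm fr Szs S_ALT2 S_SZ2)

/-- the base oracle on the free strings -/
theorem TAMR_tt (S : ℕ → Polynomial ℕ) (D : Dat) (v : List Bool) :
    baseE S D (true :: v) = D (true :: v) := by
  have h1 : ¬ ∃ (c : ℕ × List Bool) (w : List Bool), w.length = La (lev S c) ∧
      true :: v = adr S c w := by
    rintro ⟨c, w, _, h⟩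
    simp [adr] at h
  unfold baseE
  rw [dif_neg h1]

/-- the free strings do not depend on the block -/
theorem TAMR_fo (S : ℕ → Polynomial ℕ) (c : ℕ × List Bool) {I : Type} (σ : I → Co S c)
    (a : I → Bool) (D : Dat) :
    RU.fo (baseE S (Function.extend (fun i => pos S c (σ i)) a D)) = fun u => D (true :: u) := by
  funext u
  have h1 : ¬ ∃ i, (fun i => pos S c (σ i)) i = true :: u := by
    rintro ⟨i, hi⟩
    simp [pos, adr] at hi
  show baseE S (Function.extend (fun i => pos S c (σ i)) a D) (true :: u) = D (true :: u)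
  rw [TAMR_tt, Function.extend_apply' _ _ _ h1]

theorem t_TAMR (hPL : S_PL) (hSMP : S_SMP) (hDEPC : S_DEPC) (hALT2 : S_ALT2) (hNUMR : S_NUMR) :
    S_TAMR := by
  intro g Y hI M k n u T Pm Λ m₀ m₁ as hN hk hu s hs
  have hth : 0 < th (s + 1) := pow_pos (by norm_num) _
  obtain ⟨t₁, ht₁⟩ : ∃ t₁ : ℕ, t₁ = 2 ^ (6 * s + 30) := ⟨_, rfl⟩
  have ht₁1 : 1 ≤ t₁ := by rw [ht₁]; exact Nat.one_le_two_pow
  have ht₁R : (1 : ℝ) ≤ t₁ := by exact_mod_cast ht₁1
  have ht₁c : ((t₁ : ℕ) : ℝ) = (2 : ℝ) ^ (6 * s + 30) := by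
    rw [ht₁, Nat.cast_pow, Nat.cast_ofNat]
  obtain ⟨t, ht⟩ : ∃ t : ℕ, t = 2 ^ (3 * s + 2) + (Pm + 1) * (t₁ * 2 ^ (u + 11)) := ⟨_, rfl⟩
  have ht1 : 1 ≤ t := by rw [ht]; exact le_trans Nat.one_le_two_pow (Nat.le_add_right _ _)
  have htR : (1 : ℝ) ≤ t := by exact_mod_cast ht1
  -- numbers
  have h17 := hN.h17
  have hΛT := hN.hΛT
  have hΛ := hN.hΛ
  have hPmΛ : Pm ≤ Λ := by
    have : 2 * Pm + 1 ≤ (k + 1) * (2 * Pm + 1) := Nat.le_mul_of_pos_left _ (by omega)
    omega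
  have hPm : Pm ≤ 2 ^ (2 * u) := by omega
  have hTt : T ≤ t₁ := by
    have h1 : T ≤ 2 ^ (2 * u) := by omega
    refine h1.trans ?_
    rw [ht₁]
    exact Nat.pow_le_pow_right (by norm_num) (by omega)
  have h24 : (0 : ℝ) < 24 * (t₁ : ℝ) := mul_pos (by norm_num) (lt_of_lt_of_le one_pos ht₁R)
  obtain ⟨q, hq⟩ : ∃ q : ℝ, q = 1 / (24 * (t₁ : ℝ)) := ⟨_, rfl⟩
  have hq0 : 0 < q := by rw [hq]; exact div_pos one_pos h24
  have hq1 : q ≤ 1 := by
    rw [hq, div_le_one h24]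
    linarith
  have hβ0 : 0 ≤ ((Pm : ℝ) + 1) * (k * (2 ^ (Λ + 2) * (1 / 2) ^ (t₁ + 1))) :=
    mul_nonneg (add_nonneg (Nat.cast_nonneg _) zero_le_one) (mul_nonneg (Nat.cast_nonneg _)
      (mul_nonneg (pow_nonneg zero_le_two _) (pow_nonneg (by norm_num) _)))
  have hβ := hNUMR.one s m₁ k u Pm Λ hs hk hu hPm (by omega)
  rw [← ht₁] at hβ
  have h2 := hNUMR.two s m₁ k u Pm hs hk hu hPm
  rw [← ht₁, ← ht, ← ht₁c, ← hq] at h2
  refine ⟨t, q ^ k, ((Pm : ℝ) + 1) * (k * (2 ^ (Λ + 2) * (1 / 2) ^ (t₁ + 1))), ht1, pow_pos hq0 k,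
    pow_le_one₀ hq0.le hq1, hβ0, h2, hβ, ?_⟩
  · intro c hc I _ _ σ hσ b D f hf ρ₀
    have hinj : Function.Injective (fun i => pos Y.S c (σ i)) := fun i j h => hσ (hPL.inj Y.S c h)
    obtain ⟨F₀, hF1, hF2⟩ := hDEPC I g Y.S hI.kx s (fun i => pos Y.S c (σ i)) D b hinj
    set G : (I → Bool) → Oracle := fun a =>
      baseE Y.S (Function.extend (fun i => pos Y.S c (σ i)) a D) with hG
    have hsmp : RU.Smp T G := hSMP I T Y.S (fun i => pos Y.S c (σ i)) D hinj
    let zz : Fin (2 ^ (u + 11)) → List Bool := fun j => bitsOf (u + 11) j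
    have hlen : ∀ P ≤ Pm, ∀ j, (pairBits (List.replicate P true) (xsN n u as j)).length +
        k * (2 * P + 1) ≤ Λ := by
      intro P hP j
      rw [length_pairBits, List.length_replicate, hN.len j]
      have h2 : (k + 1) * (2 * P + 1) ≤ (k + 1) * (2 * Pm + 1) :=
        Nat.mul_le_mul le_rfl (by omega)
      have h3 : (k + 1) * (2 * P + 1) = k * (2 * P + 1) + (2 * P + 1) := by ring
      omega
    have h := hALT2 I (Fin (2 ^ (u + 11))) t₁ k Pm Λ (2 ^ (3 * s + 2)) (RU.lf M T G)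
      (fun P j => pairBits (List.replicate P true) (xsN n u as j))
      (fun j => Tr (8 * n :: pw as) (leaves (fun j => enc as (8 * n) (zz j)) as (8 * n)
        (fun u => D (true :: u))) j) F₀ f ht₁1 ?_ ?_ hlen hF1 ?_ ρ₀
    · have e1 : 2 ^ (3 * s + 2) + (Pm + 1) * (t₁ * Fintype.card (Fin (2 ^ (u + 11)))) = t := by
        rw [ht, Fintype.card_fin]
      rw [e1, ← hq] at h
      exact h
    · have h2 : k * (2 * Pm + 1) ≤ (k + 1) * (2 * Pm + 1) := Nat.mul_le_mul (by omega) le_rfl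
      omega
    · intro y hy
      exact RU.dtr_lf hsmp M y ((hN.hp y hy).trans hTt)
    · intro z
      rw [hf z, hF2 z]
      unfold BE.Ev RR
      refine and_congr ?_ ?_
      · refine forall_congr' fun c' => forall_congr' fun _ => ?_
        rw [hI.tr]
      · refine forall_congr' fun P => forall_congr' fun hP => not_congr ?_
        have h3 := RU.rt_iff (k := k) (P := P) (T := T) (Λ := Λ) (w := 8 * n) (M := M) (as := as)
          hN.sz.1 zz (fun j => hlen P hP j) hN.cut G z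
        have h4 : RU.fo (G z) = fun u => D (true :: u) := TAMR_fo Y.S c σ z D
        rw [h4] at h3
        exact h3

end Pool.Agent.H9x.BF
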