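import Pool.Agent.H9x.BF.Stm3

/-! Piece TAMT of project BF (helper55; port of BE/TAMT.lean). -/

set_option autoImplicit false
set_option linter.unusedSectionVars false
set_option linter.unusedVariables false

namespace Pool.Agent.H9x.BF

open Finset Filter H568R2 Pool.Agent.H676 Pool.Agent.NPC Pool.Agent.H620R2.Gauge
  Pool.Agent.H9x.Q Pool.Agent.H622R2 Pool.Agent.TH678.SETH Pool.Agent.TH678.RS
  Pool.Agent.H591R3.PHG

open Pool.Agent.H622R2.Exp hiding Dat

open Pool.Agent.TH678.ETH hiding th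

open Pool.Agent.H9x.RT (ml lv lev UU)

open Pool.Agent.H9x.BE (th Dat ind Sy Ev Fd Av ow Kx Tv S_AVL S_AVI S_KX S_CARDU S_RUNDT S_CONJ
  xsN pla Nm fr Szs S_ALT2 S_SZ2)

theorem t_TAMT (hPL : S_PL) (hDEPC : S_DEPC) (hNUMR : S_NUMR) : S_TAMT := by
  intro g Y hI s
  have hth : 0 < th (s + 1) := by unfold th; positivity
  refine ⟨2 ^ (3 * s + 2), 1, 0, Nat.one_le_two_pow, one_pos, le_rfl, le_rfl, hNUMR.three s, ?_, ?_⟩
  · rw [zero_mul]
    exact hth.le
  · intro c hc I _ _ σ hσ b D f hf ρ₀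
    obtain ⟨F, hF1, hF2⟩ := hDEPC I g Y.S hI.kx s (fun i => pos Y.S c (σ i)) D b
      ((hPL.inj Y.S c).comp hσ)
    have hfF : f = F := by
      funext a
      rw [Bool.eq_iff_iff, hf a, hF2 a]
      unfold Pool.Agent.H9x.BE.Ev
      constructor
      · rintro ⟨h1, -⟩ c' hc'
        rw [← hI.tr]
        exact h1 c' hc'
      · intro h1
        refine ⟨fun c' hc' => ?_, trivial⟩
        rw [hI.tr]
        exact h1 c' hc'
    subst hfF
    refine le_of_eq ?_
    unfold Ex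
    refine sum_eq_zero fun ρ _ => ?_
    have h2 : DTr (2 ^ (3 * s + 2)) (rs (rs f ρ₀) ρ) := (hF1.rs (ρ := ρ₀)).rs (ρ := ρ)
    beta_reduce
    rw [if_neg (not_not.2 h2), mul_zero]

end Pool.Agent.H9x.BF
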