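import Pool.Agent.H9x.BF.Stm3

/-!
# Project BF, piece W2: the world with `EQP = EXP` and an infinite polynomial hierarchy
-/

set_option autoImplicit false

namespace Pool.Agent.H9x.BF

open Finset Filter H568R2 Pool.Agent.H676 Pool.Agent.NPC Pool.Agent.H620R2.Gauge
  Pool.Agent.H9x.Q Pool.Agent.H622R2 Pool.Agent.TH678.SETH Pool.Agent.TH678.RS
  Pool.Agent.H591R3.PHG

open Pool.Agent.H622R2.Exp hiding Dat

open Pool.Agent.TH678.ETH hiding th

open Pool.Agent.H9x.RT (ml lv lev UU)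

open Pool.Agent.H9x.BE (th Dat ind Sy Ev Fd Av ow Kx Tv S_AVL S_AVI S_KX S_CARDU S_RUNDT S_CONJ
  xsN pla Nm fr Szs S_ALT2 S_SZ2)

open Pool.Agent.K7x.EQ (IsEQP)

namespace W2x

theorem cut_congr_le {N : ℕ} {A A' : Oracle} (h : ∀ q : List Bool, q.length ≤ N → A q = A' q) :
    CC.cut N A = CC.cut N A' := by
  funext q
  unfold CC.cut
  by_cases hq : q.length ≤ N
  · rw [if_pos hq, if_pos hq, h q hq]
  · rw [if_neg hq, if_neg hq]

theorem Tv_congr {g : ℕ → Alg} {S : ℕ → Polynomial ℕ} (hK : Kx g S) {A A' : Oracle}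
    {c : ℕ × List Bool} (h : ∀ q : List Bool, q.length ≤ 2 ^ lev S c → A q = A' q) :
    Tv g A c ↔ Tv g A' c := by
  have h1 := hK.cut c.1 c.2 A
  have h2 := hK.cut c.1 c.2 A'
  have h3 : CC.cut (2 ^ (S c.1).eval c.2.length) A = CC.cut (2 ^ (S c.1).eval c.2.length) A' :=
    cut_congr_le h
  unfold Tv
  rw [← h1, ← h2, h3]

theorem baseE_congr (hBSE : S_BSE) (S : ℕ → Polynomial ℕ) {D D' : Dat} {n : ℕ}
    (h : ∀ q : List Bool, q.length ≤ n → D q = D' q)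
    (q : List Bool) (hq : q.length ≤ n) : baseE S D q = baseE S D' q := by
  rcases hBSE.cls S q with ⟨p, hp, hv⟩ | ⟨v, hv⟩
  · rw [hv D, hv D']
    exact h p (hp.trans hq)
  · rw [hv D, hv D']

end W2x

open W2x in
/-- **Piece W2.** -/
theorem t_W2 (hPL : S_PL) (hLIM : S_LIM) (hKX : S_KX) (hEQX : S_EQX) (hBSE : S_BSE)
    (hSZ2 : S_SZ2) (hEPI : S_EPI) : S_W2 := by
  have hne : Nonempty Alg := ⟨⟨fun _ => [], CC.const_polyTime _, 0⟩⟩
  have hne' : Nonempty (Alg × ℕ × ℕ) := ⟨⟨⟨fun _ => [], CC.const_polyTime _, 0⟩, 0, 0⟩⟩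
  obtain ⟨g, hg⟩ := exists_surjective_nat Alg
  obtain ⟨en, hen⟩ := exists_surjective_nat (Alg × ℕ × ℕ)
  obtain ⟨S, hK⟩ := hKX g
  choose cc hcc using hSZ2
  let Y : Sy := ⟨S, fun c D => Tv g (baseE S D) c, hK.big, fun c D D' hD =>
    Tv_congr hK (baseE_congr hBSE S hD)⟩
  have hY : Is2 g Y := ⟨hK, fun c D => Iff.rfl⟩
  obtain ⟨D, b, h1, h2, h3⟩ := hLIM Y (fun j D => RU.Req cc (baseE S D) (en j))
    (fun j s D b hok => hEPI cc hcc g Y hY (en j) s D b hok)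
  refine ⟨baseE S D, fun L hL => hEQX g S (baseE S D) D b hg hK (fun c w hw => hBSE.blk S D c w hw)
    (fun v => hBSE.zer S D v) h1 h2 L hL, fun k => ⟨lang k (RU.fo (baseE S D)), RU.lang_sig' _ k,
    fun V h hV hh => ?_⟩⟩
  obtain ⟨M, hM⟩ := hV
  have h4 := hh (cc M k)
  rw [eventually_atTop] at h4
  obtain ⟨i, hi⟩ := h4
  obtain ⟨j, hj⟩ := hen (M, k, i)
  have h5 := h3 j
  rw [hj] at h5
  obtain ⟨m₀, h6, h7⟩ := h5
  have h8 : h m₀ ≤ m₀ / cc M k := by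
    rw [Nat.le_div_iff_mul_le (hcc M k).1, mul_comm]
    exact hi m₀ h6
  obtain ⟨x, hx, hx2⟩ := h7 (2 ^ h m₀) (Nat.pow_le_pow_right (by norm_num) h8)
  refine ⟨x, ?_⟩
  rw [hx]
  have h9 : (fun y => ((M.out (baseE S D)) y).getD []) = V := by
    funext y
    rw [hM y]
    rfl
  rw [← h9]
  exact hx2

end Pool.Agent.H9x.BF
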