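import Pool.Agent.H9x.BF.Main
import Pool.Agent.H9x.BE.ALT2
import Pool.Agent.H9x.BE.SZ2
import Pool.Agent.H9x.BF.DEPC
import Pool.Agent.H9x.BF.EPI
import Pool.Agent.H9x.BF.FDR
import Pool.Agent.H9x.BF.FREE
import Pool.Agent.H9x.BF.NUMR
import Pool.Agent.H9x.BF.OKR
import Pool.Agent.H9x.BF.SMP
import Pool.Agent.H9x.BF.TAMR
import Pool.Agent.H9x.BF.TAMT
import Pool.Agent.H9x.BF.W2

/-!
# The oracle with `EQP = EXP` and exponential gaps in the polynomial hierarchy: assembly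
-/

set_option autoImplicit false

namespace Pool.Agent.H9x.BF

theorem m_SMP : S_SMP := t_SMP m_BSE

theorem m_DEPC : S_DEPC := t_DEPC m_SMP BE.t_CARDU BE.t_CONJ

theorem m_EPI : S_EPI :=
  t_EPI BE.t_AVL t_PL t_NUMS (t_ITER t_NUMS m_STEP) (t_TAMT t_PL m_DEPC t_NUMR)
    (t_TAMR t_PL m_SMP m_DEPC BE.t_ALT2 t_NUMR)
    (t_OKR BE.t_AVL t_PL (t_FREE BE.t_AVI m_SMP)) (t_FDR m_BSE)

theorem m_W2 : S_W2 := t_W2 t_PL m_LIM BE.t_KX t_EQX m_BSE BE.t_SZ2 m_EPI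

end Pool.Agent.H9x.BF
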