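import Pool.Agent.H9x.BF.Stm2
import Pool.Agent.H9x.BE.ORCN

/-!
# Project BF, piece ORCN: the oracle
-/

set_option autoImplicit false
set_option linter.unusedSectionVars false
set_option linter.unusedVariables false

namespace Pool.Agent.H9x.BF

open Finset H568R2 Pool.Agent.H676 Pool.Agent.NPC Pool.Agent.H620R2.Gauge
  Pool.Agent.H9x.Q Pool.Agent.H622R2 Pool.Agent.TH678.SETH Pool.Agent.TH678.RS

open Pool.Agent.H622R2.Exp hiding Dat

open Pool.Agent.TH678.ETH hiding th

open Pool.Agent.H9x.RT (ml lv HZ lev UU hs Adm isP_of_isPH)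

open Pool.Agent.H9x.BE (th Dat ind Sy Ev Fd Av ow Kx Tv Jn cN contN Kh S_AVL S_AVI S_KX S_KHN
  S_CARDU S_RUNDT S_CONJ)

namespace ORCN

theorem on (S N : ℕ → Polynomial ℕ) (h : ℕ → Alg × Polynomial ℕ) (D : Dat) (p : Jn N) :
    orcE S N h D (cN p) = true ↔ contN h p (orcE S N h D) :=
  C1.Phi_code _ BE.ORCN.cN_inj _ _ (fun p _ _ hA => BE.ORCN.cont_congr h p hA) p

theorem off (S N : ℕ → Polynomial ℕ) (h : ℕ → Alg × Polynomial ℕ) (D : Dat) (q : List Bool)
    (hq : ∀ p : Jn N, q ≠ cN p) : orcE S N h D q = baseE S D q := C1.Phi_not _ _ _ _ hq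

theorem loc (hBSE : S_BSE) (S N : ℕ → Polynomial ℕ) (h : ℕ → Alg × Polynomial ℕ) (n : ℕ)
    (D D' : Dat) (hD : ∀ q : List Bool, q.length ≤ n → D q = D' q) :
    ∀ q : List Bool, q.length ≤ n → orcE S N h D q = orcE S N h D' q := by
  have key : ∀ (m : ℕ) (q : List Bool), q.length = m → m ≤ n →
      orcE S N h D q = orcE S N h D' q := by
    intro m
    induction m using Nat.strong_induction_on with
    | _ m ih =>
      intro q hq hqn
      by_cases hp : ∃ p : Jn N, q = cN p
      · obtain ⟨p, rfl⟩ := hp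
        have hA : ∀ z : List Bool, z.length < (cN p).length →
            orcE S N h D z = orcE S N h D' z :=
          fun z hz => ih z.length (by omega) z rfl (by omega)
        rw [Bool.eq_iff_iff, on, on, BE.ORCN.cont_congr h p hA]
      · push Not at hp
        rw [off S N h D q hp, off S N h D' q hp]
        rcases hBSE.cls S q with ⟨p, hpq, hc⟩ | ⟨v, hv⟩
        · rw [hc, hc]
          exact hD p (by omega)
        · rw [hv, hv]
  intro q hq
  exact key q.length q rfl hq

theorem adm (hBSE : S_BSE) (S N : ℕ → Polynomial ℕ) (h : ℕ → Alg × Polynomial ℕ) (hK : Kh h N)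
    (m T : ℕ) (I : Type) (pl : I → List Bool) (D : Dat) (hinj : Function.Injective pl)
    (hlen : ∀ i, m < (pl i).length) :
    Adm m T (fun a : I → Bool => orcE S N h (Function.extend pl a D)) where
  low q hq := by
    refine ⟨orcE S N h D q, fun z => ?_⟩
    refine loc hBSE S N h m _ _ (fun q' hq' => ?_) q hq
    refine Function.extend_apply' _ _ _ ?_
    rintro ⟨i, hi⟩
    have := hlen i
    rw [hi] at this
    omega
  cls q hq := by
    by_cases hp : ∃ p : Jn N, q = cN p
    · obtain ⟨p, rfl⟩ := hp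
      refine Or.inr (Or.inr ⟨{y | ∃ w : List Bool, w.length ≤ (h p.e).2.eval p.x.length ∧
        y = pairBits w p.x}, (h p.e).1, (N p.e).eval p.x.length, BE.ORCN.sq_le_cN p, ?_,
        fun z => ?_⟩)
      · rintro y ⟨w, hw, rfl⟩
        exact hK.hbig p.e p.x w hw
      · show orcE S N h (Function.extend pl z D) (cN p) = true ↔ _
        rw [on]
        unfold contN
        constructor
        · rintro ⟨w, hw, hw'⟩
          exact ⟨pairBits w p.x, ⟨w, hw, rfl⟩, hw'⟩
        · rintro ⟨y, ⟨w, hw, rfl⟩, hw'⟩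
          exact ⟨w, hw, hw'⟩
    · push Not at hp
      rcases hBSE.cls S q with ⟨p, hpq, hc⟩ | ⟨v, hv⟩
      · by_cases hi : ∃ i : I, pl i = p
        · obtain ⟨i, rfl⟩ := hi
          refine Or.inr (Or.inl ⟨i, fun z => ?_⟩)
          show orcE S N h (Function.extend pl z D) q = z i
          rw [off S N h _ q hp, hc, hinj.extend_apply]
        · refine Or.inl ⟨D p, fun z => ?_⟩
          show orcE S N h (Function.extend pl z D) q = _
          rw [off S N h _ q hp, hc, Function.extend_apply' _ _ _ hi]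
      · refine Or.inl ⟨v, fun z => ?_⟩
        show orcE S N h (Function.extend pl z D) q = _
        rw [off S N h _ q hp, hv]

end ORCN

theorem t_ORCN (hBSE : S_BSE) : S_ORCN where
  on := ORCN.on
  off := ORCN.off
  loc := ORCN.loc hBSE
  adm := ORCN.adm hBSE

end Pool.Agent.H9x.BF
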