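import Pool.Agent.H9x.BE.Stm
import Pool.Agent.H9x.BE.EXPN
import Pool.Agent.H9x.BE.POT
import Pool.Agent.H9x.BE.BOX
import Pool.Agent.H9x.BE.HITN
import Pool.Agent.H9x.BE.SW
import Pool.Agent.H9x.BE.AVG
import Pool.Agent.K7x.EQ.Dist2
import Pool.Agent.K7x.EQ.Mask

/-!
# Project BF (zero error), part 1: exact blocks meet every event which is hidden from them

`S_XXX` are the statements; piece `XXX` is the file `Pool/Agent/H9x/BF/XXX.lean` with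
`theorem t_XXX : S_XXX`. Statements and theorems of project BE may be used:
`BE.t_BOX`, `BE.t_EXPN`, `BE.t_PROD`, `BE.t_POT BE.t_BOX BE.t_EXPN BE.t_PROD`, `BE.t_HITN`, ...
-/

set_option autoImplicit false
set_option linter.unusedSectionVars false
set_option linter.unusedVariables false

namespace Pool.Agent.H9x.BF

open Finset H568R2 Pool.Agent.H676 Pool.Agent.H9x.RT Pool.Agent.H9x.BE

open Pool.Agent.K7x.EQ (sgi ssum TS fsum Iu m2e va Ig)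

/-! ## Part A: the walk, second moment -/

open Classical in
/-- PIECE TAILV (about 120 lines). **The tail of the final rounding.** For `a` with independent bits of
means `v` the forrelation is concentrated at `ml (Fo H) v`. PROOF. `N = card X`; for fixed right half `t`,
`Fo H (Sum.elim s t) = ∑ x, c x * sg (s x)` with `c x = (∑ y, H x y * sg (t y)) / N`, `∑ c² = 1 / N`
(orthogonality `hH.orth`, see `avg_Fo_sq` in RT/Core.lean and the proof of `BE.t_HITN`), so the average over `s` of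
`exp (z * ∑ c x (sg (s x) - v x))` is at most `exp (z² / 2 * (1 / N))` (Hoeffding's lemma for a sign of mean
`m`, `|m| ≤ 1`: `((1 + m)/2) exp (z (1 - m)) + ((1 - m)/2) exp (-z (1 + m)) ≤ exp (z²/2)`; the weaker bound
`exp (4 z²)` from `exp x ≤ x + exp (x²)`, `|1 - m|, |1 + m| ≤ 2`, is enough for the claim, with
`exp (4 z² / N)`). Then `∑ x, c x * v x = ∑ y, d y * sg (t y)` with `d y = (∑ x, H x y * v x) / N`, `∑ d² =
∑ v² / N² ≤ 1 / N`, again Hoeffding. Markov for the deviations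
`η/4`, `z = η N / 32`, two steps and two signs, each at most `exp (-(η² N / 256))`. `ml F v` is the sum over `a` of `F a * ∏ i, (1 + sg (a i) v i) / 2`
(definition of `ml`), `ml_Fo`. -/
def S_TAILV : Prop := ∀ (X : Type) [Fintype X] [DecidableEq X] [Nonempty X] (H : X → X → ℝ)
  (γ η : ℝ), Orth H γ → 0 < η → ∀ v : X ⊕ X → ℝ, (∀ i, |v i| ≤ 1) →
    ml (fun a => if |Fo H a - ml (Fo H) v| ≤ η / 2 then (0 : ℝ) else 1) v ≤
      4 * Real.exp (-(η ^ 2 * Fintype.card X / 256))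

/-- PIECE MOM2 (about 150 lines). **The second moment, one step.** PROOF. As PHI of project BE
(BE/PHI.lean; uses `BE.t_BOX`, `BE.t_EXPN` and a product formula as `BE.t_PROD`): by `RT.Fo_step`
`ml (Fo H) (v + δ inc u) - δ² = φ + δ z u` with `z u = inc (fun _ x => κ x) u ()`, `∑ κ² ≤ 1 / N` (`var_le`),
`N = card X`. With `c = φ + r` (`r` real, `|r| ≤ 1`) the left side is the average over `u` of
`ml G (v + δ inc u) * (c + δ z u)²`, and `(c + δ z)² = c² + 2 c δ z + δ² z²`. By EXPN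
`ml G (v + δ inc u) = f + δ a1 + δ² a2 + δ³ r₃`, so the average is
`c² f + δ² (c² Eu a2 + 2 c Eu (a1 z) + f Eu (z²)) + O(δ³)` (`Eu a1 = Eu z = 0`), with
`|Eu a2| ≤ γ lv 2 G v ≤ 4 γ Λ f`, `|Eu (a1 z)| ≤ lv 1 G v / sqrt N ≤ 2 Λ f / sqrt N` (Cauchy-Schwarz,
`gram_row`), `Eu (z²) ≤ 1 / N`, and `2 |c| * 2 Λ / sqrt N ≤ c² + 4 Λ² / N`. -/
def S_MOM2 : Prop := ∀ (X : Type) [Fintype X] [DecidableEq X] [Nonempty X] (H : X → X → ℝ)
  (γ Λ : ℝ), Orth H γ → 0 ≤ Λ → ∃ K₅ : ℝ, 0 ≤ K₅ ∧ ∀ δ : ℝ, 0 ≤ δ → δ ≤ 1 →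
    Small (Wf H) δ → ∀ G : (X ⊕ X → Bool) → ℝ, RB Λ G → ∀ v : X ⊕ X → ℝ, (∀ i, |v i| ≤ 1 / 2) →
      ∀ r : ℝ, |r| ≤ 1 →
      Eu (fun u => ml G (fun i => v i + δ * inc (Wf H) u i) *
        (ml (Fo H) (fun i => v i + δ * inc (Wf H) u i) - δ ^ 2 + r) ^ 2) ≤
      (1 + δ ^ 2 * (1 + 4 * γ * Λ)) * (ml G v * (ml (Fo H) v + r) ^ 2) +
        δ ^ 2 * ((4 * Λ ^ 2 + 1) / Fintype.card X) * ml G v + δ ^ 3 * K₅

/-- PIECE CORE2 (about 200 lines; hypotheses `(hTAILV : S_TAILV) (hMOM2 : S_MOM2)`). **Concentrated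
forrelation hits.** PROOF. As `BE.t_CORE` (BE/CORE.lean; copy it). `q = ml G 0 > 0`, `N = card X`, the walk
`(T, δ)` with `T δ² = ε`, `δ` small. (a) `15/16 q ≤ A_t = Sn t (ml G) 0 ≤ 17/16 q` as there; (b) the exit:
`P_T = Sn T (ml G * pot) 0 ≤ q η² / 100` as there (`BE.t_POT`, `pot 0 = 4 N exp (-lam/2)`,
`lam = 1/(2ε)`, hypothesis `hex`). (c) Second moment: with `c_t = φ + (T - t) δ² - ε` put
`Ψ_t v = if v in the box then ml G v * (ml (Fo H) v + (T - t) δ² - ε)² else 0`; MOM2 gives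
`St Ψ_(t+1) ≤ (1 + δ² (1 + 4 γ Λ)) Ψ_t + δ² ((4 Λ² + 1)/N) ml G + δ³ K₅`, so (start: `φ(0) = 0`, `T δ² = ε`,
`Ψ_0 0 = 0`) `Sn T (1_box ml G (φ - ε)²) 0 ≤ exp 2 * (17/16) * (5 Λ²/N) q + small ≤ 42 Λ²/N q` (cf. K7x/EQ/Conc.lean
`wD_conc`). (d) `G' a := if |Fo H a - ε| ≤ η then G a else 0`. For `v` in the box `ml G v ≤ ml G' v +
(4/η²) ml G v (φ(v) - ε)² + 4 exp (-(η² N/256))`: if `|φ - ε| ≤ η/2` by TAILV (`G ≤ 1`), otherwise the second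
term is at least `ml G v`; for `v` outside the box `ml G v ≤ ml G v * pot v`. Hence `15/16 q ≤ Sn T (ml G') 0 +
168 Λ²/(η² N) q + P_T + q/8`, so `Sn T (ml G') 0 > q/2` and some `a` has `G' a ≥ q/2`. -/
def S_CORE2 : Prop := ∀ (X : Type) [Fintype X] [DecidableEq X] [Nonempty X] (H : X → X → ℝ)
  (γ Λ ε η : ℝ), Orth H γ → γ * Real.sqrt (Fintype.card X) ≤ 1 → 1 ≤ Λ → 0 < ε → ε ≤ 1 →
    0 < η → η ≤ 1 → 128 * Λ ≤ Real.sqrt (Fintype.card X) →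
    4000 * Λ ^ 2 ≤ η ^ 2 * Fintype.card X →
    4000 * (Fintype.card X : ℝ) * Real.exp (-(1 / (8 * ε))) ≤ η ^ 2 →
    ∀ G : (X ⊕ X → Bool) → ℝ, RB Λ G → 32 * Real.exp (-(η ^ 2 * Fintype.card X / 256)) < ml G 0 →
      ∃ a, |Fo H a - ε| ≤ η ∧ ml G 0 / 2 ≤ G a

/-! ## Part B: slices -/

/-- PIECE SLR (about 80 lines). **A decision tree has relatively nearly the same mean on a slice.**
PROOF. Induction on `t` as `K7x.EQ.slice_dtr` (K7x/EQ/Slice.lean). Query `i ∉ R`: `TS_free`,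
`ml_zero_split`. Query `i ∈ R`: `TS_split`, the induction hypothesis for `R.erase i`, `s - sgi b`, and
`TS_count`: `card R * TS (R.erase i) (s - sgi b) 1 = (card R + sg b * s) * TS R s 1`, with
`1 + sg b * s / card R ≥ 1 - κ` (if `card R > 0`). -/
def S_SLR : Prop := ∀ (I : Type) [Fintype I] [DecidableEq I] (κ : ℝ), 0 ≤ κ → κ ≤ 1 →
  ∀ (t : ℕ) (R : Finset I) (s : ℤ) (f : (I → Bool) → Bool), DTr t f → t ≤ R.card →
    |(s : ℝ)| + t ≤ κ * (R.card - t) →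
    (1 - κ) ^ t * (TS R s (fun _ => 1) * ml (br f) 0) ≤ TS R s (br f)

open Classical in
/-- PIECE STN (about 120 lines). **The number of stars and the sum of the fixed signs.** PROOF.
Exponential moments; `Ex (wq p)` is the average over independent coordinates (`wq p none = p`,
`wq p (some b) = (1 - p)/2`), so `Ex (wq p) (fun ρ => ∏ i, F (ρ i)) = (∑ c, wq p c * F c) ^ card I`
(see K7x/EQ/Mask.lean for the same with second moments; `fsum ρ = ∑ i, (0 or sgi b)`). For the sum: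
`p + (1-p) cosh z ≤ exp (z²/2)`, `z = L / card I`. For the stars: `p e^(-z) + (1 - p) ≤ exp (-p (1 - e^(-z)))`,
with `z = log 2`: `exp (-p/2)` per coordinate against the factor `2 ^ (p card I / 2)`, and
`1/2 - (log 2)/2 ≥ 1/8`. -/
def S_STN : Prop := ∀ (I : Type) [Fintype I] [DecidableEq I] (p L : ℝ), 0 < p → p ≤ 1 →
  0 ≤ L → 1 ≤ Fintype.card I →
  Ex (wq p) (fun ρ : Restr I => if p * Fintype.card I / 2 ≤ ((Pool.Agent.K7x.EQ.stars ρ).card : ℝ) ∧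
      |((fsum ρ : ℤ) : ℝ)| ≤ L then (0 : ℝ) else 1) ≤
    2 * Real.exp (-(L ^ 2 / (2 * Fintype.card I))) + Real.exp (-(p * Fintype.card I / 8))

open Classical in
/-- PIECE MASKR (about 150 lines; hypotheses `(hSLR : S_SLR) (hSTN : S_STN)`). **Slices meet averages of
events which become decision trees.** PROOF. `M = card Y = 2 ^ (4 m)`, `m ≥ 4 u`, `L = M / 2 ^ (4 u)`. Suppose
`∑ w i * br (f i) b < q/2` on the whole slice `ssum univ b = r`. For a restriction `ρ` with `2 |stars| ≥ p M`,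
`|fsum| ≤ L` the slice of `stars ρ` with the sum `r - fsum ρ` is nonempty (`exists_slice`, parity by
`card_stars`, `|r - fsum| ≤ 3 L ≤ p M / 2`), `ssum_ov`; so `∑ i, w i * TS (stars ρ) (r - fsum ρ) (br (rs (f i) ρ)) <
q/2 * TS (stars ρ) (r - fsum ρ) 1`. If `rs (f i) ρ` is a decision tree of depth `t` then SLR with
`κ = (3 L + t)/(p M/2 - t)`, `t κ ≤ 1/4` (`64 t² ≤ p 2^(4u)`, `t ≤ 2 ^ (2u) ≤ L`), `(1 - κ)^t ≥ 1 - t κ ≥ 3/4`, gives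
`TS (br ..) ≥ 3/4 * TS 1 * ml (br (rs (f i) ρ)) 0`. Take averages over `ρ`: `∑ ρ, w ρ * ml (br (rs f ρ)) 0 =
ml (br f) 0` (`avg_restr p 0 ∅` as in SW). So `3/4 (q - β - P[bad ρ]) ≤ q/2` with `P[bad] ≤
2 exp (-(L²/(2M))) + exp (-(p M/8)) ≤ 3 exp (-(2 ^ (8 u)/2)) ≤ q/8` (STN), `β ≤ q/8`: contradiction. -/
def S_MASKR : Prop := ∀ (Y : Type) [Fintype Y] [DecidableEq Y] (m u t : ℕ) (p β q : ℝ) (ι : Type)
  (sι : Finset ι) (w : ι → ℝ) (f : ι → (Y → Bool) → Bool), Fintype.card Y = 2 ^ (4 * m) →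
  4 * u ≤ m → 1 ≤ u → 1 ≤ t → 0 < p → p ≤ 1 → 0 ≤ β → 64 * (t : ℝ) ^ 2 ≤ p * 2 ^ (4 * u) →
  β ≤ q / 8 → 32 * Real.exp (-((2 : ℝ) ^ (8 * u) / 2)) ≤ q →
  (∀ i ∈ sι, 0 ≤ w i) → ∑ i ∈ sι, w i = 1 →
  (∀ i ∈ sι, Ex (wq p) (fun ρ : Restr Y => if ¬ DTr t (rs (f i) ρ) then (1 : ℝ) else 0) ≤ β) →
  q ≤ ∑ i ∈ sι, w i * ml (br (f i)) 0 →
  ∀ r : ℤ, (∃ r' : ℤ, r = 2 * r') → |(r : ℝ)| ≤ 2 * 2 ^ (4 * m) / 2 ^ (4 * u) →
    ∃ b : Y → Bool, ssum univ b = r ∧ q / 2 ≤ ∑ i ∈ sι, w i * br (f i) b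

/-- PIECE VALN (about 150 lines). **The exact values.** PROOF. Extract it from the proof of
`K7x.EQ.exists_dist2` (K7x/EQ/Dist2.lean): `ε = 2 σ`, `σ = sin (π / (2 (2 * 512 u + 1)))`, `exists_tau`,
`Fo_int`, `m1_eq`, `m2_eq`, `small_k`; `r1 = 2 (τi - Sf a)` or `- 2 Sf a`, ... -/
def S_VALN : Prop := ∀ u : ℕ, 1 ≤ u → ∃ ε : ℝ, 0 < ε ∧ ε ≤ 1 / (16 * ((8 * u * 2 : ℕ) : ℝ)) ∧
  ∀ (v : Bool) (a : (Fin (8 * u * 2) → Bool) ⊕ (Fin (8 * u * 2) → Bool) → Bool),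
    |Fo (Hm (8 * u * 2)) a - (if v then ε else 0)| ≤ 1 / 2 ^ (4 * u) →
    ∃ r₁ : ℤ, (∃ r' : ℤ, r₁ = 2 * r') ∧ |(r₁ : ℝ)| ≤ 2 * 2 ^ (4 * (6 * u)) / 2 ^ (4 * u) ∧
    ∃ r₂ : ℤ, (∃ r' : ℤ, r₂ = 2 * r') ∧
      |(r₂ : ℝ)| ≤ 2 * 2 ^ (4 * (6 * u * (1024 * u + 1) + 1)) / 2 ^ (4 * u) ∧
      ∀ (b : (Fin (8 * u * 2) → Bool) × (Fin (8 * u) → Bool) → Bool)
        (c : (Fin (m2e u) → Bool) → Bool), ssum univ b = r₁ → ssum univ c = r₂ →
        va u (Sum.elim a (Sum.elim b c)) = if v then 1 else 0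

open Classical in
/-- PIECE HITE (about 200 lines; hypotheses `(hCORE2 : S_CORE2) (hMASKR : S_MASKR) (hVALN : S_VALN)`).
**Exact blocks meet every hidden event.** PROOF. `G z = ∑ i ∈ sι, w i * br (f i) z` for
`z = Sum.elim a (Sum.elim b c)`. (1) `G₀ a` = the average of `G` over `(b, c)`. It is the average over
`(i, b, c)` of the events `a ↦ f i (Sum.elim a (Sum.elim b c))`, which are tame (hypothesis with
`σ = Sum.inl`, `Function.extend Sum.inl a z₀ = Sum.elim a _`), so by `BE.t_SW` (with `τ = q/2`, `Λ = t²/p²`,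
`card = 2 ^ (16 u + 1)`) and `BE.t_AVG` the function `(G₀ + τ)/2` satisfies `RB Λ`. CORE2 with
`X = Fin (8u*2) → Bool`, `H = Hm (8 u * 2)` (`orth_Hm`, `γ = 1/ sqrt 2 ^ (16 u)`), `ε` from VALN, `η = 1/2^(4u)`, or (for
the value 0) `BE.t_HITN` with `η`: there is `a` with the forrelation wanted and `(G₀ a + τ)/2 ≥ (q + τ)/4`,
so `G₀ a ≥ (q - τ)/2 = q/4`. (`Λ ≤ 2 ^ (4u) / 64`, `128 Λ ≤ 2 ^ (8 u)`, `4000 Λ² ≤ 2 ^ (8u) = η² N`;
`4000 * 2 ^ (16u) * exp (-(32 u)) ≤ 2 ^ (-8u)` as `exp 1 ≥ 2.7`.) (2) VALN gives `r₁`, `r₂`. MASKR with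
`Y = (Fin (8u*2) → Bool) × (Fin (8u) → Bool)`, `m = 6 u`, the average over `(i, c)`: some `b` with
`ssum univ b = r₁` and mean over `c` at least `q/8`. (3) MASKR with `Y = Fin (m2e u) → Bool`,
`m = 6 u (1024 u + 1) + 1`: some `c` with `ssum univ c = r₂` and `G ≥ q/16`. -/
def S_HITE : Prop := ∀ (u t : ℕ) (p β q : ℝ) (ι : Type) (sι : Finset ι) (w : ι → ℝ)
  (f : ι → (Iu u → Bool) → Bool), 1 ≤ u → 1 ≤ t → 0 < p → p ≤ 1 → 0 ≤ β →
  64 * (t : ℝ) ^ 2 ≤ p ^ 2 * 2 ^ (4 * u) → β * 2 ^ (32 * u + 8) ≤ q →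
  1024 * Real.exp (-((2 : ℝ) ^ (8 * u) / 256)) ≤ q →
  (∀ i ∈ sι, 0 ≤ w i) → ∑ i ∈ sι, w i = 1 →
  (∀ i ∈ sι, ∀ (J : Type) [Fintype J] [DecidableEq J] (σ : J → Iu u) (z₀ : Iu u → Bool),
    Function.Injective σ → ∀ ρ₀ : Restr J, Ex (wq p) (fun ρ : Restr J =>
      if ¬ DTr t (rs (rs (fun a : J → Bool => f i (Function.extend σ a z₀)) ρ₀) ρ)
        then (1 : ℝ) else 0) ≤ β) →
  q ≤ ∑ i ∈ sι, w i * ml (br (f i)) 0 →
  ∀ v : Bool, ∃ z : Iu u → Bool, va u z = (if v then 1 else 0) ∧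
    q / 16 ≤ ∑ i ∈ sι, w i * br (f i) z

end Pool.Agent.H9x.BF
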