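import Pool.Agent.H9x.BF.Stm1
import Pool.Agent.H9x.BE.Stm3
import Pool.Agent.K7x.EQ.Fml
import Pool.Agent.K7x.EQ.Fam

/-!
# Project BF (zero error), part 2: the construction and the world with `P = NP` and `EQP = EXP`

Most pieces are ports of the files of the same name in `Pool/Agent/H9x/BE/`: copy the file, change the
namespace, and replace the blocks (forrelation with `lm` bits) by exact blocks (`Iu (uu s)`, `va = 1` or
`va = 0`). Everything in `BE` which does not depend on the places of the blocks is used as it is.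
-/

set_option autoImplicit false
set_option linter.unusedSectionVars false
set_option linter.unusedVariables false

namespace Pool.Agent.H9x.BF

open Finset H568R2 Pool.Agent.H676 Pool.Agent.NPC Pool.Agent.H620R2.Gauge
  Pool.Agent.H9x.Q Pool.Agent.H622R2 Pool.Agent.TH678.SETH Pool.Agent.TH678.RS

open Pool.Agent.H622R2.Exp hiding Dat

open Pool.Agent.TH678.ETH hiding th

open Pool.Agent.H9x.RT (ml lv HZ lev UU hs Adm isP_of_isPH)

open Pool.Agent.H9x.BE (th Dat ind Sy Ev Fd Av ow Kx Tv Jn cN contN Kh S_AVL S_AVI S_KX S_KHN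
  S_CARDU S_RUNDT S_CONJ)

open Pool.Agent.K7x.EQ (Iu m2e va Ig KK mkv IsEQP)

/-- the size of the blocks of level `s` -/
def uu (s : ℕ) : ℕ := 8 * (s + 8) ^ 2

/-- the number of the last bits of the address of a bit of a block of level `s` -/
def La (s : ℕ) : ℕ := 2 + KK (8 * uu s * 2) (8 * uu s) (m2e (uu s))

/-- the strings about the block `c` -/
def adr (S : ℕ → Polynomial ℕ) (c : ℕ × List Bool) (w : List Bool) : List Bool :=
  false :: true :: cS c.1 (lev S c) (c.2 ++ w)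

/-- the contents of the register as a string -/
def rgs (u : ℕ) (v : Pool.Agent.K7x.EQ.Rg (8 * u * 2) (8 * u) (m2e u) → Bool) : List Bool :=
  List.ofFn fun t => v ((Pool.Agent.K7x.EQ.pos (8 * u * 2) (8 * u) (m2e u)).symm t)

/-- a string of length `2 + KK ..` for each position of a block; `K7x.EQ.enc u z (wd u i) = z i` -/
def wd (u : ℕ) : Iu u → List Bool
  | .inl (.inl y) => false :: false :: rgs u (mkv false false y (fun _ => false) (fun _ => false))
  | .inl (.inr y) => false :: true :: rgs u (mkv false false y (fun _ => false) (fun _ => false))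
  | .inr (.inl p) => true :: false :: rgs u (mkv false true p.1 p.2 (fun _ => false))
  | .inr (.inr q) => true :: true :: rgs u (mkv true false (fun _ => false) (fun _ => false) q)

/-- the coordinates of a block -/
abbrev Co (S : ℕ → Polynomial ℕ) (c : ℕ × List Bool) : Type := Iu (uu (lev S c))

/-- the places of the bits of the block `c` -/
def pos (S : ℕ → Polynomial ℕ) (c : ℕ × List Bool) (i : Co S c) : List Bool :=
  adr S c (wd (uu (lev S c)) i)

/-- the value of the block is one -/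
def YesD (S : ℕ → Polynomial ℕ) (D : Dat) (c : ℕ × List Bool) : Prop :=
  va (uu (lev S c)) (fun i => D (pos S c i)) = 1

/-- the value of the block is zero -/
def NoD (S : ℕ → Polynomial ℕ) (D : Dat) (c : ℕ × List Bool) : Prop :=
  va (uu (lev S c)) (fun i => D (pos S c i)) = 0

open Classical in
/-- the level of a place -/
noncomputable def plev (S : ℕ → Polynomial ℕ) (q : List Bool) : ℕ :=
  if h : ∃ (c : ℕ × List Bool) (i : Co S c), q = pos S c i then lev S h.choose else q.length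

/-- the places of level at least `s` and of length at most `n` -/
noncomputable def VV (S : ℕ → Polynomial ℕ) (s n : ℕ) : Finset (List Bool) :=
  (hs n).filter fun q => s ≤ plev S q

/-- the blocks below the level `s` tell `b` -/
def Tell (Y : Sy) (s : ℕ) (D : Dat) (b : ℕ × List Bool → Bool) : Prop :=
  ∀ c, lev Y.S c < s → (b c = true → YesD Y.S D c) ∧ (b c = false → NoD Y.S D c)

/-- the state of the construction -/
def Ok (Y : Sy) (s : ℕ) (R : Dat → Prop) (r : ℝ) (D : Dat) (b : ℕ × List Bool → Bool) : Prop :=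
  Tell Y s D b ∧ ∃ n₀, ∀ n, n₀ ≤ n → r ≤ Av (VV Y.S s n) (ind (Ev Y b s R)) D

open Classical in
/-- as functions of some of the bits of one block at the level `s` the events become decision trees after a
random restriction -/
def Tame (Y : Sy) (s : ℕ) (R : Dat → Prop) : Prop :=
  ∃ (t : ℕ) (p β : ℝ), 1 ≤ t ∧ 0 < p ∧ p ≤ 1 ∧ 0 ≤ β ∧
    64 * (t : ℝ) ^ 2 ≤ p ^ 2 * 2 ^ (4 * uu s) ∧ β * 2 ^ (32 * uu s + 8) ≤ th (s + 1) ∧
    ∀ c, lev Y.S c = s → ∀ (I : Type) [Fintype I] [DecidableEq I] (σ : I → Co Y.S c),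
      Function.Injective σ → ∀ (b : ℕ × List Bool → Bool) (D : Dat) (f : (I → Bool) → Bool),
      (∀ a, f a = true ↔ Ev Y b (s + 1) R (Function.extend (fun i => pos Y.S c (σ i)) a D)) →
      ∀ ρ₀ : Restr I, Ex (wq p) (fun ρ : Restr I =>
        if ¬ DTr t (rs (rs f ρ₀) ρ) then (1 : ℝ) else 0) ≤ β

/-- the state `(D', b')` extends `(D, b)` from stage `s` on -/
def Ext (Y : Sy) (s : ℕ) (D : Dat) (b : ℕ × List Bool → Bool) (D' : Dat)
    (b' : ℕ × List Bool → Bool) : Prop :=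
  (∀ q, plev Y.S q < s → D' q = D q) ∧ ∀ c, lev Y.S c < s → b' c = b c

/-! ## The abstract construction -/

/-- PIECE PL (about 120 lines). The places. Port of BE/PL.lean. The last bits `wd u i` have the length
`La`; `wd u` is injective: the first two bits give the kind, then `List.ofFn_injective`, `Equiv`, `mkv_inj`.
`adr_inj`: if `w.length = La (lev S c)`, `w'.length = La (lev S c')` then `adr S c w = adr S c' w'` implies
`c = c'`, `w = w'` (`cS_inj`). -/
structure S_PL : Prop where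
  adr_inj : ∀ (S : ℕ → Polynomial ℕ) (c c' : ℕ × List Bool) (w w' : List Bool),
    w.length = La (lev S c) → w'.length = La (lev S c') → adr S c w = adr S c' w' → c = c' ∧ w = w'
  wd_len : ∀ (S : ℕ → Polynomial ℕ) (c : ℕ × List Bool) (i : Co S c),
    (wd (uu (lev S c)) i).length = La (lev S c)
  inj : ∀ (S : ℕ → Polynomial ℕ) (c : ℕ × List Bool), Function.Injective (pos S c)
  disj : ∀ (S : ℕ → Polynomial ℕ) (c c' : ℕ × List Bool) (i : Co S c) (j : Co S c'),
    pos S c i = pos S c' j → c = c'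
  lt : ∀ (S : ℕ → Polynomial ℕ) (c : ℕ × List Bool) (i : Co S c),
    lev S c + 2 < (pos S c i).length
  plev_pos : ∀ (S : ℕ → Polynomial ℕ) (c : ℕ × List Bool) (i : Co S c),
    plev S (pos S c i) = lev S c
  plev_le : ∀ (S : ℕ → Polynomial ℕ) (q : List Bool), plev S q ≤ q.length
  mem : ∀ (S : ℕ → Polynomial ℕ) (s n : ℕ) (q : List Bool),
    q ∈ VV S s n ↔ q.length ≤ n ∧ s ≤ plev S q

/-- PIECE NUMS (about 80 lines). Numbers. `th s = (1/2) ^ 2 ^ (3 s + 8)`. (1) `2 ^ (3 s + 11) ≥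
2 ^ (3 s + 8) + 1 + 5 * 2 ^ (2 s + 1)`. (2) `2 ^ (8 uu s) / 256 ≥ 2 ^ (3 s + 11) + 10`, `exp (-x) ≤ 2 ^ (-n)` for
`n ≤ x`. -/
structure S_NUMS : Prop where
  one : ∀ (s k : ℕ), k ≤ 2 ^ (2 * s + 1) → th (s + 1) ≤ th s / 2 / 2 ^ k / 16 ^ k
  two : ∀ s : ℕ, 1024 * Real.exp (-((2 : ℝ) ^ (8 * uu s) / 256)) ≤ th (s + 1)
  pos : ∀ s : ℕ, 0 < th s ∧ th s ≤ 1

/-- PIECE FIX (about 150 lines; hypotheses `(hAVL : S_AVL) (hAVI : S_AVI) (hHITE : S_HITE) (hPL : S_PL)
(hNUMS : S_NUMS)`). **One block is fixed.** PROOF. HITE with `u = uu s`, `q = μ`, `sι = V.powerset`,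
`w T = 1 / 2 ^ card V`, `f T z = decide (Ev Y b (s+1) R (ow V T (extend (pos c) z D)))`. `Av V (ind E)
(extend (pos c) z D) = ∑ T, w T * br (f T) z`; by `union` and AVI `∑ T, w T * ml (br (f T)) 0 =
Av (W ∪ V) (ind E) D ≥ μ` (`ml` is linear: `ml_add`, ...). Tameness: for `σ : J → Iu u`, `z₀`, as `V` is disjoint
from the places of the block, `ow V T (extend (pos c) (extend σ a z₀) D) =
extend (pos c ∘ σ) a (ow V T (extend (pos c) z₀ D))`. HITE for `v = b c` gives `z`; `D' = extend (pos c) z D`. -/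
def S_FIX : Prop := ∀ (Y : Sy) (s : ℕ) (R : Dat → Prop), Tame Y s R →
  ∀ (c : ℕ × List Bool), lev Y.S c = s → ∀ (b : ℕ × List Bool → Bool) (V : Finset (List Bool)),
    (∀ i, pos Y.S c i ∉ V) → ∀ (D : Dat) (μ : ℝ), th (s + 1) ≤ μ →
    μ ≤ Av (univ.image (pos Y.S c) ∪ V) (ind (Ev Y b (s + 1) R)) D →
    ∃ D' : Dat, (∀ q, (∀ i, q ≠ pos Y.S c i) → D' q = D q) ∧ (b c = true → YesD Y.S D' c) ∧
      (b c = false → NoD Y.S D' c) ∧ μ / 16 ≤ Av V (ind (Ev Y b (s + 1) R)) D'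

/-- PIECE FIXL (hypotheses `(hAVL : S_AVL) (hPL : S_PL) (hFIX : S_FIX)`). **Finitely many blocks of one
level are fixed.** Port of BE/FIXL.lean (`128 * lm s` becomes `16`). -/
def S_FIXL : Prop := ∀ (Y : Sy) (s : ℕ) (R : Dat → Prop), Tame Y s R →
  ∀ (C : Finset (ℕ × List Bool)), (∀ c ∈ C, lev Y.S c = s) →
    ∀ (b : ℕ × List Bool → Bool) (V : Finset (List Bool)),
    (∀ c ∈ C, ∀ i, pos Y.S c i ∉ V) → ∀ (D : Dat) (μ : ℝ), th (s + 1) ≤ μ / 16 ^ C.card →
    μ ≤ Av (C.biUnion (fun c => univ.image (pos Y.S c)) ∪ V) (ind (Ev Y b (s + 1) R)) D →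
    ∃ D' : Dat, (∀ q, (∀ c ∈ C, ∀ i, q ≠ pos Y.S c i) → D' q = D q) ∧
      (∀ c ∈ C, (b c = true → YesD Y.S D' c) ∧ (b c = false → NoD Y.S D' c)) ∧
      μ / 16 ^ C.card ≤ Av V (ind (Ev Y b (s + 1) R)) D'

/-- PIECE STEP (hypotheses `(hAVL : S_AVL) (hPL : S_PL) (hNUMS : S_NUMS) (hFIXL : S_FIXL)`). **One level.**
Port of BE/STEP.lean. -/
def S_STEP : Prop := ∀ (Y : Sy) (s : ℕ) (R : Dat → Prop), Tame Y s R → Fd R →
  ∀ (D : Dat) (b : ℕ × List Bool → Bool), Ok Y s R (th s / 2) D b →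
    ∃ (D' : Dat) (b' : ℕ × List Bool → Bool), Ext Y s D b D' b' ∧ Ok Y (s + 1) R (th (s + 1)) D' b'

/-- PIECE ITER (hypotheses `(hNUMS : S_NUMS) (hSTEP : S_STEP)`). Port of BE/ITER.lean. -/
def S_ITER : Prop := ∀ (Y : Sy) (R : Dat → Prop), Fd R → ∀ (s k : ℕ), (∀ j, s ≤ j → j < s + k →
  Tame Y j R) → ∀ (D : Dat) (b : ℕ × List Bool → Bool), Ok Y s R (th s / 2) D b → 1 ≤ k →
    ∃ (D' : Dat) (b' : ℕ × List Bool → Bool), Ext Y s D b D' b' ∧
      Ok Y (s + k) R (th (s + k)) D' b'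

/-- PIECE LIM (hypotheses `(hAVL : S_AVL) (hPL : S_PL) (hNUMS : S_NUMS)`). **The limit.** Port of
BE/LIM.lean. -/
def S_LIM : Prop := ∀ (Y : Sy) (Rq : ℕ → Dat → Prop),
  (∀ (j s : ℕ) (D : Dat) (b : ℕ × List Bool → Bool), Ok Y s (fun _ => True) (th s) D b →
    ∃ (s' : ℕ) (D' : Dat) (b' : ℕ × List Bool → Bool), s < s' ∧ Ext Y s D b D' b' ∧
      Ok Y s' (fun _ => True) (th s') D' b' ∧
      ∀ D'' : Dat, (∀ q, plev Y.S q < s' → D'' q = D' q) → Rq j D'') →
  ∃ (D : Dat) (b : ℕ × List Bool → Bool), (∀ c, Y.tr c D ↔ b c = true) ∧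
    (∀ c, (b c = true → YesD Y.S D c) ∧ (b c = false → NoD Y.S D c)) ∧ ∀ j, Rq j D

/-- PIECE EQX (about 150 lines). **Exponential time in exact quantum polynomial time.** PROOF. As BE/BQX.lean,
with `K7x.EQ.isEQP_of` (K7x/EQ/Fam.lean; see also `eqp_of_cont`, K7x/EQ/Up.lean) in the place of
`RT.isBQP_of_fo`: `pre u = false :: true :: cS e ((S e).eval u.length) []`, `ppre u = [false, false, true]`,
`j = r = 8 * uu (S e)`, `m = m2e (uu (S e))`, `k = 512 * uu (S e)` as polynomials, `uu (S e) = 8 * (S e + 8) ^ 2`;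
`z i = D (pos S (e, x) i)`; `K7x.EQ.enc_rp`. -/
def S_EQX : Prop := ∀ (g : ℕ → Alg) (S : ℕ → Polynomial ℕ) (A : Oracle) (D : Dat)
  (b : ℕ × List Bool → Bool), Function.Surjective g → Kx g S →
    (∀ (c : ℕ × List Bool) (w : List Bool), w.length = La (lev S c) →
      A (adr S c w) = Pool.Agent.K7x.EQ.enc (uu (lev S c)) (fun i => D (pos S c i)) w) →
    (∀ v : List Bool, A (false :: false :: true :: v) = true ↔ ∀ b ∈ v, b = false) →
    (∀ c, Tv g A c ↔ b c = true) →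
    (∀ c, (b c = true → YesD S D c) ∧ (b c = false → NoD S D c)) →
    ∀ L, IsEXP A L → IsEQP A L

/-! ## The oracle with `P = NP` -/

open Classical in
/-- the base oracle -/
noncomputable def baseE (S : ℕ → Polynomial ℕ) (D : Dat) : Oracle := fun q =>
  if h : ∃ (c : ℕ × List Bool) (w : List Bool), w.length = La (lev S c) ∧ q = adr S c w then
    Pool.Agent.K7x.EQ.enc (uu (lev S h.choose)) (fun i => D (pos S h.choose i))
      h.choose_spec.choose
  else match q with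
    | false :: false :: true :: v => decide (∀ b ∈ v, b = false)
    | q => D q

/-- PIECE BSE (about 80 lines; hypothesis `(hPL : S_PL)`). **The base oracle.** PROOF. `blk`: `adr_inj`. `cls`: in
the first case `K7x.EQ.enc_cls` (K7x/EQ/Fml.lean): `enc u z w = z i` or constant; the place `pos S c i` has the
same length as `adr S c w` (`wd_len`, `length_cS`). -/
structure S_BSE : Prop where
  blk : ∀ (S : ℕ → Polynomial ℕ) (D : Dat) (c : ℕ × List Bool) (w : List Bool),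
    w.length = La (lev S c) →
      baseE S D (adr S c w) = Pool.Agent.K7x.EQ.enc (uu (lev S c)) (fun i => D (pos S c i)) w
  zer : ∀ (S : ℕ → Polynomial ℕ) (D : Dat) (v : List Bool),
    baseE S D (false :: false :: true :: v) = true ↔ ∀ b ∈ v, b = false
  tt : ∀ (S : ℕ → Polynomial ℕ) (D : Dat) (v : List Bool), baseE S D (true :: v) = D (true :: v)
  cls : ∀ (S : ℕ → Polynomial ℕ) (q : List Bool),
    (∃ p : List Bool, p.length ≤ q.length ∧ ∀ D : Dat, baseE S D q = D p) ∨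
      ∃ v : Bool, ∀ D : Dat, baseE S D q = v

/-- the oracle -/
noncomputable def orcE (S N : ℕ → Polynomial ℕ) (h : ℕ → Alg × Polynomial ℕ) (D : Dat) : Oracle :=
  C1.Phi (cN : Jn N → List Bool) (contN h) (baseE S D)

/-- PIECE ORCN (about 200 lines; hypothesis `(hBSE : S_BSE)`). **The oracle.** Port of BE/ORCN.lean. `adm`:
questions of length at most `m` are constants (`loc`: the places `pl i` are longer); a question is a code
(nested), or by `BSE.cls` a bit `extend pl a D p` (coordinate if `p = pl i`, else constant), or constant. -/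
structure S_ORCN : Prop where
  on : ∀ (S N : ℕ → Polynomial ℕ) (h : ℕ → Alg × Polynomial ℕ) (D : Dat) (p : Jn N),
    orcE S N h D (cN p) = true ↔ contN h p (orcE S N h D)
  off : ∀ (S N : ℕ → Polynomial ℕ) (h : ℕ → Alg × Polynomial ℕ) (D : Dat) (q : List Bool),
    (∀ p : Jn N, q ≠ cN p) → orcE S N h D q = baseE S D q
  loc : ∀ (S N : ℕ → Polynomial ℕ) (h : ℕ → Alg × Polynomial ℕ) (n : ℕ) (D D' : Dat),
    (∀ q : List Bool, q.length ≤ n → D q = D' q) →
      ∀ q : List Bool, q.length ≤ n → orcE S N h D q = orcE S N h D' q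
  adm : ∀ (S N : ℕ → Polynomial ℕ) (h : ℕ → Alg × Polynomial ℕ), Kh h N → ∀ (m T : ℕ) (I : Type)
    (pl : I → List Bool) (D : Dat), Function.Injective pl → (∀ i, m < (pl i).length) →
      Adm m T (fun a : I → Bool => orcE S N h (Function.extend pl a D))

/-- PIECE NPP (hypothesis `(hORCN : S_ORCN)`). **`P = NP`.** Port of BE/NPP.lean. -/
def S_NPP : Prop := ∀ (S N : ℕ → Polynomial ℕ) (h : ℕ → Alg × Polynomial ℕ),
  Function.Surjective h → Kh h N → ∀ (D : Dat) (L : Set (List Bool)),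
    IsNP (orcE S N h D) L → IsP (orcE S N h D) L

/-- PIECE NUMN (about 80 lines). Numbers, as BE/NUMN.lean. `uu s = 8 (s + 8)²`. (1) the exponent of 1/2 on the
left is at least `2 ^ (3 s + 16) + 1 - s - (2 ^ s + 1) - (256 (s + 8)² + 8)` (`s ≥ 1`), at least `2 ^ (3 s + 11)`.
(2) `64 * 2 ^ (2 (6 s + 18)) * (24 * 2 ^ (4 s + 16)) ^ (2 s) ≤ 2 ^ (8 s² + 54 s + 42) ≤ 2 ^ (32 (s + 8)²)`. -/
structure S_NUMN : Prop where
  one : ∀ s : ℕ, (s : ℝ) * (2 ^ (2 ^ s + 1) * (1 / 2) ^ (2 ^ (3 * s + 16) + 1)) *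
    2 ^ (32 * uu s + 8) ≤ th (s + 1)
  two : ∀ s : ℕ, 64 * ((2 : ℝ) ^ (2 * s + 2) * (2 ^ s * 2 ^ (3 * s + 16))) ^ 2 ≤
    ((1 / (24 * (2 ^ s * 2 ^ (3 * s + 16)))) ^ s) ^ 2 * 2 ^ (4 * uu s)
  three : ∀ s : ℕ, 2 ^ s ≤ (s + 2) ^ 2 ^ s

/-- PIECE TAMN (about 200 lines; hypotheses `(hPL : S_PL) (hORCN : S_ORCN) (hNUMN : S_NUMN)
(hCARDU : S_CARDU) (hRUNDT : S_RUNDT) (hCONJ : S_CONJ)`). **All levels are tame.** Port of BE/TAMN.lean: there
TAMEG is applied with `T = 2 ^ s`, `k = 2 ^ (3 s + 16)`, `q₀ = 1 / (24 T k)`, `p = q₀ ^ s`,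
`β = s * (2 ^ (T + 1) * (1/2) ^ (k + 1))`, `t = 2 ^ (2 s + 2) * (T * k)`; now these are the witnesses of `Tame` (NUMN);
the coordinates are `pl i = pos Y.S c (σ i)` (`m = s + 2`). -/
def S_TAMN : Prop := ∀ (g : ℕ → Alg) (S N : ℕ → Polynomial ℕ) (h : ℕ → Alg × Polynomial ℕ),
  Kx g S → Kh h N → ∀ Y : Sy, Y.S = S → (∀ c D, Y.tr c D ↔ Tv g (orcE S N h D) c) →
    ∀ s : ℕ, Tame Y s (fun _ => True)

/-- PIECE W1 (hypotheses `(hNUMS : S_NUMS) (hSTEP : S_STEP) (hLIM : S_LIM) (hKX : S_KX) (hEQX : S_EQX)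
(hKHN : S_KHN) (hBSE : S_BSE) (hORCN : S_ORCN) (hNPP : S_NPP) (hTAMN : S_TAMN)`). **The world.** Port of
BE/W1.lean. (The strings `adr S c w` and `false :: false :: true :: v` are no codes: `ORCN.off`, `BSE`.) -/
def S_W1 : Prop := ∃ A : Oracle, (∀ L, IsNP A L → IsP A L) ∧ ∀ L, IsEXP A L → IsEQP A L

end Pool.Agent.H9x.BF
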