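import Pool.Agent.H9x.BF.Stm2
import Pool.Agent.H9x.BE.Stm4

/-!
# Project BF (zero error), part 3: the world with `EQP = EXP` and an infinite polynomial hierarchy

All pieces are ports of the files of the same name in `Pool/Agent/H9x/BE/`; the oracle is
`baseE S D`, strings `true :: u` are free.
-/

set_option autoImplicit false
set_option linter.unusedSectionVars false
set_option linter.unusedVariables false

namespace Pool.Agent.H9x.BF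

open Finset Filter H568R2 Pool.Agent.H676 Pool.Agent.NPC Pool.Agent.H620R2.Gauge
  Pool.Agent.H9x.Q Pool.Agent.H622R2 Pool.Agent.TH678.SETH Pool.Agent.TH678.RS
  Pool.Agent.H591R3.PHG

open Pool.Agent.H622R2.Exp hiding Dat

open Pool.Agent.TH678.ETH hiding th

open Pool.Agent.H9x.RT (ml lv lev UU)

open Pool.Agent.H9x.BE (th Dat ind Sy Ev Fd Av ow Kx Tv S_AVL S_AVI S_KX S_CARDU S_RUNDT S_CONJ
  xsN pla Nm fr Szs S_ALT2 S_SZ2)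

open Pool.Agent.K7x.EQ (IsEQP)

/-- for every padding `P ≤ Pm` the machine is wrong on one of the inputs -/
def RR (S : ℕ → Polynomial ℕ) (k : ℕ) (M : Alg) (n u : ℕ) (as : List ℕ) (Pm : ℕ) (D : Dat) : Prop :=
  ∀ P ≤ Pm, ¬ RU.Rt k P M (xsN n u as) (baseE S D)

/-- PIECE NUMR (about 80 lines). Numbers for the levels `s ≥ m₁`, with `t₁ = 2 ^ (6 s + 30)`. As BE/NUMR.lean;
`uu s = 8 (s+8)²`. (1) exponents: `2 ^ (6 s + 30) + 1 ≥ (2 u + 1) + k + (Λ + 2) + (32 uu s + 8) + 2 ^ (3 s + 11)`,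
`32 uu s = 256 (s + 8)² ≤ 2 ^ (2 s + 14)`. (2) `t ≤ 2 ^ (15 s + 79)`, `(24 t₁) ^ (2 k) ≤ 2 ^ ((6 s + 35) 2 s)`,
`12 s² + 100 s + 164 ≤ 32 (s + 8)² = 4 uu s`. -/
structure S_NUMR : Prop where
  one : ∀ (s m₁ k u Pm Λ : ℕ), m₁ ≤ s → k ≤ m₁ → u ≤ 3 * m₁ + 12 → Pm ≤ 2 ^ (2 * u) →
    Λ + k ≤ 2 ^ (2 * u) →
    ((Pm : ℝ) + 1) * (k * (2 ^ (Λ + 2) * (1 / 2) ^ (2 ^ (6 * s + 30) + 1))) *
      2 ^ (32 * uu s + 8) ≤ th (s + 1)
  two : ∀ (s m₁ k u Pm : ℕ), m₁ ≤ s → k ≤ m₁ → u ≤ 3 * m₁ + 12 → Pm ≤ 2 ^ (2 * u) →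
    64 * ((2 ^ (3 * s + 2) + (Pm + 1) * (2 ^ (6 * s + 30) * 2 ^ (u + 11)) : ℕ) : ℝ) ^ 2 ≤
      ((1 / (24 * (2 : ℝ) ^ (6 * s + 30))) ^ k) ^ 2 * 2 ^ (4 * uu s)
  three : ∀ s : ℕ, 64 * ((2 ^ (3 * s + 2) : ℕ) : ℝ) ^ 2 ≤ (1 : ℝ) ^ 2 * 2 ^ (4 * uu s)

/-- PIECE SMP (hypothesis `(hBSE : S_BSE)`). **Every question is a constant or a coordinate.** PROOF. `BSE.cls`,
`Function.Injective.extend_apply`, `Function.extend_apply'`. -/
def S_SMP : Prop := ∀ (I : Type) (T : ℕ) (S : ℕ → Polynomial ℕ) (pl : I → List Bool) (D : Dat),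
  Function.Injective pl → RU.Smp T (fun a : I → Bool => baseE S (Function.extend pl a D))

/-- PIECE DEPC (hypotheses `(hSMP : S_SMP) (hCARDU : S_CARDU) (hCONJ : S_CONJ)`). Port of BE/DEPC.lean. -/
def S_DEPC : Prop := ∀ (I : Type) [Fintype I] [DecidableEq I] (g : ℕ → Alg)
  (S : ℕ → Polynomial ℕ), Kx g S → ∀ (s : ℕ) (pl : I → List Bool) (D : Dat)
  (b : ℕ × List Bool → Bool), Function.Injective pl →
    ∃ F : (I → Bool) → Bool, DTr (2 ^ (3 * s + 2)) F ∧ ∀ a, F a = true ↔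
      ∀ c', lev S c' < s + 1 → (Tv g (baseE S (Function.extend pl a D)) c' ↔ b c' = true)

/-- the system of this part -/
structure Is2 (g : ℕ → Alg) (Y : Sy) : Prop where
  kx : Kx g Y.S
  tr : ∀ c D, Y.tr c D ↔ Tv g (baseE Y.S D) c

/-- PIECE TAMT (hypotheses `(hPL : S_PL) (hDEPC : S_DEPC) (hNUMR : S_NUMR)`). **Without requirement all levels
are tame.** Port of BE/TAMT.lean, now with the witnesses `t = 2 ^ (3 s + 2)`, `p = 1`, `β = 0` of `Tame`, and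
`pl i = pos Y.S c (σ i)`. -/
def S_TAMT : Prop := ∀ (g : ℕ → Alg) (Y : Sy), Is2 g Y → ∀ s : ℕ, Tame Y s (fun _ => True)

/-- PIECE TAMR (hypotheses `(hPL : S_PL) (hSMP : S_SMP) (hDEPC : S_DEPC) (hALT2 : S_ALT2) (hNUMR : S_NUMR)`).
**With the requirement the high levels are tame.** Port of BE/TAMR.lean: witnesses `t = 2 ^ (3 s + 2) +
(Pm + 1) * (t₁ * 2 ^ (u + 11))`, `p = (1/(24 t₁)) ^ k`, `β = (Pm + 1) * (k * (2 ^ (Λ + 2) * (1/2) ^ (t₁ + 1)))`,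
`t₁ = 2 ^ (6 s + 30)`. -/
def S_TAMR : Prop := ∀ (g : ℕ → Alg) (Y : Sy), Is2 g Y →
  ∀ (M : Alg) (k n u T Pm Λ m₀ m₁ : ℕ) (as : List ℕ), Nm M k n u T Pm Λ m₀ as → k ≤ m₁ →
    u ≤ 3 * m₁ + 12 → ∀ s : ℕ, m₁ ≤ s → Tame Y s (RR Y.S k M n u as Pm)

/-- PIECE FREE (hypotheses `(hAVI : S_AVI) (hSMP : S_SMP)`). **Random free strings.** Port of BE/FREE.lean. -/
def S_FREE : Prop := ∀ (S : ℕ → Polynomial ℕ) (M : Alg) (k n u T Pm Λ m₀ : ℕ) (as : List ℕ),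
  Nm M k n u T Pm Λ m₀ as → ∀ P ≤ Pm, ∀ D : Dat,
    Av (univ.image (pla n u as)) (ind (fun D => RU.Rt k P M (xsN n u as) (baseE S D))) D ≤
      fr k u Λ

/-- PIECE OKR (hypotheses `(hAVL : S_AVL) (hPL : S_PL) (hFREE : S_FREE)`). **The requirement is added.** Port of
BE/OKR.lean. -/
def S_OKR : Prop := ∀ (Y : Sy) (M : Alg) (k n u T Pm Λ m₀ m₁ : ℕ) (as : List ℕ),
  Nm M k n u T Pm Λ m₀ as → m₁ ≤ n → ((Pm : ℝ) + 1) * fr k u Λ ≤ th m₁ / 2 →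
    ∀ (D : Dat) (b : ℕ × List Bool → Bool), Ok Y m₁ (fun _ => True) (th m₁) D b →
      Ok Y m₁ (RR Y.S k M n u as Pm) (th m₁ / 2) D b

/-- PIECE FDR (hypothesis `(hBSE : S_BSE)`). Port of BE/FDR.lean; `baseE S D`, `baseE S D'` agree on the strings of
length at most `N` if `D`, `D'` do (`BSE.cls`). -/
def S_FDR : Prop := ∀ (S : ℕ → Polynomial ℕ) (M : Alg) (k n u T Pm Λ m₀ : ℕ) (as : List ℕ),
  Nm M k n u T Pm Λ m₀ as → Fd (RR S k M n u as Pm)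

/-- PIECE EPI (hypotheses `(hAVL : S_AVL) (hPL : S_PL) (hNUMS : S_NUMS) (hITER : S_ITER) (hTAMT : S_TAMT)
(hTAMR : S_TAMR) (hOKR : S_OKR) (hFDR : S_FDR)`). **One requirement is met.** Port of BE/EPI.lean. -/
def S_EPI : Prop := ∀ cc : Alg → ℕ → ℕ, (∀ M k, Szs M k (cc M k)) → ∀ (g : ℕ → Alg) (Y : Sy),
  Is2 g Y → ∀ (r : Alg × ℕ × ℕ) (s : ℕ) (D : Dat) (b : ℕ × List Bool → Bool),
    Ok Y s (fun _ => True) (th s) D b →
    ∃ (s' : ℕ) (D' : Dat) (b' : ℕ × List Bool → Bool), s < s' ∧ Ext Y s D b D' b' ∧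
      Ok Y s' (fun _ => True) (th s') D' b' ∧
      ∀ D'' : Dat, (∀ q, plev Y.S q < s' → D'' q = D' q) → RU.Req cc (baseE Y.S D'') r

/-- PIECE W2 (hypotheses `(hPL : S_PL) (hLIM : S_LIM) (hKX : S_KX) (hEQX : S_EQX) (hBSE : S_BSE) (hSZ2 : S_SZ2)
(hEPI : S_EPI)`). **The world.** Port of BE/W2.lean. -/
def S_W2 : Prop := ∃ A : Oracle, (∀ L, IsEXP A L → IsEQP A L) ∧
  ∀ k : ℕ, ∃ L, IsSig A (k + 1) L ∧ ∀ (V : List Bool → List Bool) (h : ℕ → ℕ), IsFP A V →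
    (∀ c : ℕ, ∀ᶠ n : ℕ in atTop, c * h n ≤ n) → ∃ x, ¬ (x ∈ L ↔
      Quant (2 ^ h x.length) V k true
        (pairBits (List.replicate (2 ^ h x.length) true) x))

end Pool.Agent.H9x.BF
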